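import Mathlib

/-!
Real functions used in the construction.
-/

set_option autoImplicit false

open Set Filter Topology

namespace Pool.Agent.H741.Bing

/-! ### The wave -/

noncomputable def W (x : ℝ) : ℝ := (Real.cos (Real.pi * x)) ^ 2

theorem W_nonneg (x : ℝ) : 0 ≤ W x := sq_nonneg _

theorem W_le_one (x : ℝ) : W x ≤ 1 := Real.cos_sq_le_one _

@[fun_prop]
theorem continuous_W : Continuous W := by unfold W; fun_prop

theorem W_two_mul (x : ℝ) : W (2 * x) = (2 * W x - 1) ^ 2 := by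
  unfold W
  rw [show Real.pi * (2 * x) = 2 * (Real.pi * x) by ring, Real.cos_two_mul]

theorem W_add_nat (x : ℝ) (n : ℕ) : W (x + n) = W x := by
  unfold W
  rw [show Real.pi * (x + n) = Real.pi * x + n * Real.pi by ring, Real.cos_add_nat_mul_pi,
    mul_pow, ← pow_mul, mul_comm n 2, pow_mul]
  norm_num

theorem W_neg (x : ℝ) : W (-x) = W x := by
  unfold W
  rw [show Real.pi * (-x) = -(Real.pi * x) by ring, Real.cos_neg]

theorem W_zero : W 0 = 1 := by simp [W]

theorem W_nat (n : ℕ) : W n = 1 := by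
  have := W_add_nat 0 n
  rwa [zero_add, W_zero] at this

theorem W_nat_sub (n : ℕ) (d : ℝ) : W (n - d) = W d := by
  rw [show (n : ℝ) - d = -d + n by ring, W_add_nat, W_neg]

theorem W_half_add (d : ℝ) : W (1 / 2 + d) = (Real.sin (Real.pi * d)) ^ 2 := by
  unfold W
  rw [show Real.pi * (1 / 2 + d) = Real.pi * d + Real.pi / 2 by ring, Real.cos_add_pi_div_two]
  ring

theorem sin_sq_le (d : ℝ) : (Real.sin (Real.pi * d)) ^ 2 ≤ 10 * d ^ 2 := by
  have h1 : |Real.sin (Real.pi * d)| ≤ |Real.pi * d| := Real.abs_sin_le_abs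
  have h2 : (Real.sin (Real.pi * d)) ^ 2 ≤ (Real.pi * d) ^ 2 := sq_le_sq.2 h1
  have h3 : Real.pi ^ 2 ≤ 10 := by nlinarith [Real.pi_lt_d2, Real.pi_gt_three]
  nlinarith [sq_nonneg d]

theorem W_near_half (n : ℕ) (d : ℝ) : W (n + 1 / 2 + d) ≤ 10 * d ^ 2 := by
  rw [show (n : ℝ) + 1 / 2 + d = (1 / 2 + d) + n by ring, W_add_nat, W_half_add]
  exact sin_sq_le d

theorem W_half (n : ℕ) : W (n + 1 / 2) = 0 := by
  have h1 := W_near_half n 0
  have h2 := W_nonneg (n + 1 / 2 + 0)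
  simp only [add_zero] at h1 h2
  linarith

theorem W_near_nat (n : ℕ) (d : ℝ) : 1 - 10 * d ^ 2 ≤ W (n - d) := by
  rw [W_nat_sub]
  have h1 : W d = 1 - (Real.sin (Real.pi * d)) ^ 2 := by
    unfold W
    linarith [Real.sin_sq_add_cos_sq (Real.pi * d)]
  rw [h1]
  linarith [sin_sq_le d]

theorem abs_cos_sub_cos_le (x y : ℝ) : |Real.cos x - Real.cos y| ≤ |x - y| := by
  rw [Real.cos_sub_cos x y]
  have h2 : |Real.sin ((x + y) / 2)| ≤ 1 := Real.abs_sin_le_one _
  have h3 : |Real.sin ((x - y) / 2)| ≤ |(x - y) / 2| := Real.abs_sin_le_abs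
  rw [abs_mul, abs_mul]
  rw [abs_div] at h3
  norm_num at h3 ⊢
  nlinarith [abs_nonneg (Real.sin ((x + y) / 2)), abs_nonneg (Real.sin ((x - y) / 2)),
    abs_nonneg (x - y)]

theorem W_lip (x y : ℝ) : |W x - W y| ≤ 4 * |x - y| := by
  have e : ∀ z : ℝ, W z = (1 + Real.cos (2 * Real.pi * z)) / 2 := by
    intro z
    unfold W
    rw [show 2 * Real.pi * z = 2 * (Real.pi * z) by ring, Real.cos_two_mul]
    ring
  rw [e x, e y]
  have h := abs_cos_sub_cos_le (2 * Real.pi * x) (2 * Real.pi * y)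
  have h2 : |2 * Real.pi * x - 2 * Real.pi * y| = 2 * Real.pi * |x - y| := by
    rw [← mul_sub, abs_mul, abs_of_pos (by positivity)]
  rw [h2] at h
  have h3 : (1 + Real.cos (2 * Real.pi * x)) / 2 - (1 + Real.cos (2 * Real.pi * y)) / 2
    = (Real.cos (2 * Real.pi * x) - Real.cos (2 * Real.pi * y)) / 2 := by ring
  rw [h3, abs_div, abs_of_pos (by norm_num : (0:ℝ) < 2)]
  have := Real.pi_lt_d2
  nlinarith [abs_nonneg (x - y)]

theorem exists_W_eq {y : ℝ} (hy0 : 0 ≤ y) (hy1 : y ≤ 1) : ∃ u ∈ Icc (0 : ℝ) (1 / 2), W u = y := by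
  have h := intermediate_value_Icc' (by norm_num : (0 : ℝ) ≤ 1 / 2) (continuous_W.continuousOn (s := Icc 0 (1/2)))
  have e0 : W 0 = 1 := W_zero
  have e1 : W (1 / 2) = 0 := by simpa using W_half 0
  rw [e0, e1] at h
  obtain ⟨u, hu, h2⟩ := h ⟨hy0, hy1⟩
  exact ⟨u, hu, h2⟩

/-! ### The reparametrisations -/

noncomputable def Lam (x : ℝ) : ℝ := x / (1 + x)

noncomputable def xi (s : ℝ) : ℝ := s / (1 - s)

theorem Lam_xi {s : ℝ} (hs : s < 1) : Lam (xi s) = s := by
  unfold Lam xi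
  have : 1 - s ≠ 0 := by linarith
  field_simp
  ring

theorem xi_Lam {x : ℝ} (hx : 0 ≤ x) : xi (Lam x) = x := by
  unfold Lam xi
  have : 1 + x ≠ 0 := by linarith
  field_simp
  ring

theorem Lam_nonneg {x : ℝ} (hx : 0 ≤ x) : 0 ≤ Lam x := by unfold Lam; positivity

theorem Lam_lt_one {x : ℝ} (hx : 0 ≤ x) : Lam x < 1 := by
  unfold Lam; rw [div_lt_one (by linarith)]; linarith

theorem one_sub_Lam {x : ℝ} (hx : 0 ≤ x) : 1 - Lam x = 1 / (1 + x) := by
  unfold Lam
  have : 1 + x ≠ 0 := by linarith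
  field_simp
  ring

theorem Lam_strictMono {x y : ℝ} (hx : 0 ≤ x) (hxy : x < y) : Lam x < Lam y := by
  have h1 := one_sub_Lam hx
  have h2 := one_sub_Lam (hx.trans hxy.le)
  have : 1 / (1 + y) < 1 / (1 + x) := one_div_lt_one_div_of_lt (by linarith) (by linarith)
  linarith

theorem Lam_mono {x y : ℝ} (hx : 0 ≤ x) (hxy : x ≤ y) : Lam x ≤ Lam y := by
  rcases hxy.lt_or_eq with h | h
  · exact (Lam_strictMono hx h).le
  · rw [h]

theorem xi_nonneg {s : ℝ} (h0 : 0 ≤ s) (h1 : s < 1) : 0 ≤ xi s := by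
  unfold xi; apply div_nonneg h0; linarith

theorem xi_strictMono {s t : ℝ} (h : s < t) (h1 : t < 1) : xi s < xi t := by
  unfold xi
  rw [div_lt_div_iff₀ (by linarith) (by linarith)]
  nlinarith

theorem xi_mono {s t : ℝ} (h : s ≤ t) (h1 : t < 1) : xi s ≤ xi t := by
  rcases h.lt_or_eq with h | h
  · exact (xi_strictMono h h1).le
  · rw [h]

theorem Lam_zero : Lam 0 = 0 := by simp [Lam]
theorem xi_zero : xi 0 = 0 := by simp [xi]

theorem continuousOn_Lam : ContinuousOn Lam (Ici 0) := by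
  unfold Lam
  apply ContinuousOn.div (by fun_prop) (by fun_prop)
  intro x hx
  have : (0:ℝ) ≤ x := hx
  linarith

theorem continuousOn_xi : ContinuousOn xi (Iio 1) := by
  unfold xi
  apply ContinuousOn.div (by fun_prop) (by fun_prop)
  intro x hx
  have : x < (1:ℝ) := hx
  linarith

/-! ### Strands -/

/-- number of dips of strand `k` -/
def nn (k : ℕ) : ℕ := if k % 6 = 2 ∨ k % 6 = 4 then k + 5 else (k + 10) ^ 2

theorem nn_ge (k : ℕ) : k + 5 ≤ nn k := by
  unfold nn
  split_ifs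
  · exact le_rfl
  · nlinarith

noncomputable def rho (k : ℕ) : ℝ := 1 / (4 * (k + 6))

theorem rho_pos (k : ℕ) : 0 < rho k := by unfold rho; positivity

theorem rho_le (k : ℕ) : rho k ≤ 1 / 24 := by
  unfold rho
  apply one_div_le_one_div_of_le (by norm_num)
  have : (0:ℝ) ≤ k := Nat.cast_nonneg k
  linarith

noncomputable def cA (k : ℕ) : ℝ := k + 1 / 2 - rho k
noncomputable def cB (k : ℕ) : ℝ := k + 1 / 2 + rho k
noncomputable def cN (k : ℕ) : ℝ := nn k - rho k
noncomputable def aL (k : ℕ) : ℝ := Lam (cA k)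
noncomputable def aR (k : ℕ) : ℝ := Lam (cB k)

theorem cA_pos (k : ℕ) : 0 < cA k := by
  unfold cA
  have := rho_le k
  have : (0:ℝ) ≤ k := Nat.cast_nonneg k
  linarith

theorem cA_lt_cB (k : ℕ) : cA k < cB k := by
  unfold cA cB
  have := rho_pos k
  linarith

theorem nn_ge' (k : ℕ) : (k : ℝ) + 5 ≤ nn k := by exact_mod_cast nn_ge k

theorem cB_lt (k : ℕ) : cB k < k + 1 := by
  unfold cB
  have := rho_le k
  linarith

theorem cA_lt_cN (k : ℕ) : cA k < cN k := by
  unfold cA cN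
  have := rho_le k
  have := nn_ge' k
  linarith

theorem cN_lt (k : ℕ) : cN k < nn k := by
  unfold cN
  have := rho_pos k
  linarith

theorem aL_pos (k : ℕ) : 0 < aL k := by
  have := Lam_strictMono le_rfl (cA_pos k)
  rwa [Lam_zero] at this

theorem aL_lt_aR (k : ℕ) : aL k < aR k := Lam_strictMono (cA_pos k).le (cA_lt_cB k)

theorem aR_lt_one (k : ℕ) : aR k < 1 := Lam_lt_one ((cA_pos k).trans (cA_lt_cB k)).le

theorem aL_lt_one (k : ℕ) : aL k < 1 := (aL_lt_aR k).trans (aR_lt_one k)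

theorem aR_le_aL {k l : ℕ} (h : k < l) : aR k ≤ aL l := by
  apply Lam_mono ((cA_pos k).trans (cA_lt_cB k)).le
  have h1 := cB_lt k
  have : (k : ℝ) + 1 ≤ l := by exact_mod_cast h
  unfold cA
  have := rho_le l
  linarith

theorem one_sub_aL (k : ℕ) : 1 - aL k ≤ 1 / (k + 1) := by
  unfold aL
  rw [one_sub_Lam (cA_pos k).le]
  apply one_div_le_one_div_of_le (by positivity)
  unfold cA
  have := rho_le k
  linarith

/-- strand `k` in terms of the lane coordinate -/
noncomputable def xik (k : ℕ) (s : ℝ) : ℝ :=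
  if s ≤ aL k then xi s
  else if s ≤ aR k then cA k + (cN k - cA k) * (s - aL k) / (aR k - aL k)
  else cN k + rho k * (s - aR k) / (1 - aR k)

/-- inverse of `xik k` -/
noncomputable def lamk (k : ℕ) (x : ℝ) : ℝ :=
  if x ≤ cA k then Lam x
  else if x ≤ cN k then aL k + (aR k - aL k) * (x - cA k) / (cN k - cA k)
  else aR k + (1 - aR k) * (x - cN k) / rho k

theorem xik_of_le {k : ℕ} {s : ℝ} (h : s ≤ aL k) : xik k s = xi s := by simp [xik, h]

theorem xi_aL (k : ℕ) : xi (aL k) = cA k := xi_Lam (cA_pos k).le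

theorem xi_aR (k : ℕ) : xi (aR k) = cB k := xi_Lam ((cA_pos k).trans (cA_lt_cB k)).le

theorem xik_of_mid {k : ℕ} {s : ℝ} (h : aL k ≤ s) (h2 : s ≤ aR k) :
    xik k s = cA k + (cN k - cA k) * (s - aL k) / (aR k - aL k) := by
  rcases h.lt_or_eq with h | h
  · simp [xik, not_le.2 h, h2]
  · subst h
    rw [xik_of_le le_rfl, xi_aL]; simp

theorem xik_of_ge {k : ℕ} {s : ℝ} (h : aR k ≤ s) :
    xik k s = cN k + rho k * (s - aR k) / (1 - aR k) := by
  have h1 := aL_lt_aR k
  rcases h.lt_or_eq with h | h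
  · simp [xik, not_le.2 h, not_le.2 (h1.trans h)]
  · subst h
    rw [xik_of_mid h1.le le_rfl]
    have : aR k - aL k ≠ 0 := by linarith
    field_simp
    ring

theorem xik_zero (k : ℕ) : xik k 0 = 0 := by rw [xik_of_le (aL_pos k).le, xi_zero]

theorem xik_one (k : ℕ) : xik k 1 = nn k := by
  rw [xik_of_ge (aR_lt_one k).le]
  have : 1 - aR k ≠ 0 := by linarith [aR_lt_one k]
  unfold cN
  field_simp
  ring

theorem lamk_of_le {k : ℕ} {x : ℝ} (h : x ≤ cA k) : lamk k x = Lam x := by simp [lamk, h]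

theorem lamk_of_mid {k : ℕ} {x : ℝ} (h : cA k ≤ x) (h2 : x ≤ cN k) :
    lamk k x = aL k + (aR k - aL k) * (x - cA k) / (cN k - cA k) := by
  rcases h.lt_or_eq with h | h
  · simp [lamk, not_le.2 h, h2]
  · subst h
    rw [lamk_of_le le_rfl]; simp [aL]

theorem lamk_of_ge {k : ℕ} {x : ℝ} (h : cN k ≤ x) :
    lamk k x = aR k + (1 - aR k) * (x - cN k) / rho k := by
  have h1 := cA_lt_cN k
  rcases h.lt_or_eq with h | h
  · simp [lamk, not_le.2 h, not_le.2 (h1.trans h)]
  · subst h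
    rw [lamk_of_mid h1.le le_rfl]
    have : cN k - cA k ≠ 0 := by linarith
    field_simp
    ring

theorem lamk_zero (k : ℕ) : lamk k 0 = 0 := by rw [lamk_of_le (cA_pos k).le, Lam_zero]

theorem lamk_nn (k : ℕ) : lamk k (nn k) = 1 := by
  rw [lamk_of_ge (cN_lt k).le]
  have := rho_pos k
  unfold cN
  field_simp
  ring

theorem xik_mid_mem {k : ℕ} {s : ℝ} (h : aL k ≤ s) (h2 : s ≤ aR k) :
    cA k ≤ xik k s ∧ xik k s ≤ cN k := by
  rw [xik_of_mid h h2]
  have h1 := aL_lt_aR k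
  have h3 := cA_lt_cN k
  constructor
  · have : 0 ≤ (cN k - cA k) * (s - aL k) / (aR k - aL k) :=
      div_nonneg (mul_nonneg (by linarith) (by linarith)) (by linarith)
    linarith
  · have : (cN k - cA k) * (s - aL k) / (aR k - aL k) ≤ cN k - cA k := by
      rw [div_le_iff₀ (by linarith)]
      apply mul_le_mul_of_nonneg_left <;> linarith
    linarith

theorem xik_ge_mem {k : ℕ} {s : ℝ} (h : aR k ≤ s) (h2 : s ≤ 1) :
    cN k ≤ xik k s ∧ xik k s ≤ nn k := by
  rw [xik_of_ge h]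
  have h1 := aR_lt_one k
  have h3 := rho_pos k
  constructor
  · have : 0 ≤ rho k * (s - aR k) / (1 - aR k) :=
      div_nonneg (mul_nonneg (by linarith) (by linarith)) (by linarith)
    linarith
  · have : rho k * (s - aR k) / (1 - aR k) ≤ rho k := by
      rw [div_le_iff₀ (by linarith)]
      apply mul_le_mul_of_nonneg_left <;> linarith
    unfold cN
    linarith

theorem xik_le_mem {k : ℕ} {s : ℝ} (h0 : 0 ≤ s) (h : s ≤ aL k) :
    0 ≤ xik k s ∧ xik k s ≤ cA k := by
  rw [xik_of_le h]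
  refine ⟨xi_nonneg h0 (h.trans_lt (aL_lt_one k)), ?_⟩
  rw [← xi_aL]
  exact xi_mono h (aL_lt_one k)

theorem xik_mem {k : ℕ} {s : ℝ} (h0 : 0 ≤ s) (h1 : s ≤ 1) : xik k s ∈ Icc (0:ℝ) (nn k) := by
  have a1 := cA_pos k
  have a2 := cA_lt_cN k
  have a3 := cN_lt k
  rcases le_total s (aL k) with h | h
  · have := xik_le_mem h0 h
    exact ⟨this.1, by linarith [this.2]⟩
  rcases le_total s (aR k) with h' | h'
  · have := xik_mid_mem h h'
    exact ⟨by linarith [this.1], by linarith [this.2]⟩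
  · have := xik_ge_mem h' h1
    exact ⟨by linarith [this.1], by linarith [this.2]⟩

theorem lamk_xik {k : ℕ} {s : ℝ} (h0 : 0 ≤ s) (h1 : s ≤ 1) : lamk k (xik k s) = s := by
  have a1 := cA_pos k
  have a2 := cA_lt_cN k
  have a3 := cN_lt k
  have b1 := aL_lt_aR k
  have b2 := aR_lt_one k
  have b3 := rho_pos k
  have c1 : aR k - aL k ≠ 0 := by linarith
  have c2 : cN k - cA k ≠ 0 := by linarith
  have c3 : 1 - aR k ≠ 0 := by linarith
  rcases le_total s (aL k) with h | h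
  · rw [lamk_of_le (xik_le_mem h0 h).2, xik_of_le h, Lam_xi (by linarith)]
  rcases le_total s (aR k) with h' | h'
  · have := xik_mid_mem h h'
    rw [lamk_of_mid this.1 this.2, xik_of_mid h h']
    field_simp
    ring
  · have := xik_ge_mem h' h1
    rw [lamk_of_ge this.1, xik_of_ge h']
    field_simp
    ring

theorem lamk_le_mem {k : ℕ} {x : ℝ} (h0 : 0 ≤ x) (h : x ≤ cA k) :
    0 ≤ lamk k x ∧ lamk k x ≤ aL k := by
  rw [lamk_of_le h]
  exact ⟨Lam_nonneg h0, Lam_mono h0 h⟩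

theorem lamk_mid_mem {k : ℕ} {x : ℝ} (h : cA k ≤ x) (h2 : x ≤ cN k) :
    aL k ≤ lamk k x ∧ lamk k x ≤ aR k := by
  rw [lamk_of_mid h h2]
  have h1 := aL_lt_aR k
  have h3 := cA_lt_cN k
  constructor
  · have : 0 ≤ (aR k - aL k) * (x - cA k) / (cN k - cA k) :=
      div_nonneg (mul_nonneg (by linarith) (by linarith)) (by linarith)
    linarith
  · have : (aR k - aL k) * (x - cA k) / (cN k - cA k) ≤ aR k - aL k := by
      rw [div_le_iff₀ (by linarith)]
      apply mul_le_mul_of_nonneg_left <;> linarith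
    linarith

theorem lamk_ge_mem {k : ℕ} {x : ℝ} (h : cN k ≤ x) (h2 : x ≤ nn k) :
    aR k ≤ lamk k x ∧ lamk k x ≤ 1 := by
  rw [lamk_of_ge h]
  have h1 := aR_lt_one k
  have h3 := rho_pos k
  constructor
  · have : 0 ≤ (1 - aR k) * (x - cN k) / rho k :=
      div_nonneg (mul_nonneg (by linarith) (by linarith)) (by linarith)
    linarith
  · have : (1 - aR k) * (x - cN k) / rho k ≤ 1 - aR k := by
      rw [div_le_iff₀ h3]
      apply mul_le_mul_of_nonneg_left _ (by linarith)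
      unfold cN; linarith
    linarith

theorem lamk_mem {k : ℕ} {x : ℝ} (h0 : 0 ≤ x) (h1 : x ≤ nn k) : lamk k x ∈ Icc (0:ℝ) 1 := by
  have a1 := aL_pos k
  have a2 := aL_lt_aR k
  have a3 := aR_lt_one k
  rcases le_total x (cA k) with h | h
  · have := lamk_le_mem h0 h
    exact ⟨this.1, by linarith [this.2]⟩
  rcases le_total x (cN k) with h' | h'
  · have := lamk_mid_mem h h'
    exact ⟨by linarith [this.1], by linarith [this.2]⟩
  · have := lamk_ge_mem h' h1
    exact ⟨by linarith [this.1], by linarith [this.2]⟩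

theorem xik_lamk {k : ℕ} {x : ℝ} (h0 : 0 ≤ x) (h1 : x ≤ nn k) : xik k (lamk k x) = x := by
  have a1 := cA_pos k
  have a2 := cA_lt_cN k
  have a3 := cN_lt k
  have b1 := aL_lt_aR k
  have b2 := aR_lt_one k
  have b3 := rho_pos k
  have c1 : aR k - aL k ≠ 0 := by linarith
  have c2 : cN k - cA k ≠ 0 := by linarith
  have c3 : 1 - aR k ≠ 0 := by linarith
  rcases le_total x (cA k) with h | h
  · rw [xik_of_le (lamk_le_mem h0 h).2, lamk_of_le h, xi_Lam h0]
  rcases le_total x (cN k) with h' | h'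
  · have := lamk_mid_mem h h'
    rw [xik_of_mid this.1 this.2, lamk_of_mid h h']
    field_simp
    ring
  · have := lamk_ge_mem h' h1
    rw [xik_of_ge this.1, lamk_of_ge h']
    field_simp
    ring

theorem xik_strictMonoOn (k : ℕ) : StrictMonoOn (xik k) (Icc 0 1) := by
  have b1 := aL_lt_aR k
  have b2 := aR_lt_one k
  have b0 := aL_pos k
  have b3 := rho_pos k
  have a2 := cA_lt_cN k
  have s1 : StrictMonoOn (xik k) (Icc 0 (aL k)) := by
    intro s hs t ht hst
    rw [xik_of_le hs.2, xik_of_le ht.2]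
    exact xi_strictMono hst (ht.2.trans_lt (b1.trans b2))
  have s2 : StrictMonoOn (xik k) (Icc (aL k) (aR k)) := by
    intro s hs t ht hst
    rw [xik_of_mid hs.1 hs.2, xik_of_mid ht.1 ht.2]
    have : (cN k - cA k) * (s - aL k) / (aR k - aL k) < (cN k - cA k) * (t - aL k) / (aR k - aL k) := by
      apply div_lt_div_of_pos_right _ (by linarith)
      apply mul_lt_mul_of_pos_left <;> linarith
    linarith
  have s3 : StrictMonoOn (xik k) (Icc (aR k) 1) := by
    intro s hs t ht hst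
    rw [xik_of_ge hs.1, xik_of_ge ht.1]
    have : rho k * (s - aR k) / (1 - aR k) < rho k * (t - aR k) / (1 - aR k) := by
      apply div_lt_div_of_pos_right _ (by linarith)
      apply mul_lt_mul_of_pos_left <;> linarith
    linarith
  have s12 : StrictMonoOn (xik k) (Icc 0 (aR k)) := by
    have := s1.union s2 (isGreatest_Icc b0.le) (isLeast_Icc b1.le)
    rwa [Icc_union_Icc_eq_Icc b0.le b1.le] at this
  have := s12.union s3 (isGreatest_Icc (b0.trans b1).le) (isLeast_Icc b2.le)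
  rwa [Icc_union_Icc_eq_Icc (b0.trans b1).le b2.le] at this

theorem continuousOn_xik (k : ℕ) : ContinuousOn (xik k) (Icc 0 1) := by
  have b1 := aL_lt_aR k
  have b2 := aR_lt_one k
  have b0 := aL_pos k
  have s1 : ContinuousOn (xik k) (Icc 0 (aL k)) := by
    apply (continuousOn_xi.mono (fun s hs => ?_)).congr (fun s hs => xik_of_le hs.2)
    exact lt_of_le_of_lt hs.2 (b1.trans b2)
  have s2 : ContinuousOn (xik k) (Icc (aL k) (aR k)) := by
    apply ContinuousOn.congr _ (fun s hs => xik_of_mid hs.1 hs.2)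
    fun_prop
  have s3 : ContinuousOn (xik k) (Icc (aR k) 1) := by
    apply ContinuousOn.congr _ (fun s hs => xik_of_ge hs.1)
    fun_prop
  have s12 : ContinuousOn (xik k) (Icc 0 (aR k)) := by
    have := s1.union_of_isClosed s2 isClosed_Icc isClosed_Icc
    rwa [Icc_union_Icc_eq_Icc b0.le b1.le] at this
  have := s12.union_of_isClosed s3 isClosed_Icc isClosed_Icc
  rwa [Icc_union_Icc_eq_Icc (b0.trans b1).le b2.le] at this

theorem continuousOn_lamk (k : ℕ) : ContinuousOn (lamk k) (Icc 0 (nn k)) := by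
  have b1 := cA_lt_cN k
  have b2 := cN_lt k
  have b0 := cA_pos k
  have s1 : ContinuousOn (lamk k) (Icc 0 (cA k)) := by
    apply (continuousOn_Lam.mono (fun s hs => ?_)).congr (fun s hs => lamk_of_le hs.2)
    exact hs.1
  have s2 : ContinuousOn (lamk k) (Icc (cA k) (cN k)) := by
    apply ContinuousOn.congr _ (fun s hs => lamk_of_mid hs.1 hs.2)
    fun_prop
  have s3 : ContinuousOn (lamk k) (Icc (cN k) (nn k)) := by
    apply ContinuousOn.congr _ (fun s hs => lamk_of_ge hs.1)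
    fun_prop
  have s12 : ContinuousOn (lamk k) (Icc 0 (cN k)) := by
    have := s1.union_of_isClosed s2 isClosed_Icc isClosed_Icc
    rwa [Icc_union_Icc_eq_Icc b0.le b1.le] at this
  have := s12.union_of_isClosed s3 isClosed_Icc isClosed_Icc
  rwa [Icc_union_Icc_eq_Icc (b0.trans b1).le b2.le] at this

theorem lamk_strictMonoOn (k : ℕ) : StrictMonoOn (lamk k) (Icc 0 (nn k)) := by
  intro x hx y hy hxy
  have h1 := lamk_mem (k := k) hx.1 hx.2
  have h2 := lamk_mem (k := k) hy.1 hy.2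
  by_contra hcon
  push Not at hcon
  have := (xik_strictMonoOn k).monotoneOn h2 h1 hcon
  rw [xik_lamk hx.1 hx.2, xik_lamk hy.1 hy.2] at this
  linarith

/-! ### Heights of strands -/

noncomputable def ee (k : ℕ) : ℝ := 1 / (k + 2)

noncomputable def oo (k : ℕ) (s : ℝ) : ℝ := (1 - s) * ee k + s * ee (k + 3)

noncomputable def HH (k : ℕ) (s : ℝ) : ℝ := W (xik k s) + oo k s

theorem ee_pos (k : ℕ) : 0 < ee k := by unfold ee; positivity

theorem ee_le (k : ℕ) : ee k ≤ 1 / 2 := by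
  unfold ee
  apply one_div_le_one_div_of_le (by norm_num)
  have : (0:ℝ) ≤ k := Nat.cast_nonneg k
  linarith

theorem ee_anti {k l : ℕ} (h : k ≤ l) : ee l ≤ ee k := by
  unfold ee
  apply one_div_le_one_div_of_le (by positivity)
  have : (k:ℝ) ≤ l := by exact_mod_cast h
  linarith

theorem ee_gap (k : ℕ) : ee k - ee (k + 1) = 1 / ((k + 2) * (k + 3)) := by
  unfold ee
  push_cast
  field_simp
  ring

theorem gap_le (k : ℕ) : 1 / (((k:ℝ) + 5) * (k + 6)) ≤ ee k - ee (k + 1) := by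
  rw [ee_gap]
  apply one_div_le_one_div_of_le (by positivity)
  nlinarith [(Nat.cast_nonneg k : (0:ℝ) ≤ k)]

theorem gap_le' (k : ℕ) : 1 / (((k:ℝ) + 5) * (k + 6)) ≤ ee (k + 3) - ee (k + 3 + 1) := by
  rw [ee_gap]
  push_cast
  apply le_of_eq
  congr 1
  ring

theorem oo_gap {k l : ℕ} (h : k < l) {s : ℝ} (h0 : 0 ≤ s) (h1 : s ≤ 1) :
    1 / (((k:ℝ) + 5) * (k + 6)) ≤ oo k s - oo l s := by
  have e1 : ee l ≤ ee (k + 1) := ee_anti h
  have e2 : ee (l + 3) ≤ ee (k + 3 + 1) := ee_anti (by omega)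
  have g1 := gap_le k
  have g2 := gap_le' k
  unfold oo
  nlinarith

theorem oo_ge (k : ℕ) {s : ℝ} (h0 : 0 ≤ s) (h1 : s ≤ 1) :
    1 / ((k:ℝ) + 5) ≤ oo k s := by
  have e1 : ee (k + 3) ≤ ee k := ee_anti (by omega)
  have e2 : ee (k + 3) = 1 / ((k:ℝ) + 5) := by unfold ee; push_cast; ring
  unfold oo
  rw [← e2]
  nlinarith

theorem oo_le (k : ℕ) {s : ℝ} (h0 : 0 ≤ s) (h1 : s ≤ 1) : oo k s ≤ ee k := by
  have e1 : ee (k + 3) ≤ ee k := ee_anti (by omega)
  unfold oo
  nlinarith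

theorem oo_pos (k : ℕ) {s : ℝ} (h0 : 0 ≤ s) (h1 : s ≤ 1) : 0 < oo k s :=
  lt_of_lt_of_le (by positivity) (oo_ge k h0 h1)

theorem rho_sq (k : ℕ) : 10 * rho k ^ 2 < 1 / (((k:ℝ) + 5) * (k + 6)) := by
  unfold rho
  have hk : (0:ℝ) ≤ k := Nat.cast_nonneg k
  rw [div_pow, ← mul_div_assoc, div_lt_div_iff₀ (by positivity) (by positivity)]
  nlinarith

/-- `W (xi s)` is small on the interval where strand `k` oscillates. -/
theorem W_xi_mid {k : ℕ} {s : ℝ} (h : aL k ≤ s) (h2 : s ≤ aR k) : W (xi s) ≤ 10 * rho k ^ 2 := by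
  have h3 : cA k ≤ xi s := by
    rw [← xi_aL]; exact xi_mono h (h2.trans_lt (aR_lt_one k))
  have h4 : xi s ≤ cB k := by
    rw [← xi_aR]; exact xi_mono h2 (aR_lt_one k)
  have h5 := W_near_half k (xi s - (k + 1 / 2))
  rw [show (k:ℝ) + 1 / 2 + (xi s - (k + 1 / 2)) = xi s by ring] at h5
  refine h5.trans ?_
  unfold cA at h3
  unfold cB at h4
  have : (xi s - (k + 1 / 2)) ^ 2 ≤ rho k ^ 2 := by
    apply sq_le_sq'
    · linarith
    · linarith
  linarith

theorem W_xik_ge {k : ℕ} {s : ℝ} (h : aR k ≤ s) (h2 : s ≤ 1) : 1 - 10 * rho k ^ 2 ≤ W (xik k s) := by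
  obtain ⟨h3, h4⟩ := xik_ge_mem h h2
  have h5 := W_near_nat (nn k) (nn k - xik k s)
  rw [show (nn k : ℝ) - (nn k - xik k s) = xik k s by ring] at h5
  refine le_trans ?_ h5
  unfold cN at h3
  have : (nn k - xik k s) ^ 2 ≤ rho k ^ 2 := by
    apply sq_le_sq'
    · linarith [rho_pos k]
    · linarith
  linarith

theorem HH_lt {k l : ℕ} (h : k < l) {s : ℝ} (h0 : 0 ≤ s) (h1 : s ≤ 1) : HH l s < HH k s := by
  have g := oo_gap h h0 h1
  have r := rho_sq k
  have w0 := W_nonneg (xik k s)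
  have w1 := W_le_one (xik l s)
  unfold HH
  rcases le_total s (aR k) with h' | h'
  · have hl : s ≤ aL l := h'.trans (aR_le_aL h)
    rw [xik_of_le hl]
    rcases le_total s (aL k) with h'' | h''
    · rw [xik_of_le h'']
      have : 0 < 1 / (((k:ℝ) + 5) * (k + 6)) := by positivity
      linarith
    · have := W_xi_mid h'' h'
      linarith
  · have := W_xik_ge h' h1
    linarith

/-- comparison with the limit curve -/
theorem lt_HH (k : ℕ) {s : ℝ} (h0 : 0 ≤ s) (h1 : s < 1) : W (xi s) < HH k s := by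
  have g := oo_ge k h0 h1.le
  have g2 : 1 / (((k:ℝ) + 5) * (k + 6)) ≤ 1 / ((k:ℝ) + 5) := by
    have hk : (0:ℝ) ≤ k := Nat.cast_nonneg k
    apply one_div_le_one_div_of_le (by positivity)
    nlinarith
  have r := rho_sq k
  have w0 := W_nonneg (xik k s)
  have w1 := W_le_one (xi s)
  have p : 0 < 1 / (((k:ℝ) + 5) * (k + 6)) := by positivity
  unfold HH
  rcases le_total s (aR k) with h' | h'
  · rcases le_total s (aL k) with h'' | h''
    · rw [xik_of_le h'']
      linarith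
    · have := W_xi_mid h'' h'
      linarith
  · have := W_xik_ge h' h1.le
    linarith

theorem HH_zero (k : ℕ) : HH k 0 = 1 + ee k := by
  unfold HH oo
  rw [xik_zero, W_zero]; ring

theorem HH_one (k : ℕ) : HH k 1 = 1 + ee (k + 3) := by
  unfold HH oo
  rw [xik_one, W_nat]; ring

theorem HH_pos (k : ℕ) {s : ℝ} (h0 : 0 ≤ s) (h1 : s ≤ 1) : 0 < HH k s := by
  have := W_nonneg (xik k s)
  have := oo_pos k h0 h1
  unfold HH; linarith

theorem HH_le (k : ℕ) {s : ℝ} (h0 : 0 ≤ s) (h1 : s ≤ 1) : HH k s ≤ 1 + ee k := by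
  have := W_le_one (xik k s)
  have := oo_le k h0 h1
  unfold HH; linarith

theorem continuousOn_HH (k : ℕ) : ContinuousOn (HH k) (Icc 0 1) := by
  unfold HH oo
  apply ContinuousOn.add
  · exact continuous_W.comp_continuousOn (continuousOn_xik k)
  · fun_prop

end Pool.Agent.H741.Bing
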