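import Pool.Agent.H741.Bing.Swap

/-!
The counting argument: a strand with few oscillations cannot be mapped over one with many.
-/

set_option autoImplicit false

open Set Filter Topology Metric

namespace Pool.Agent.H741.Bing

theorem ev_near {E : ℝ → Zs} (hE : TendsTop E MM) (hK : ∀ᶠ t in atTop, E t ∈ KK) {O : Set Zs}
    (hO : ∀ q ∈ MM, O ∈ 𝓝[KK] q) : ∀ᶠ t in atTop, E t ∈ O := by
  have h1 : MM ⊆ interior (O ∪ KKᶜ) := by
    intro q hq
    rw [mem_interior_iff_mem_nhds]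
    obtain ⟨U, hU, hsub⟩ := mem_nhdsWithin_iff_exists_mem_nhds_inter.1 (hO q hq)
    filter_upwards [hU] with z hz
    by_cases hzK : z ∈ KK
    · exact Or.inl (hsub ⟨hz, hzK⟩)
    · exact Or.inr hzK
  obtain ⟨δ, hδ, hth⟩ := isCompact_MM.exists_thickening_subset_open isOpen_interior h1
  obtain ⟨N, hN⟩ := hE δ hδ
  filter_upwards [hK, eventually_ge_atTop N] with t htK htN
  obtain ⟨q, hq, hd⟩ := hN t htN
  have : E t ∈ O ∪ KKᶜ := interior_subset (hth (mem_thickening_iff.2 ⟨q, hq, hd⟩))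
  exact this.resolve_right (fun h => h htK)

theorem RR_form {i : ℕ} {z : Zs} (hz : z ∈ RR i) : ∃ s y, 0 ≤ s ∧ s < 1 ∧ 0 ≤ y ∧ y ≤ 1 ∧
    z = pt (i + s) y := by
  rcases RR_mem_iff.1 hz with ⟨y, h0, h1, rfl⟩ | ⟨s, h0, h1, rfl⟩
  · exact ⟨0, y, le_rfl, zero_lt_one, h0, h1, by rw [add_zero]⟩
  · exact ⟨s, _, h0, h1, W_nonneg _, W_le_one _, rfl⟩

theorem displacement {g : Zs → Zs} (hsw : ∀ i, ∀ z ∈ RR i, g z ∈ RR (i + 1)) :
    ∀ q ∈ MM, (g q).1 ≠ q.1 := by
  intro q hq h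
  have key : ∀ i : ℕ, q ∈ RR i → False := by
    intro i hi
    obtain ⟨s, y, h0, h1, _, _, e⟩ := RR_form hi
    obtain ⟨s', y', h0', h1', _, _, e'⟩ := RR_form (hsw i q hi)
    rw [e', e] at h
    obtain ⟨n, hn⟩ := pt_fst_eq_iff.1 h
    obtain ⟨_, h4⟩ := lane_split h0' h1' h0 h1 hn
    omega
  rcases MM_subset q hq with h | h
  · exact key 0 h
  · exact key 1 h

theorem TT_mem_KK {c : ℕ} (hc : c = 1 ∨ c = 2) (t : ℝ) : TT c t ∈ KK := TS_sub hc ⟨t, trivial, rfl⟩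

/-- the image under a swapping map winds at bounded distance from the source -/
theorem winding {g : Zs → Zs} (hg : ContinuousOn g KK)
    (hsw : ∀ i, ∀ z ∈ RR i, g z ∈ RR (i + 1)) {c cX : ℕ} (hc : c = 1 ∨ c = 2) {E : ℝ → Zs}
    (hE : ∀ t, 0 ≤ t → E t = pt t (hh cX t)) {π : ℝ → ℝ} (hπc : ContinuousOn π (Ici 0))
    (hπ : ∀ t, 0 ≤ t → g (TT c t) = E (π t)) (htop : Tendsto π atTop atTop) :
    ∃ (n : ℤ) (N : ℝ), 0 ≤ N ∧ ∀ t, N ≤ t → 0 ≤ π t ∧ t + 2 * n < π t ∧ π t < t + 2 * n + 2 := by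
  have h1 : ∀ᶠ t in atTop, TT c t ∈ {z | (g z).1 ≠ z.1} := by
    apply ev_near (tendsTop_TT c) (Eventually.of_forall (fun t => TT_mem_KK hc t))
    intro q hq
    have hcont : ContinuousWithinAt (fun z => (g z).1 - z.1) KK q :=
      ((continuous_fst.continuousAt.comp_continuousWithinAt (hg q (MM_sub hq))).sub
        continuous_fst.continuousWithinAt)
    have hne : (g q).1 - q.1 ≠ 0 := sub_ne_zero.2 (displacement hsw q hq)
    have := hcont.preimage_mem_nhdsWithin (isOpen_ne.mem_nhds hne)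
    filter_upwards [this] with z hz
    exact sub_ne_zero.1 hz
  obtain ⟨N, hN⟩ := eventually_atTop.1 (h1.and ((htop.eventually_ge_atTop 0).and
    (eventually_ge_atTop (0:ℝ))))
  have hne : ∀ t, N ≤ t → ∀ n : ℤ, (π t - t) / 2 ≠ n := by
    intro t ht n hn
    obtain ⟨a1, a2, a3⟩ := hN t ht
    apply a1
    rw [hπ t a3, hE _ a2, TT_of_nonneg c a3]
    exact pt_fst_eq_iff.2 ⟨n, by linarith⟩
  refine ⟨⌊(π N - N) / 2⌋, N, (hN N le_rfl).2.2, ?_⟩
  intro t ht
  refine ⟨(hN t ht).2.1, ?_⟩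
  have hN0 : 0 ≤ N := (hN N le_rfl).2.2
  have hsub : Icc N t ⊆ Ici 0 := fun s hs => hN0.trans hs.1
  have hcont : ContinuousOn (fun t => (π t - t) / 2) (Icc N t) :=
    ((hπc.mono hsub).sub continuousOn_id).div_const 2
  have f1 := Int.floor_le ((π N - N) / 2)
  have f2 := Int.lt_floor_add_one ((π N - N) / 2)
  have hlow : ((⌊(π N - N) / 2⌋ : ℤ) : ℝ) < (π t - t) / 2 := by
    by_contra hcon
    push Not at hcon
    obtain ⟨s, hs, hs2⟩ := intermediate_value_Icc' ht hcont ⟨hcon, f1⟩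
    exact hne s hs.1 _ hs2
  have hup : (π t - t) / 2 < ((⌊(π N - N) / 2⌋ + 1 : ℤ) : ℝ) := by
    by_contra hcon
    push Not at hcon
    obtain ⟨s, hs, hs2⟩ := intermediate_value_Icc ht hcont ⟨by push_cast; exact f2.le, hcon⟩
    exact hne s hs.1 _ hs2
  push_cast at hup
  constructor <;> linarith

theorem continuous_ex : Continuous (fun x : ℝ => (pt x 0).1) :=
  continuous_fst.comp (Continuous.pt' continuous_id continuous_const)

theorem ex_add (x : ℝ) (n : ℤ) : (pt (x + 2 * n) 0).1 = (pt x 0).1 := by rw [pt_add_two]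

/-- convergence of angles in a window of length two -/
theorem tendsto_angle {s s' : ℝ} (h1 : s - 1 < s') (h2 : s' < s + 1) {b : ℕ → ℝ} {a : ℝ}
    (hb : ∀ᶠ k in atTop, s - 1 ≤ b k ∧ b k ≤ s + 1)
    (hlim : Tendsto (fun k => (pt (b k + a) 0).1) atTop (𝓝 (pt (s' + a) 0).1)) :
    Tendsto b atTop (𝓝 s') := by
  rw [Metric.tendsto_nhds]
  intro ε hε
  set C : Set ℝ := Icc (s - 1) (s + 1) ∩ {x | ε ≤ |x - s'|} with hC
  have hCc : IsCompact C := isCompact_Icc.inter_right (isClosed_le continuous_const (by fun_prop))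
  have himg : IsClosed ((fun x : ℝ => (pt (x + a) 0).1) '' C) := by
    apply IsCompact.isClosed
    apply hCc.image
    exact continuous_ex.comp (by fun_prop)
  have hnot : (pt (s' + a) 0).1 ∉ (fun x : ℝ => (pt (x + a) 0).1) '' C := by
    rintro ⟨x, ⟨hx1, hx2⟩, hx3⟩
    have hx2' : ε ≤ |x - s'| := hx2
    obtain ⟨n, hn⟩ := pt_fst_eq_iff.1 hx3
    have h3 : x - s' = 2 * n := by linarith
    have h4 : |x - s'| < 2 := by rw [abs_lt]; constructor <;> linarith [hx1.1, hx1.2]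
    rw [h3, abs_mul] at h4
    have h5 : |(n : ℝ)| < 1 := by
      have : |(2:ℝ)| = 2 := abs_of_pos (by norm_num)
      rw [this] at h4; linarith
    have h6 : n = 0 := by
      rw [← Int.cast_abs] at h5
      exact Int.abs_lt_one_iff.1 (by exact_mod_cast h5)
    rw [h6] at h3
    rw [h3] at hx2'
    simp at hx2'
    linarith
  have hev := hlim.eventually (himg.isOpen_compl.mem_nhds hnot)
  filter_upwards [hev, hb] with k hk1 hk2
  by_contra hcon
  apply hk1
  refine ⟨b k, ⟨⟨hk2.1, hk2.2⟩, ?_⟩, rfl⟩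
  rw [Real.dist_eq] at hcon
  exact not_lt.1 hcon

/-- Limit position of the image of the point over a fixed angle. -/
theorem limit_pos {g : Zs → Zs} (hg : ContinuousOn g KK)
    (hsw : ∀ i, ∀ z ∈ RR i, g z ∈ RR (i + 1)) {c cX : ℕ} (hc : c = 1 ∨ c = 2) {E : ℝ → Zs}
    (hE : ∀ t, 0 ≤ t → E t = pt t (hh cX t)) {π : ℝ → ℝ}
    (hπ : ∀ t, 0 ≤ t → g (TT c t) = E (π t)) {n : ℤ} {N : ℝ}
    (hw : ∀ t, N ≤ t → 0 ≤ π t ∧ t + 2 * n < π t ∧ π t < t + 2 * n + 2) (i : ℕ) {s : ℝ}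
    (h0 : 0 ≤ s) (h1 : s < 1) :
    ∃ s', 0 ≤ s' ∧ s' < 1 ∧ (s' = 0 → g (pt (i + s) (W (xi s))) ∈ CC (i + 1)) ∧
      Tendsto (fun k : ℕ => π (((i + 2 * k : ℕ) : ℝ) + s) - (((i + 2 * k : ℕ) : ℝ) + 1 + 2 * n))
        atTop (𝓝 s') := by
  have hq : pt (i + s) (W (xi s)) ∈ RR i := RR_mem_iff.2 (Or.inr ⟨s, h0, h1, rfl⟩)
  obtain ⟨s', y', h0', h1', hy0, hy1, e⟩ := RR_form (hsw i _ hq)
  refine ⟨s', h0', h1', ?_, ?_⟩
  · intro hs'
    rw [e, hs', add_zero]
    exact ⟨y', hy0, hy1, rfl⟩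
  · have hlim1 : Tendsto (fun k : ℕ => TT c (((i + 2 * k : ℕ) : ℝ) + s)) atTop
        (𝓝[KK] (pt (i + s) (W (xi s)))) := by
      apply tendsto_nhdsWithin_of_tendsto_nhds_of_eventually_within
      · apply (tendsto_spiral c i h0 h1).congr
        intro k
        rw [TT_of_nonneg c (by positivity)]
      · exact Eventually.of_forall (fun k => TT_mem_KK hc _)
    have hlim2 := (hg _ (RR_sub i hq)).tendsto.comp hlim1
    rw [e] at hlim2
    have hlim3 := (continuous_fst.tendsto _).comp hlim2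
    have htop : Tendsto (fun k : ℕ => ((i + 2 * k : ℕ) : ℝ) + s) atTop atTop := by
      apply tendsto_atTop_add_const_right
      apply tendsto_natCast_atTop_atTop.comp
      apply tendsto_atTop_mono _ tendsto_id
      intro n; simp only [id]; omega
    apply tendsto_angle (s := s) (a := ((i + 1 : ℕ) : ℝ)) (by linarith) (by linarith)
    · filter_upwards [htop.eventually_ge_atTop N] with k hk
      obtain ⟨a1, a2, a3⟩ := hw _ hk
      constructor <;> linarith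
    · have e2 : (pt (s' + ((i + 1 : ℕ) : ℝ)) 0).1 = (pt (((i + 1 : ℕ) : ℝ) + s') y').1 := by
        rw [add_comm]; exact pt_fst_eq _ _ _
      rw [e2]
      apply hlim3.congr'
      filter_upwards [htop.eventually_ge_atTop N] with k hk
      obtain ⟨a1, a2, a3⟩ := hw _ hk
      simp only [Function.comp_apply]
      rw [hπ _ (by positivity), hE _ a1]
      apply pt_fst_eq_iff.2
      refine ⟨k + n, ?_⟩
      push_cast
      ring

/-! ### Variation -/

theorem oo_lip (k : ℕ) (s s' : ℝ) : |oo k s - oo k s'| ≤ |s - s'| := by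
  unfold oo
  have e : (1 - s) * ee k + s * ee (k + 3) - ((1 - s') * ee k + s' * ee (k + 3))
    = (s - s') * (ee (k + 3) - ee k) := by ring
  rw [e, abs_mul]
  have h1 := ee_pos (k + 3)
  have h2 := ee_le k
  have h3 := ee_anti (show k ≤ k + 3 by omega)
  have : |ee (k + 3) - ee k| ≤ 1 := by rw [abs_le]; constructor <;> linarith
  nlinarith [abs_nonneg (s - s')]

theorem lane_var (c m : ℕ) {s s' : ℝ} (h0 : 0 ≤ s) (hss : s ≤ s') (h1 : s' ≤ 1) :
    dist (pt (m + s) (hh c (m + s))) (pt (m + s') (hh c (m + s'))) ≤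
      5 * (s' - s) + 4 * (xik (3 * m + c) s' - xik (3 * m + c) s) := by
  rw [hh_eq c m h0 (hss.trans h1), hh_eq c m (h0.trans hss) h1]
  refine (dist_pt_le _ _ _ _).trans ?_
  have e1 : |(m : ℝ) + s - (m + s')| = s' - s := by
    rw [abs_sub_comm, show (m : ℝ) + s' - (m + s) = s' - s by ring, abs_of_nonneg (by linarith)]
  have hmono : xik (3 * m + c) s ≤ xik (3 * m + c) s' :=
    (xik_strictMonoOn _).monotoneOn ⟨h0, hss.trans h1⟩ ⟨h0.trans hss, h1⟩ hss
  have e2 : |HH (3 * m + c) s - HH (3 * m + c) s'| ≤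
      4 * (xik (3 * m + c) s' - xik (3 * m + c) s) + (s' - s) := by
    have l1 := W_lip (xik (3 * m + c) s) (xik (3 * m + c) s')
    rw [abs_sub_comm (xik (3 * m + c) s), abs_of_nonneg (by linarith : 0 ≤ xik (3 * m + c) s' - xik (3 * m + c) s)] at l1
    have l2 := oo_lip (3 * m + c) s s'
    rw [abs_sub_comm s, abs_of_nonneg (by linarith : 0 ≤ s' - s)] at l2
    unfold HH
    have e3 : W (xik (3 * m + c) s) + oo (3 * m + c) s - (W (xik (3 * m + c) s') + oo (3 * m + c) s')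
      = (W (xik (3 * m + c) s) - W (xik (3 * m + c) s')) + (oo (3 * m + c) s - oo (3 * m + c) s') := by
      ring
    rw [e3]
    exact (abs_add_le _ _).trans (add_le_add l1 l2)
  rw [e1]
  linarith

noncomputable def VV (c m : ℕ) (t : ℝ) : ℝ :=
  5 * t + 4 * (xik (3 * m + c) (min (t - m) 1) + xik (3 * (m + 1) + c) (max (t - m - 1) 0))

theorem VV_first (c m : ℕ) {s : ℝ} (h1 : s ≤ 1) :
    VV c m (m + s) = 5 * (m + s) + 4 * xik (3 * m + c) s := by
  unfold VV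
  rw [add_sub_cancel_left, min_eq_left h1, max_eq_right (by linarith), xik_zero, add_zero]

theorem VV_second (c m : ℕ) {s : ℝ} (h0 : 0 ≤ s) :
    VV c m (m + 1 + s) = 5 * (m + 1 + s) + 4 * (nn (3 * m + c) + xik (3 * (m + 1) + c) s) := by
  unfold VV
  rw [show (m : ℝ) + 1 + s - m = 1 + s by ring, min_eq_right (by linarith),
    show (1 + s - 1 : ℝ) = s by ring, max_eq_left h0, xik_one]

theorem VV_var (c m : ℕ) {t t' : ℝ} (h0 : (m : ℝ) ≤ t) (htt : t ≤ t') (h1 : t' ≤ m + 2) :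
    dist (pt t (hh c t)) (pt t' (hh c t')) ≤ VV c m t' - VV c m t := by
  have first : ∀ t t' : ℝ, (m : ℝ) ≤ t → t ≤ t' → t' ≤ m + 1 →
      dist (pt t (hh c t)) (pt t' (hh c t')) ≤ VV c m t' - VV c m t := by
    intro t t' h0 htt h1
    obtain ⟨s, rfl⟩ : ∃ s, t = m + s := ⟨t - m, by ring⟩
    obtain ⟨s', rfl⟩ : ∃ s, t' = m + s := ⟨t' - m, by ring⟩
    rw [VV_first c m (by linarith), VV_first c m (by linarith)]
    have := lane_var c m (s := s) (s' := s') (by linarith) (by linarith) (by linarith)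
    linarith
  have second : ∀ t t' : ℝ, (m : ℝ) + 1 ≤ t → t ≤ t' → t' ≤ m + 2 →
      dist (pt t (hh c t)) (pt t' (hh c t')) ≤ VV c m t' - VV c m t := by
    intro t t' h0 htt h1
    obtain ⟨s, rfl⟩ : ∃ s, t = m + 1 + s := ⟨t - m - 1, by ring⟩
    obtain ⟨s', rfl⟩ : ∃ s, t' = m + 1 + s := ⟨t' - m - 1, by ring⟩
    rw [VV_second c m (by linarith), VV_second c m (by linarith)]
    have := lane_var c (m + 1) (s := s) (s' := s') (by linarith) (by linarith) (by linarith)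
    push_cast at this
    linarith
  rcases le_total t' (m + 1) with h | h
  · exact first t t' h0 htt h
  rcases le_total ((m : ℝ) + 1) t with h' | h'
  · exact second t t' h' htt h1
  · have a := first t (m + 1) h0 h' le_rfl
    have b := second (m + 1) t' le_rfl h h1
    have := dist_triangle (pt t (hh c t)) (pt ((m:ℝ) + 1) (hh c (m + 1))) (pt t' (hh c t'))
    linarith

/-! ### The counting theorem -/

/-- heights of the marks on a strand with many oscillations -/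
theorem mark_height (c j : ℕ) {v : ℝ} (h0 : 0 ≤ v) (h1 : v ≤ nn (3 * j + c)) :
    hh c (j + lamk (3 * j + c) v) = W v + oo (3 * j + c) (lamk (3 * j + c) v) := by
  have hm := lamk_mem h0 h1
  rw [hh_eq c j hm.1 hm.2]
  unfold HH
  rw [xik_lamk h0 h1]

theorem mark_dist (c j a l : ℕ) (h1 : (a : ℝ) + (l + 1 : ℕ) / 2 ≤ nn (3 * j + c)) :
    1 / 2 ≤ dist (pt (j + lamk (3 * j + c) (a + l / 2)) (hh c (j + lamk (3 * j + c) (a + l / 2))))
      (pt (j + lamk (3 * j + c) (a + (l + 1 : ℕ) / 2))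
        (hh c (j + lamk (3 * j + c) (a + (l + 1 : ℕ) / 2)))) := by
  have h0 : (0:ℝ) ≤ a + l / 2 := by positivity
  have h0' : (0:ℝ) ≤ a + (l + 1 : ℕ) / 2 := by positivity
  have hle : (a : ℝ) + l / 2 ≤ nn (3 * j + c) := by
    refine le_trans ?_ h1
    push_cast; linarith
  rw [mark_height c j h0 hle, mark_height c j h0' h1]
  refine le_trans ?_ (abs_sub_le_dist_pt _ _ _ _)
  have m1 := lamk_mem h0 hle
  have m2 := lamk_mem h0' h1
  have o1 := oo_pos (3 * j + c) m1.1 m1.2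
  have o2 := oo_pos (3 * j + c) m2.1 m2.2
  have o1' := oo_le (3 * j + c) m1.1 m1.2
  have o2' := oo_le (3 * j + c) m2.1 m2.2
  have e := ee_le (3 * j + c)
  have hW : (W ((a : ℝ) + l / 2) = 1 ∧ W ((a : ℝ) + (l + 1 : ℕ) / 2) = 0) ∨
      (W ((a : ℝ) + l / 2) = 0 ∧ W ((a : ℝ) + (l + 1 : ℕ) / 2) = 1) := by
    rcases Nat.even_or_odd' l with ⟨r, rfl | rfl⟩
    · left
      constructor
      · have := W_nat (a + r)
        rw [← this]; congr 1; push_cast; ring
      · have := W_half (a + r)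
        rw [← this]; congr 1; push_cast; ring
    · right
      constructor
      · have := W_half (a + r)
        rw [← this]; congr 1; push_cast; ring
      · have := W_nat (a + r + 1)
        rw [← this]; congr 1; push_cast; ring
  rcases hW with ⟨w1, w2⟩ | ⟨w1, w2⟩
  · rw [w1, w2, le_abs]
    left; linarith
  · rw [w1, w2, le_abs]
    right; linarith

theorem nn_small {c m : ℕ} (h : (c = 1 ∧ m % 2 = 1) ∨ (c = 2 ∧ m % 2 = 0)) :
    nn (3 * m + c) = 3 * m + c + 5 := by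
  unfold nn
  rw [if_pos (by omega)]

theorem nn_large {c j : ℕ} (h : c = 0 ∨ (c = 1 ∧ j % 2 = 0) ∨ (c = 2 ∧ j % 2 = 1)) :
    nn (3 * j + c) = (3 * j + c + 10) ^ 2 := by
  unfold nn
  rw [if_neg (by omega)]

theorem counting {g : Zs → Zs} (hg : ContinuousOn g KK)
    (hsw : ∀ i, ∀ z ∈ RR i, g z ∈ RR (i + 1)) {c cX : ℕ} (hc : c = 1 ∨ c = 2)
    (hcX : cX = 0 ∨ cX = c) {E : ℝ → Zs}
    (hE : ∀ t, 0 ≤ t → E t = pt t (hh cX t)) {π : ℝ → ℝ} (hπc : ContinuousOn π (Ici 0))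
    (hπ : ∀ t, 0 ≤ t → g (TT c t) = E (π t)) (htop : Tendsto π atTop atTop) : False := by
  obtain ⟨n, N, hN0, hw⟩ := winding hg hsw hc hE hπc hπ htop
  -- parity of the small lanes
  obtain ⟨i0, hi0⟩ : ∃ i0 : ℕ, (c = 1 ∧ i0 = 1) ∨ (c = 2 ∧ i0 = 0) := by
    rcases hc with rfl | rfl
    · exact ⟨1, Or.inl ⟨rfl, rfl⟩⟩
    · exact ⟨0, Or.inr ⟨rfl, rfl⟩⟩
  obtain ⟨s1, s1_0, s1_1, -, lim1⟩ := limit_pos hg hsw hc hE hπ hw i0 le_rfl zero_lt_one
  obtain ⟨u, hu, hu2⟩ := not_sub hg hsw (i0 + 1)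
  set s0 := Lam u with hs0
  have s0_0 : 0 ≤ s0 := Lam_nonneg hu
  have s0_1 : s0 < 1 := Lam_lt_one hu
  have xis0 : xi s0 = u := xi_Lam hu
  obtain ⟨s2, s2_0, s2_1, s2z, lim2⟩ := limit_pos hg hsw hc hE hπ hw (i0 + 1) s0_0 s0_1
  have s2_pos : 0 < s2 := by
    rcases s2_0.lt_or_eq with h | h
    · exact h
    · exfalso
      apply hu2
      rw [rr'_of_nonneg _ hu]
      have := s2z h.symm
      rwa [xis0] at this
  -- uniform continuity
  obtain ⟨δ1, hδ1, huc⟩ := Metric.uniformContinuousOn_iff.1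
    (isCompact_KK.uniformContinuousOn_of_continuous hg) (1 / 2) (by norm_num)
  -- choose a large lane
  have ev1 : ∀ᶠ k : ℕ in atTop, π (((i0 + 2 * k : ℕ) : ℝ) + 0) -
      (((i0 + 2 * k : ℕ) : ℝ) + 1 + 2 * n) < (1 + s1) / 2 :=
    lim1.eventually (gt_mem_nhds (by linarith))
  have ev2 : ∀ᶠ k : ℕ in atTop, 0 < π (((i0 + 1 + 2 * k : ℕ) : ℝ) + s0) -
      (((i0 + 1 + 2 * k : ℕ) : ℝ) + 1 + 2 * n) :=
    lim2.eventually (lt_mem_nhds s2_pos)
  have ev3 : ∀ᶠ m : ℕ in atTop, (1 + s1) / 2 < aL m :=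
    tendsto_aL.eventually (lt_mem_nhds (by linarith))
  have ev4 : ∀ᶠ m : ℕ in atTop, s0 < aL m := tendsto_aL.eventually (lt_mem_nhds s0_1)
  obtain ⟨K1, hK1⟩ := eventually_atTop.1 ev1
  obtain ⟨K2, hK2⟩ := eventually_atTop.1 ev2
  obtain ⟨K3, hK3⟩ := eventually_atTop.1 ev3
  obtain ⟨K4, hK4⟩ := eventually_atTop.1 ev4
  obtain ⟨K5, hK5⟩ := exists_nat_ge ((50 + 4 * u) / δ1)
  obtain ⟨K6, hK6⟩ := exists_nat_ge N
  set k := K1 + K2 + K3 + K4 + K5 + K6 + 2 * n.natAbs + 1 with hk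
  set M := i0 + 2 * k with hM
  have hMk : 2 * k ≤ M := by omega
  obtain ⟨j, hj⟩ : ∃ j : ℕ, (j : ℤ) = M + 1 + 2 * n := by
    refine ⟨((M : ℤ) + 1 + 2 * n).toNat, ?_⟩
    apply Int.toNat_of_nonneg
    omega
  have hjR : (j : ℝ) = M + 1 + 2 * n := by exact_mod_cast hj
  have hj2 : M ≤ 2 * j := by omega
  have hjk : k ≤ j := by omega
  have hpar : (j + M) % 2 = 1 := by omega
  -- small and large
  have small : nn (3 * M + c) = 3 * M + c + 5 := nn_small (by omega)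
  have large : nn (3 * j + cX) = (3 * j + cX + 10) ^ 2 := nn_large (by omega)
  -- the two ends
  have b1 : π M < j + aL (3 * j + cX) := by
    have h1 := hK1 k (by omega)
    have h2 := hK3 (3 * j + cX) (by omega)
    rw [add_zero] at h1
    rw [hjR]
    linarith
  have b2 : (j : ℝ) + 1 < π (M + 1 + s0) := by
    have h1 := hK2 k (by omega)
    have e : (((i0 + 1 + 2 * k : ℕ) : ℝ) + s0) = (M : ℝ) + 1 + s0 := by
      rw [hM]; push_cast; ring
    rw [e] at h1
    have e2 : ((i0 + 1 + 2 * k : ℕ) : ℝ) = (M : ℝ) + 1 := by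
      rw [hM]; push_cast; ring
    rw [e2] at h1
    rw [hjR]
    linarith
  -- marks
  set kX := 3 * j + cX with hkX
  set L := 2 * (nn kX - kX - 2) with hL
  have hnnkX : kX + 5 ≤ nn kX := nn_ge kX
  have hv : ∀ l : ℕ, l ≤ L → ((kX + 1 : ℕ) : ℝ) + (l : ℝ) / 2 ≤ nn kX - 1 := by
    intro l hl
    have h1 : l ≤ 2 * (nn kX - kX - 2) := hl
    have h2 : l + 2 * kX + 4 ≤ 2 * nn kX := by omega
    have h3 : (l : ℝ) + 2 * kX + 4 ≤ 2 * nn kX := by exact_mod_cast h2
    push_cast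
    linarith
  have hM0 : (0:ℝ) ≤ M := Nat.cast_nonneg M
  have hcontI : ∀ a : ℝ, (M : ℝ) ≤ a → ContinuousOn π (Icc a (M + 1 + s0)) :=
    fun a ha => hπc.mono (fun t ht => hM0.trans (ha.trans ht.1))
  have x0 : π M ≤ j + lamk kX (((kX + 1 : ℕ) : ℝ) + ((0 : ℕ) : ℝ) / 2) := by
    have h1 : cA kX ≤ ((kX + 1 : ℕ) : ℝ) + ((0 : ℕ) : ℝ) / 2 := by
      have := cA_lt_cB kX
      have := cB_lt kX
      push_cast; linarith
    have h2 := hv 0 (Nat.zero_le _)
    have h3 : aL kX ≤ lamk kX (((kX + 1 : ℕ) : ℝ) + ((0 : ℕ) : ℝ) / 2) := by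
      have h4 := (lamk_strictMonoOn kX).monotoneOn (a := cA kX)
        (b := ((kX + 1 : ℕ) : ℝ) + ((0 : ℕ) : ℝ) / 2)
        ⟨(cA_pos kX).le, h1.trans (by linarith)⟩ ⟨(cA_pos kX).le.trans h1, by linarith⟩ h1
      rw [lamk_of_le le_rfl] at h4
      exact h4
    linarith
  have hmono : ∀ l : ℕ, l + 1 ≤ L → lamk kX (((kX + 1 : ℕ) : ℝ) + (l : ℝ) / 2) ≤
      lamk kX (((kX + 1 : ℕ) : ℝ) + ((l + 1 : ℕ) : ℝ) / 2) := by
    intro l hl
    have h1 := hv l (by omega)
    have h2 := hv (l + 1) hl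
    apply (lamk_strictMonoOn kX).monotoneOn
    · exact ⟨by positivity, by linarith⟩
    · exact ⟨by positivity, by linarith⟩
    · push_cast; linarith
  have hle1 : ∀ l : ℕ, l ≤ L → lamk kX (((kX + 1 : ℕ) : ℝ) + (l : ℝ) / 2) ∈ Icc (0:ℝ) 1 := by
    intro l hl
    have h1 := hv l hl
    exact lamk_mem (by positivity) (by linarith)
  -- induction
  have main : ∀ l : ℕ, l ≤ L → ∃ t ∈ Icc (M : ℝ) (M + 1 + s0),
      π t = j + lamk kX (((kX + 1 : ℕ) : ℝ) + (l : ℝ) / 2) ∧ VV c M M + l * δ1 ≤ VV c M t := by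
    intro l
    induction l with
    | zero =>
      intro hl
      have h2 := (hle1 0 hl).2
      obtain ⟨t, ht, ht2⟩ := intermediate_value_Icc (by linarith : (M:ℝ) ≤ M + 1 + s0)
        (hcontI M le_rfl) ⟨x0, by linarith⟩
      refine ⟨t, ht, ht2, ?_⟩
      have h3 := VV_var c M (t := M) (t' := t) le_rfl ht.1 (by linarith [ht.2])
      have h4 : (0:ℝ) ≤ dist (pt (M:ℝ) (hh c M)) (pt t (hh c t)) := dist_nonneg
      push_cast
      linarith
    | succ l ih =>
      intro hl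
      obtain ⟨t, ht, ht2, ht3⟩ := ih (by omega)
      have h2 := (hle1 (l + 1) hl).2
      have h5 := hmono l hl
      obtain ⟨t', ht', ht'2⟩ := intermediate_value_Icc ht.2 (hcontI t ht.1)
        (show (j : ℝ) + lamk kX (((kX + 1 : ℕ) : ℝ) + ((l + 1 : ℕ) : ℝ) / 2) ∈
          Icc (π t) (π (M + 1 + s0)) from ⟨by rw [ht2]; linarith, by linarith⟩)
      refine ⟨t', ⟨ht.1.trans ht'.1, ht'.2⟩, ht'2, ?_⟩
      have h3 := VV_var c M (t := t) (t' := t') ht.1 ht'.1 (by linarith [ht'.2])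
      have t0 : 0 ≤ t := hM0.trans ht.1
      have t0' : 0 ≤ t' := t0.trans ht'.1
      have hdist : δ1 ≤ dist (TT c t) (TT c t') := by
        by_contra hcon
        push Not at hcon
        have h6 := huc _ (TT_mem_KK hc t) _ (TT_mem_KK hc t') hcon
        rw [hπ t t0, hπ t' t0', ht2, ht'2] at h6
        have h7 := hle1 l (by omega)
        have h8 := hle1 (l + 1) hl
        have j0 : (0:ℝ) ≤ j := Nat.cast_nonneg j
        rw [hE _ (by linarith [h7.1]), hE _ (by linarith [h8.1])] at h6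
        have h9 := mark_dist cX j (kX + 1) l (by have := hv (l + 1) hl; linarith)
        exact absurd h6 (not_lt.2 h9)
      rw [TT_of_nonneg c t0, TT_of_nonneg c t0'] at hdist
      push_cast
      linarith
  obtain ⟨t, ht, ht2, ht3⟩ := main L le_rfl
  -- upper bound
  have hub : VV c M t ≤ VV c M (M + 1 + s0) := by
    have h3 := VV_var c M (t := t) (t' := M + 1 + s0) ht.1 ht.2 (by linarith)
    have : (0:ℝ) ≤ dist (pt t (hh c t)) (pt ((M:ℝ) + 1 + s0) (hh c ((M:ℝ) + 1 + s0))) := dist_nonneg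
    linarith
  rw [VV_second c M s0_0] at hub
  have hlow : VV c M M = 5 * M := by
    have := VV_first c M (s := 0) zero_le_one
    rw [add_zero, xik_zero] at this
    rw [this]; ring
  rw [hlow] at ht3
  have hx : xik (3 * (M + 1) + c) s0 = u := by
    rw [xik_of_le (hK4 _ (by omega)).le, xis0]
  rw [hx, small] at hub
  have hc2 : (c : ℝ) ≤ 2 := by
    have : c ≤ 2 := by omega
    exact_mod_cast this
  have hL2 : (M : ℝ) * M ≤ L := by
    have h1 : M * M ≤ L := by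
      have h2 : M ≤ kX := by omega
      have h3 : M * M ≤ kX * kX := Nat.mul_le_mul h2 h2
      have h4 : (kX + 10) ^ 2 = kX * kX + 20 * kX + 100 := by ring
      rw [hL, large, h4]
      omega
    exact_mod_cast h1
  have hMδ : 50 + 4 * u ≤ M * δ1 := by
    have h1 : (K5 : ℝ) ≤ M := by
      have : K5 ≤ M := by omega
      exact_mod_cast this
    rw [div_le_iff₀ hδ1] at hK5
    have h2 : (K5 : ℝ) * δ1 ≤ M * δ1 := mul_le_mul_of_nonneg_right h1 hδ1.le
    linarith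
  have hM1 : (1:ℝ) ≤ M := by
    have : 1 ≤ M := by omega
    exact_mod_cast this
  push_cast at hub
  have h10 : (M : ℝ) * M * δ1 ≤ L * δ1 := mul_le_mul_of_nonneg_right hL2 hδ1.le
  have h11 : (M : ℝ) * (50 + 4 * u) ≤ M * (M * δ1) := by
    apply mul_le_mul_of_nonneg_left hMδ hM0
  have h12 : 1 * u ≤ M * u := mul_le_mul_of_nonneg_right hM1 hu
  have h13 : (M : ℝ) * M * δ1 = M * (M * δ1) := by ring
  have h14 : (M : ℝ) * (50 + 4 * u) = 50 * M + 4 * (M * u) := by ring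
  linarith

end Pool.Agent.H741.Bing
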