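import Pool.Agent.H741.Bing.Counting

/-!
The continuum `KK` has the fixed-point property.
-/

set_option autoImplicit false

open Set Filter Topology Metric

namespace Pool.Agent.H741.Bing

theorem closedRR (i : ℕ) : IsClosed (RR i ∪ CC (i + 1)) := isClosed_RR_union i

theorem RRCC_sub_MM (i : ℕ) : RR i ∪ CC (i + 1) ⊆ MM :=
  union_subset (RR_subset_MM i) ((CC_subset_RR _).trans (RR_subset_MM _))

theorem fpp_KK {g : Zs → Zs} (hg : ContinuousOn g KK) (hmap : MapsTo g KK KK) :
    ∃ z ∈ KK, g z = z := by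
  by_contra hcon
  push Not at hcon
  have swapAll : MapsTo g MM MM → ∀ i, ∀ z ∈ RR i, g z ∈ RR (i + 1) := fun hm i =>
    swap_of hg hm (fun z hz => hcon z (MM_sub hz)) i
  have hPPK : ∀ t ∈ Ici (-7 : ℝ), PP t ∈ KK := fun t ht => PS_sub ⟨t, ht, rfl⟩
  have hcontP : ContinuousOn (fun t => g (PP t)) (Ici (-7)) :=
    hg.comp continuous_PP.continuousOn hPPK
  have hcontT : ∀ {c : ℕ}, (c = 1 ∨ c = 2) → ContinuousOn (fun t => g (TT c t)) univ :=
    fun hc => hg.comp (continuous_TT hc).continuousOn (fun t _ => TT_mem_KK hc t)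
  have evPP : ∀ᶠ t in atTop, PP t ∈ KK := by
    filter_upwards [eventually_ge_atTop (-7 : ℝ)] with t ht using hPPK t ht
  -- treatment of images in `RR i`
  have caseRR : ∀ (i : ℕ) (E : ℝ → Zs), (∀ q ∈ MM, MapClusterPt q atTop E) →
      (∀ᶠ t in atTop, E t ∈ KK ∧ g (E t) ∈ RR i) → False := by
    intro i E hcl hE
    have h1 : ∀ z ∈ MM, g z ∈ RR i ∪ CC (i + 1) := by
      intro z hz
      apply mem_of_cluster hg (MM_sub hz) (hcl z hz) (closedRR i)
      filter_upwards [hE] with t ht using ⟨ht.1, Or.inl ht.2⟩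
    exact not_maps hg (swapAll (fun z hz => RRCC_sub_MM i (h1 z hz))) i h1
  -- treatment of images of `PP` in `TS c`
  have caseTS : ∀ c, (c = 1 ∨ c = 2) → (∀ t ∈ Ici (-7 : ℝ), g (PP t) ∈ TS c) → False := by
    intro c hc hall
    have hq : pt (-1) (lo c) ∈ JJ c := ⟨lo c, le_rfl, by linarith, rfl⟩
    have hgq : g (pt (-1) (lo c)) ∈ TS c := by
      obtain ⟨t, ht, e⟩ := JJ_sub_PS hq
      rw [← e]; exact hall t ht
    obtain ⟨U, hU, hTU⟩ := TS_open hc
    have hex : ∃ t, g (TT c t) ∈ TS c := by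
      by_contra hno
      push Not at hno
      have : g (pt (-1) (lo c)) ∈ Uᶜ := by
        apply mem_of_cluster hg (JJ_sub hq) (cluster_TT_atBot hc hq) hU.isClosed_compl
        apply Eventually.of_forall
        intro t
        refine ⟨TT_mem_KK hc t, fun h => hno t ?_⟩
        rw [hTU]; exact ⟨hmap (TT_mem_KK hc t), h⟩
      exact this (hTU ▸ hgq : g (pt (-1) (lo c)) ∈ KK ∩ U).2
    obtain ⟨t1, ht1⟩ := hex
    have hallT : ∀ t, g (TT c t) ∈ TS c := by
      intro t
      rcases le_total t1 t with h | h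
      · exact inv_TS hc (fun t => g (TT c t)) t1 t h ((hcontT hc).mono (subset_univ _))
          (fun s _ => hmap (TT_mem_KK hc s)) ht1
      · exact (inv_TS hc).rev (γ := fun t => g (TT c t)) h ((hcontT hc).mono (subset_univ _))
          (fun s _ => hmap (TT_mem_KK hc s)) ht1
    have hch : ∀ t, ∃ u, TT c u = g (TT c t) := fun t => by
      obtain ⟨u, _, e⟩ := hallT t; exact ⟨u, e⟩
    choose π hπ using hch
    have hπc : ContinuousOn π univ :=
      lift_continuousOn isClosed_univ (continuous_TT hc).continuousOn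
        (fun t _ t' _ h => (TT_inj hc hc h).2)
        (isCompact_MM.isClosed.union (isCompact_JJ c).isClosed)
        (fun t _ h => h.elim (TT_not_mem_MM hc t) (TT_not_mem_JJ hc t)) (tends_TT hc)
        (hcontT hc) (fun t _ => ⟨trivial, hπ t⟩)
    have hne : ∀ t ∈ (univ : Set ℝ), π t ≠ t := by
      intro t _ h
      apply hcon (TT c t) (TT_mem_KK hc t)
      rw [← hπ t, h]
    have hex2 : ∃ t0, t0 < π t0 := by
      by_contra hno
      push Not at hno
      have hbot : Tendsto π atBot atBot := tendsto_atBot_mono hno tendsto_id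
      have := transfer hg (JJ_sub hq) (cluster_TT_atBot hc hq)
        (Eventually.of_forall (fun t => ⟨TT_mem_KK hc t, (hπ t).symm⟩)) hbot
      have h2 := atBot_TT_mem hc this
      obtain ⟨u, _, e⟩ := hgq
      rw [← e] at h2
      exact TT_not_mem_JJ hc u h2
    obtain ⟨t0, ht0⟩ := hex2
    have hlt := lt_of_no_fix isPreconnected_univ hπc hne (mem_univ t0) ht0
    have htop : Tendsto π atTop atTop := tendsto_of_lt (a := 0) (fun t _ => hlt t trivial)
    have hMM : MapsTo g MM MM := by
      intro q hq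
      apply (tendsTop_TT c).mem isCompact_MM.isClosed
      exact transfer hg (MM_sub hq) (cluster_TT c hq)
        (Eventually.of_forall (fun t => ⟨TT_mem_KK hc t, (hπ t).symm⟩)) htop
    exact counting hg (swapAll hMM) hc (Or.inr rfl) (fun t ht => TT_of_nonneg c ht)
      (hπc.mono (subset_univ _)) (fun t _ => (hπ t).symm) htop
  rcases comp_cases ordConnected_Ici ⟨-7, by simp⟩ hcontP (fun t ht => hmap (hPPK t ht)) with
    h | h | h | h | h
  · -- image in `PS`
    have hch : ∀ t ∈ Ici (-7 : ℝ), ∃ u ∈ Ici (-7 : ℝ), PP u = g (PP t) := fun t ht => h t ht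
    choose! π hπ1 hπ2 using hch
    have hπc : ContinuousOn π (Ici (-7)) :=
      lift_continuousOn isClosed_Ici continuous_PP.continuousOn injOn_PP
        isCompact_MM.isClosed (fun t ht => PP_not_mem_MM ht) tends_PP hcontP
        (fun t ht => ⟨hπ1 t ht, hπ2 t ht⟩)
    have hne : ∀ t ∈ Ici (-7 : ℝ), π t ≠ t := by
      intro t ht h
      apply hcon (PP t) (hPPK t ht)
      rw [← hπ2 t ht, h]
    have hm7 : (-7:ℝ) ∈ Ici (-7 : ℝ) := by simp
    have hlt := lt_of_no_fix (convex_Ici (-7 : ℝ)).isPreconnected hπc hne hm7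
      (lt_of_le_of_ne (hπ1 _ hm7) (hne _ hm7).symm)
    have htop : Tendsto π atTop atTop := tendsto_of_lt (a := -7) hlt
    have hMM : MapsTo g MM MM := by
      intro q hq
      apply tendsTop_PP.mem isCompact_MM.isClosed
      apply transfer hg (MM_sub hq) (cluster_PP hq) _ htop
      filter_upwards [eventually_ge_atTop (-7 : ℝ)] with t ht
      exact ⟨hPPK t ht, (hπ2 t ht).symm⟩
    have hsw := swapAll hMM
    have caseT : ∀ c', (c' = 1 ∨ c' = 2) → (∀ t ∈ (univ : Set ℝ), g (TT 1 t) ∈ TS c') → False := by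
      intro c' hc' hall
      have hq0 : PP (-3) ∈ JJ 1 := by
        rw [PP_c1 le_rfl]
        exact ⟨-3 + 9, by norm_num [lo], by norm_num [lo], rfl⟩
      have h3 : (-3:ℝ) ∈ Ici (-7 : ℝ) := by simp only [mem_Ici]; norm_num
      have h1 : g (PP (-3)) ∈ TS c' ∪ (MM ∪ JJ c') := by
        apply mem_of_cluster hg (JJ_sub hq0) (cluster_TT_atBot (Or.inl rfl) hq0)
          (isClosed_TS_union hc')
        exact Eventually.of_forall (fun t => ⟨TT_mem_KK (Or.inl rfl) t, Or.inl (hall t trivial)⟩)
      have h2 : g (PP (-3)) ∈ PS := h _ h3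
      rcases h1 with h1 | h1 | h1
      · exact TS_disj hc' _ h1 (Or.inl h2)
      · exact PS_disj_MM _ h2 h1
      · obtain ⟨t', ht', e⟩ := JJ_subset h1
        rw [← hπ2 _ h3] at e
        have := injOn_PP (show t' ∈ Ici (-7:ℝ) from ht'.1) (hπ1 _ h3) e
        have h4 := hlt _ h3
        linarith [ht'.2]
    rcases comp_cases ordConnected_univ ⟨0, trivial⟩ (hcontT (c := 1) (Or.inl rfl))
      (fun t _ => hmap (TT_mem_KK (Or.inl rfl) t)) with h' | h' | h' | h' | h'
    · have hch : ∀ t, ∃ u ∈ Ici (-7 : ℝ), PP u = g (TT 1 t) := fun t => h' t trivial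
      choose π' hπ1' hπ2' using hch
      have hπc' : ContinuousOn π' univ :=
        lift_continuousOn isClosed_Ici continuous_PP.continuousOn injOn_PP
          isCompact_MM.isClosed (fun t ht => PP_not_mem_MM ht) tends_PP (hcontT (Or.inl rfl))
          (fun t _ => ⟨hπ1' t, hπ2' t⟩)
      have htop' : Tendsto π' atTop atTop := by
        rw [Filter.tendsto_atTop]
        intro N
        have hcl : IsClosed (PP '' Icc (-7) N) := (isCompact_Icc.image continuous_PP).isClosed
        have hev : ∀ᶠ t in atTop, TT 1 t ∈ {z | g z ∉ PP '' Icc (-7) N} := by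
          apply ev_near (tendsTop_TT 1) (Eventually.of_forall (fun t => TT_mem_KK (Or.inl rfl) t))
          intro q hq
          have hnot : g q ∈ (PP '' Icc (-7) N)ᶜ := by
            rintro ⟨t, ht, e⟩
            apply PP_not_mem_MM ht.1
            rw [e]; exact hMM hq
          exact (hg q (MM_sub hq)).preimage_mem_nhdsWithin (hcl.isOpen_compl.mem_nhds hnot)
        filter_upwards [hev] with t ht
        by_contra hlt'
        push Not at hlt'
        exact ht ⟨π' t, ⟨hπ1' t, hlt'.le⟩, hπ2' t⟩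
      exact counting hg hsw (c := 1) (cX := 0) (Or.inl rfl) (Or.inl rfl)
        (fun t ht => PP_of_nonneg ht) (hπc'.mono (subset_univ _)) (fun t _ => (hπ2' t).symm) htop'
    · exact caseT 1 (Or.inl rfl) h'
    · exact caseT 2 (Or.inr rfl) h'
    · exact caseRR 0 (TT 1) (fun q hq => cluster_TT 1 hq)
        (Eventually.of_forall (fun t => ⟨TT_mem_KK (Or.inl rfl) t, h' t trivial⟩))
    · exact caseRR 1 (TT 1) (fun q hq => cluster_TT 1 hq)
        (Eventually.of_forall (fun t => ⟨TT_mem_KK (Or.inl rfl) t, h' t trivial⟩))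
  · exact caseTS 1 (Or.inl rfl) h
  · exact caseTS 2 (Or.inr rfl) h
  · apply caseRR 0 PP (fun q hq => cluster_PP hq)
    filter_upwards [eventually_ge_atTop (-7 : ℝ)] with t ht using ⟨hPPK t ht, h t ht⟩
  · apply caseRR 1 PP (fun q hq => cluster_PP hq)
    filter_upwards [eventually_ge_atTop (-7 : ℝ)] with t ht using ⟨hPPK t ht, h t ht⟩

end Pool.Agent.H741.Bing
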