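import Pool.Agent.H741.Bing.Basic

/-!
Concatenation of functions over lanes; the spirals and the map on them.
-/

set_option autoImplicit false

open Set Filter Topology

namespace Pool.Agent.H741.Bing

/-! ### Concatenation -/

noncomputable def lane {Y : Type*} (F : ℕ → ℝ → Y) (t : ℝ) : Y := F ⌊t⌋₊ (t - ⌊t⌋₊)

theorem lane_eq {Y : Type*} {F : ℕ → ℝ → Y} (hF : ∀ m, F m 1 = F (m + 1) 0) {m : ℕ} {t : ℝ}
    (h : (m : ℝ) ≤ t) (h' : t ≤ m + 1) : lane F t = F m (t - m) := by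
  rcases h'.lt_or_eq with h' | h'
  · have : ⌊t⌋₊ = m := by
      rw [Nat.floor_eq_iff ((Nat.cast_nonneg m).trans h)]
      exact ⟨h, h'⟩
    unfold lane
    rw [this]
  · subst h'
    have : ⌊(m : ℝ) + 1⌋₊ = m + 1 := by
      have := Nat.floor_natCast (R := ℝ) (m + 1)
      push_cast at this
      exact this
    unfold lane
    rw [this]
    push_cast
    rw [sub_self, add_sub_cancel_left, hF m]

theorem lane_nat_add {Y : Type*} {F : ℕ → ℝ → Y} (hF : ∀ m, F m 1 = F (m + 1) 0) {m : ℕ} {s : ℝ}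
    (h : 0 ≤ s) (h' : s ≤ 1) : lane F (m + s) = F m s := by
  rw [lane_eq hF (m := m) (by linarith) (by linarith)]
  congr 1; ring

theorem continuousOn_lane {Y : Type*} [TopologicalSpace Y] {F : ℕ → ℝ → Y}
    (hF : ∀ m, F m 1 = F (m + 1) 0) (hc : ∀ m, ContinuousOn (F m) (Icc 0 1)) :
    ContinuousOn (lane F) (Ici 0) := by
  have h1 : ∀ m : ℕ, ContinuousOn (lane F) (Icc (m : ℝ) (m + 1)) := by
    intro m
    have : ContinuousOn (fun t : ℝ => F m (t - m)) (Icc (m : ℝ) (m + 1)) := by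
      apply (hc m).comp (by fun_prop)
      intro t ht
      exact ⟨by linarith [ht.1], by linarith [ht.2]⟩
    exact this.congr (fun t ht => lane_eq hF ht.1 ht.2)
  have h2 : ∀ n : ℕ, ContinuousOn (lane F) (Icc (0 : ℝ) n) := by
    intro n
    induction n with
    | zero => simp [continuousOn_singleton]
    | succ n ih =>
      have := ih.union_of_isClosed (h1 n) isClosed_Icc isClosed_Icc
      rw [Icc_union_Icc_eq_Icc (Nat.cast_nonneg n) (by linarith)] at this
      push_cast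
      exact this
  intro t ht
  have ht0 : (0:ℝ) ≤ t := ht
  have h3 := h2 (⌊t⌋₊ + 1) t ⟨ht0, by push_cast; exact (Nat.lt_floor_add_one t).le⟩
  apply h3.mono_of_mem_nhdsWithin
  rw [mem_nhdsWithin]
  refine ⟨Iio ((⌊t⌋₊ + 1 : ℕ) : ℝ), isOpen_Iio, by push_cast; exact Nat.lt_floor_add_one t, ?_⟩
  rintro x ⟨hx1, hx2⟩
  exact ⟨hx2, le_of_lt hx1⟩

theorem exists_lane {t : ℝ} (ht : 0 ≤ t) : ∃ (m : ℕ) (s : ℝ), 0 ≤ s ∧ s < 1 ∧ t = m + s :=
  ⟨⌊t⌋₊, t - ⌊t⌋₊, by linarith [Nat.floor_le ht], by linarith [Nat.lt_floor_add_one t], by ring⟩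

/-! ### Spiral heights -/

noncomputable def hh (c : ℕ) : ℝ → ℝ := lane (fun m s => HH (3 * m + c) s)

theorem hh_match (c : ℕ) : ∀ m, (fun (m : ℕ) s => HH (3 * m + c) s) m 1
    = (fun (m : ℕ) s => HH (3 * m + c) s) (m + 1) 0 := by
  intro m
  show HH (3 * m + c) 1 = HH (3 * (m + 1) + c) 0
  rw [HH_one, HH_zero, show 3 * (m + 1) + c = 3 * m + c + 3 by ring]

theorem hh_eq (c m : ℕ) {s : ℝ} (h : 0 ≤ s) (h' : s ≤ 1) : hh c (m + s) = HH (3 * m + c) s :=
  lane_nat_add (hh_match c) h h'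

theorem continuousOn_hh (c : ℕ) : ContinuousOn (hh c) (Ici 0) :=
  continuousOn_lane (hh_match c) (fun _ => continuousOn_HH _)

theorem hh_zero (c : ℕ) : hh c 0 = 1 + ee c := by
  have := hh_eq c 0 (le_refl 0) zero_le_one
  simp only [Nat.cast_zero, add_zero, mul_zero, zero_add] at this
  rw [this, HH_zero]

theorem hh_pos (c : ℕ) {t : ℝ} (ht : 0 ≤ t) : 0 < hh c t := by
  obtain ⟨m, s, h0, h1, rfl⟩ := exists_lane ht
  rw [hh_eq c m h0 h1.le]
  exact HH_pos _ h0 h1.le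

theorem hh_le (c m : ℕ) {t : ℝ} (ht : (m : ℝ) ≤ t) : hh c t ≤ 1 + ee (3 * m + c) := by
  obtain ⟨m', s, h0, h1, rfl⟩ := exists_lane ((Nat.cast_nonneg m).trans ht)
  rw [hh_eq c m' h0 h1.le]
  refine (HH_le _ h0 h1.le).trans ?_
  have : m ≤ m' := by
    have : (m : ℝ) < m' + 1 := by linarith
    exact_mod_cast Nat.lt_succ_iff.1 (by exact_mod_cast this)
  have := ee_anti (show 3 * m + c ≤ 3 * m' + c by omega)
  linarith

/-! ### Fold -/

noncomputable def rr (x : ℝ) : ℝ := Real.arccos |Real.cos (Real.pi * x)| / Real.pi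

theorem continuous_rr : Continuous rr := by
  unfold rr
  apply Continuous.div_const
  exact Real.continuous_arccos.comp (by fun_prop)

theorem W_rr (x : ℝ) : W (rr x) = W x := by
  unfold W rr
  rw [mul_div_cancel₀ _ Real.pi_ne_zero, Real.cos_arccos (by linarith [abs_nonneg (Real.cos (Real.pi * x))])
    (Real.abs_cos_le_one _), sq_abs]

theorem rr_nonneg (x : ℝ) : 0 ≤ rr x := div_nonneg (Real.arccos_nonneg _) Real.pi_pos.le

theorem rr_le (x : ℝ) : rr x ≤ 1 / 2 := by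
  unfold rr
  rw [div_le_iff₀ Real.pi_pos]
  have : Real.arccos |Real.cos (Real.pi * x)| ≤ Real.pi / 2 :=
    Real.arccos_le_pi_div_two.2 (abs_nonneg _)
  linarith

theorem rr_nat (n : ℕ) : rr n = 0 := by
  unfold rr
  have h : |Real.cos (Real.pi * n)| = 1 := by
    have h1 : W n = 1 := W_nat n
    unfold W at h1
    rw [← sq_abs] at h1
    nlinarith [abs_nonneg (Real.cos (Real.pi * n))]
  rw [h]; simp

noncomputable def fold (n : ℕ) (v : ℝ) : ℝ := if 2 * v ≤ n then 2 * v else n - rr (2 * v)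

theorem continuous_fold (n : ℕ) : Continuous (fold n) := by
  unfold fold
  apply Continuous.if_le
  · fun_prop
  · have := continuous_rr
    fun_prop
  · fun_prop
  · fun_prop
  · intro x hx
    rw [hx, rr_nat]; ring

theorem W_fold (n : ℕ) (v : ℝ) : W (fold n v) = W (2 * v) := by
  unfold fold
  split_ifs
  · rfl
  · rw [W_nat_sub, W_rr]

theorem fold_mem {n : ℕ} (hn : 1 ≤ n) {v : ℝ} (hv : 0 ≤ v) : fold n v ∈ Icc (0:ℝ) n := by
  unfold fold
  have h1 : (1:ℝ) ≤ n := by exact_mod_cast hn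
  split_ifs with h
  · exact ⟨by linarith, h⟩
  · have := rr_nonneg (2 * v)
    have := rr_le (2 * v)
    exact ⟨by linarith, by linarith⟩

theorem fold_ge {n : ℕ} {v a : ℝ} (ha : a ≤ 2 * v) (ha' : a ≤ n - 1 / 2) : a ≤ fold n v := by
  unfold fold
  split_ifs with h
  · exact ha
  · have := rr_le (2 * v)
    linarith

/-- the map between strands -/
noncomputable def ph (k k' : ℕ) (s : ℝ) : ℝ := lamk k' (fold (nn k') (xik k s))

theorem nn_pos (k : ℕ) : 1 ≤ nn k := by have := nn_ge k; omega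

theorem fold_xik_mem (k k' : ℕ) {s : ℝ} (h0 : 0 ≤ s) (h1 : s ≤ 1) :
    fold (nn k') (xik k s) ∈ Icc (0:ℝ) (nn k') := fold_mem (nn_pos k') (xik_mem h0 h1).1

theorem ph_mem (k k' : ℕ) {s : ℝ} (h0 : 0 ≤ s) (h1 : s ≤ 1) : ph k k' s ∈ Icc (0:ℝ) 1 := by
  have := fold_xik_mem k k' h0 h1
  exact lamk_mem this.1 this.2

theorem ph_zero (k k' : ℕ) : ph k k' 0 = 0 := by
  unfold ph fold
  rw [xik_zero, mul_zero, if_pos (Nat.cast_nonneg _), lamk_zero]

theorem ph_one {k k' : ℕ} (h : nn k' ≤ 2 * nn k) : ph k k' 1 = 1 := by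
  unfold ph
  have : fold (nn k') (nn k) = nn k' := by
    unfold fold
    have h' : (nn k' : ℝ) ≤ 2 * nn k := by exact_mod_cast h
    split_ifs with h2
    · linarith
    · have : rr (2 * (nn k : ℝ)) = 0 := by
        have := rr_nat (2 * nn k)
        push_cast at this
        exact this
      rw [this]; ring
  rw [xik_one, this, lamk_nn]

theorem continuousOn_ph (k k' : ℕ) : ContinuousOn (ph k k') (Icc 0 1) := by
  unfold ph
  apply (continuousOn_lamk k').comp ((continuous_fold _).comp_continuousOn (continuousOn_xik k))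
  intro s hs
  exact fold_xik_mem k k' hs.1 hs.2

theorem xik_ph (k k' : ℕ) {s : ℝ} (h0 : 0 ≤ s) (h1 : s ≤ 1) :
    xik k' (ph k k' s) = fold (nn k') (xik k s) := by
  have := fold_xik_mem k k' h0 h1
  exact xik_lamk this.1 this.2

theorem W_xik_ph (k k' : ℕ) {s : ℝ} (h0 : 0 ≤ s) (h1 : s ≤ 1) :
    W (xik k' (ph k k' s)) = (2 * W (xik k s) - 1) ^ 2 := by
  rw [xik_ph k k' h0 h1, W_fold, W_two_mul]

theorem HH_ph (k k' : ℕ) {s : ℝ} (h0 : 0 ≤ s) (h1 : s ≤ 1) :
    HH k' (ph k k' s) = (2 * W (xik k s) - 1) ^ 2 + oo k' (ph k k' s) := by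
  unfold HH
  rw [W_xik_ph k k' h0 h1]

/-- the limit map -/
noncomputable def gg (s : ℝ) : ℝ := 2 * s / (1 + s)

theorem gg_zero : gg 0 = 0 := by simp [gg]
theorem gg_one : gg 1 = 1 := by norm_num [gg]

theorem gg_eq {s : ℝ} (h0 : 0 ≤ s) (h1 : s < 1) : gg s = Lam (2 * xi s) := by
  unfold gg Lam xi
  have a1 : 1 - s ≠ 0 := by linarith
  have a2 : 1 + s ≠ 0 := by linarith
  have a3 : 1 + 2 * (s / (1 - s)) ≠ 0 := by
    have : 0 ≤ s / (1 - s) := div_nonneg h0 (by linarith)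
    linarith
  rw [div_eq_div_iff a2 a3]
  field_simp
  ring

theorem le_gg {s : ℝ} (h0 : 0 ≤ s) (h1 : s ≤ 1) : s ≤ gg s := by
  unfold gg
  rw [le_div_iff₀ (by linarith)]
  nlinarith

theorem gg_le_one {s : ℝ} (h0 : 0 ≤ s) (h1 : s ≤ 1) : gg s ≤ 1 := by
  unfold gg
  rw [div_le_one (by linarith)]
  linarith

theorem gg_nonneg {s : ℝ} (h0 : 0 ≤ s) : 0 ≤ gg s := by unfold gg; positivity

theorem cA_le_two {k k' : ℕ} (hk : 4 ≤ k) (hkk : k' ≤ k + 4) : cA k' ≤ 2 * cA k := by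
  unfold cA
  have h1 : (4:ℝ) ≤ k := by exact_mod_cast hk
  have h2 : (k':ℝ) ≤ k + 4 := by exact_mod_cast hkk
  have := rho_le k
  have := rho_pos k'
  linarith

theorem cA_le_nn (k : ℕ) : cA k ≤ nn k - 1 / 2 := by
  have := nn_ge' k
  have := rho_pos k
  unfold cA
  linarith

/-- far part of a strand is mapped to the far part -/
theorem ph_ge {k k' : ℕ} (hk : 4 ≤ k) (hkk : k' ≤ k + 4) {s : ℝ} (h : aL k ≤ s) (h1 : s ≤ 1) :
    aL k' ≤ ph k k' s := by
  have h0 : 0 ≤ s := (aL_pos k).le.trans h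
  have hv : cA k ≤ xik k s := by
    rcases le_total s (aR k) with h' | h'
    · exact (xik_mid_mem h h').1
    · exact (cA_lt_cN k).le.trans (xik_ge_mem h' h1).1
  have hf : cA k' ≤ fold (nn k') (xik k s) :=
    fold_ge ((cA_le_two hk hkk).trans (by linarith)) (cA_le_nn k')
  have hm := fold_xik_mem k k' h0 h1
  unfold ph
  rcases le_total (fold (nn k') (xik k s)) (cN k') with h2 | h2
  · exact (lamk_mid_mem hf h2).1
  · exact (aL_lt_aR k').le.trans (lamk_ge_mem h2 hm.2).1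

theorem ph_near {k k' : ℕ} (hk : 4 ≤ k) (hkk : k' ≤ k + 4) (hkk' : k ≤ k') {s : ℝ} (h0 : 0 ≤ s)
    (h1 : s ≤ 1) : |ph k k' s - gg s| ≤ 1 / (k + 1) := by
  have e1 := one_sub_aL k
  have e2 := one_sub_aL k'
  have e3 : 1 / ((k':ℝ) + 1) ≤ 1 / (k + 1) := by
    apply one_div_le_one_div_of_le (by positivity)
    have : (k:ℝ) ≤ k' := by exact_mod_cast hkk'
    linarith
  have hm := ph_mem k k' h0 h1
  have hg1 := gg_le_one h0 h1
  rcases le_total s (aL k) with h | h
  · have hs1 : s < 1 := h.trans_lt (aL_lt_one k)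
    have hx0 := xi_nonneg h0 hs1
    rcases le_total (2 * xi s) (cA k') with h' | h'
    · have : ph k k' s = gg s := by
        unfold ph fold
        rw [xik_of_le h, if_pos (h'.trans ((cA_le_nn k').trans (by linarith))), lamk_of_le h',
          gg_eq h0 hs1]
      rw [this, sub_self, abs_zero]; positivity
    · have hf : cA k' ≤ fold (nn k') (xik k s) := by
        rw [xik_of_le h]
        exact fold_ge h' (cA_le_nn k')
      have hm' := fold_xik_mem k k' h0 h1
      have hp : aL k' ≤ ph k k' s := by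
        unfold ph
        rcases le_total (fold (nn k') (xik k s)) (cN k') with h2 | h2
        · exact (lamk_mid_mem hf h2).1
        · exact (aL_lt_aR k').le.trans (lamk_ge_mem h2 hm'.2).1
      have hg : aL k' ≤ gg s := by
        rw [gg_eq h0 hs1]
        exact Lam_mono (cA_pos k').le h'
      rw [abs_le]
      constructor <;> linarith [hm.2]
  · have hp := ph_ge hk hkk h h1
    have hg := h.trans (le_gg h0 h1)
    rw [abs_le]
    constructor
    · linarith
    · linarith [hm.2]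

/-! ### Map on spirals -/

def sig (c : ℕ) : ℕ := if c = 1 then 2 else if c = 2 then 1 else 0

theorem nn_step (c m : ℕ) (hc : c < 3) : nn (3 * (m + 1) + sig c) ≤ 2 * nn (3 * m + c) := by
  have h6 : ∀ k, nn k = if k % 6 = 2 ∨ k % 6 = 4 then k + 5 else (k + 10) ^ 2 := fun k => rfl
  interval_cases c
  · rw [h6, h6]
    simp only [sig]
    norm_num
    rw [if_neg (by omega), if_neg (by omega)]
    nlinarith [Nat.zero_le (m * m), Nat.zero_le m]
  · rw [h6, h6]
    simp only [sig]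
    norm_num
    by_cases hm : m % 2 = 1
    · rw [if_pos (by omega), if_pos (by omega)]
      omega
    · rw [if_neg (by omega), if_neg (by omega)]
      nlinarith [Nat.zero_le (m * m), Nat.zero_le m]
  · rw [h6, h6]
    simp only [sig]
    norm_num
    by_cases hm : m % 2 = 0
    · rw [if_pos (by omega), if_pos (by omega)]
      omega
    · rw [if_neg (by omega), if_neg (by omega)]
      nlinarith [Nat.zero_le (m * m), Nat.zero_le m]

noncomputable def phi (c : ℕ) : ℝ → ℝ :=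
  lane (fun m s => (m : ℝ) + 1 + ph (3 * m + c) (3 * (m + 1) + sig c) s)

theorem phi_match {c : ℕ} (hc : c < 3) :
    ∀ m, (fun (m : ℕ) s => (m : ℝ) + 1 + ph (3 * m + c) (3 * (m + 1) + sig c) s) m 1
    = (fun (m : ℕ) s => (m : ℝ) + 1 + ph (3 * m + c) (3 * (m + 1) + sig c) s) (m + 1) 0 := by
  intro m
  show (m : ℝ) + 1 + ph (3 * m + c) (3 * (m + 1) + sig c) 1 =
    ((m + 1 : ℕ) : ℝ) + 1 + ph (3 * (m + 1) + c) (3 * (m + 1 + 1) + sig c) 0
  rw [ph_one (nn_step c m hc), ph_zero]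
  push_cast; ring

theorem phi_eq {c : ℕ} (hc : c < 3) (m : ℕ) {s : ℝ} (h : 0 ≤ s) (h' : s ≤ 1) :
    phi c (m + s) = m + 1 + ph (3 * m + c) (3 * (m + 1) + sig c) s :=
  lane_nat_add (phi_match hc) h h'

theorem continuousOn_phi {c : ℕ} (hc : c < 3) : ContinuousOn (phi c) (Ici 0) :=
  continuousOn_lane (phi_match hc) (fun _ => by
    have := continuousOn_ph
    fun_prop)

theorem phi_zero {c : ℕ} (hc : c < 3) : phi c 0 = 1 := by
  have := phi_eq hc 0 (le_refl 0) zero_le_one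
  simp only [Nat.cast_zero, add_zero, ph_zero] at this
  rw [this]; norm_num

theorem lt_phi {c : ℕ} (hc : c < 3) {t : ℝ} (ht : 0 ≤ t) : t < phi c t := by
  obtain ⟨m, s, h0, h1, rfl⟩ := exists_lane ht
  rw [phi_eq hc m h0 h1.le]
  have := (ph_mem (3 * m + c) (3 * (m + 1) + sig c) h0 h1.le).1
  linarith

theorem hh_phi {c : ℕ} (hc : c < 3) (m : ℕ) {s : ℝ} (h : 0 ≤ s) (h' : s ≤ 1) :
    hh (sig c) (phi c (m + s)) =
      HH (3 * (m + 1) + sig c) (ph (3 * m + c) (3 * (m + 1) + sig c) s) := by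
  rw [phi_eq hc m h h']
  have hm := ph_mem (3 * m + c) (3 * (m + 1) + sig c) h h'
  have := hh_eq (sig c) (m + 1) hm.1 hm.2
  rw [← this]
  push_cast
  ring_nf

end Pool.Agent.H741.Bing
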