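import Pool.Agent.H741.Bing.Spirals

/-!
The continuum `KK`: compactness, limit sets, path components.
-/

set_option autoImplicit false

open Set Filter Topology Metric

namespace Pool.Agent.H741.Bing

def PS : Set Zs := PP '' Ici (-7)

def TS (c : ℕ) : Set Zs := TT c '' univ

def KK : Set Zs := PS ∪ (TS 1 ∪ TS 2) ∪ MM

theorem PS_sub : PS ⊆ KK := fun _ h => Or.inl (Or.inl h)
theorem MM_sub : MM ⊆ KK := fun _ h => Or.inr h
theorem TS_sub {c : ℕ} (hc : c = 1 ∨ c = 2) : TS c ⊆ KK := by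
  intro z hz
  rcases hc with rfl | rfl
  · exact Or.inl (Or.inr (Or.inl hz))
  · exact Or.inl (Or.inr (Or.inr hz))
theorem RR_sub (i : ℕ) : RR i ⊆ KK := (RR_subset_MM i).trans MM_sub
theorem CC_sub (i : ℕ) : CC i ⊆ KK := (CC_subset_RR i).trans (RR_sub i)
theorem JJ_sub_PS {c : ℕ} : JJ c ⊆ PS := JJ_subset.trans (image_mono (fun _ h => h.1))
theorem JJ_sub {c : ℕ} : JJ c ⊆ KK := JJ_sub_PS.trans PS_sub

theorem KK_cases {z : Zs} (hz : z ∈ KK) : z ∈ PS ∨ z ∈ TS 1 ∨ z ∈ TS 2 ∨ z ∈ RR 0 ∨ z ∈ RR 1 := by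
  rcases hz with (hz | hz | hz) | hz
  · exact Or.inl hz
  · exact Or.inr (Or.inl hz)
  · exact Or.inr (Or.inr (Or.inl hz))
  · exact Or.inr (Or.inr (Or.inr (MM_subset z hz)))

theorem isClosed_PS_union : IsClosed (PS ∪ MM) :=
  isClosed_image_union isClosed_Ici continuous_PP.continuousOn isCompact_MM.isClosed tends_PP

theorem isClosed_TS_union {c : ℕ} (hc : c = 1 ∨ c = 2) : IsClosed (TS c ∪ (MM ∪ JJ c)) :=
  isClosed_image_union isClosed_univ (continuous_TT hc).continuousOn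
    (isCompact_MM.isClosed.union (isCompact_JJ c).isClosed) (tends_TT hc)

theorem isClosed_KK : IsClosed KK := by
  have h1 := isClosed_PS_union
  have h2 := isClosed_TS_union (c := 1) (Or.inl rfl)
  have h3 := isClosed_TS_union (c := 2) (Or.inr rfl)
  have e : KK = (PS ∪ MM) ∪ ((TS 1 ∪ (MM ∪ JJ 1)) ∪ (TS 2 ∪ (MM ∪ JJ 2))) := by
    apply Subset.antisymm
    · rintro z ((hz | hz | hz) | hz)
      · exact Or.inl (Or.inl hz)
      · exact Or.inr (Or.inl (Or.inl hz))
      · exact Or.inr (Or.inr (Or.inl hz))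
      · exact Or.inl (Or.inr hz)
    · rintro z ((hz | hz) | ((hz | hz | hz) | (hz | hz | hz)))
      · exact PS_sub hz
      · exact MM_sub hz
      · exact TS_sub (Or.inl rfl) hz
      · exact MM_sub hz
      · exact JJ_sub hz
      · exact TS_sub (Or.inr rfl) hz
      · exact MM_sub hz
      · exact JJ_sub hz
  rw [e]
  exact h1.union (h2.union h3)

/-! ### Bounds -/

theorem yP_bound {t : ℝ} (ht : -7 ≤ t) : |yP t| ≤ 8 := by
  unfold yP
  split_ifs with h
  · rw [abs_le]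
    constructor
    · rw [le_min_iff, le_min_iff]
      refine ⟨⟨by linarith, ?_⟩, by linarith⟩
      exact le_max_of_le_left (by norm_num)
    · refine (min_le_left _ _).trans ((min_le_right _ _).trans ?_)
      rw [max_le_iff]; constructor <;> linarith
  · push Not at h
    rw [hm_of_nonneg h.le, abs_of_pos (hh_pos 0 h.le)]
    have h1 := hh_le 0 0 (by simpa using h.le)
    have := ee_le (3 * 0 + 0)
    linarith

theorem yT_bound {c : ℕ} (hc : c = 1 ∨ c = 2) (t : ℝ) : |yT c t| ≤ 8 := by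
  unfold yT
  split_ifs with h h'
  · have h1 := jj_mem hc t
    have h2 := lo_ge c
    have h3 := lo_le c
    rw [abs_le]; constructor <;> linarith
  · push Not at h
    have h2 : -1 / 2 < aT t := by rw [← aT_m1]; exact aT_strictMono h
    have h3 : aT t ≤ 0 := by
      have := aT_strictMono.monotone h'
      rwa [aT_of_nonneg le_rfl] at this
    rw [abs_le]
    rcases hc with rfl | rfl <;> norm_num [ee, kk] <;> constructor <;> linarith
  · push Not at h'
    rw [hm_of_nonneg h'.le, abs_of_pos (hh_pos c h'.le)]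
    have h1 := hh_le c 0 (by simpa using h'.le)
    have := ee_le (3 * 0 + c)
    linarith

theorem KK_bounded : KK ⊆ closedBall (0 : ℂ) 1 ×ˢ Icc (-8 : ℝ) 8 := by
  have key : ∀ x y : ℝ, |y| ≤ 8 → pt x y ∈ closedBall (0 : ℂ) 1 ×ˢ Icc (-8 : ℝ) 8 := by
    intro x y hy
    refine ⟨?_, by rw [pt_snd]; exact abs_le.1 hy⟩
    rw [mem_closedBall, dist_zero_right, norm_pt_fst]
  rintro z ((⟨t, ht, rfl⟩ | ⟨t, _, rfl⟩ | ⟨t, _, rfl⟩) | ⟨m, s, y, hL, rfl⟩)
  · exact key _ _ (yP_bound ht)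
  · exact key _ _ (yT_bound (Or.inl rfl) t)
  · exact key _ _ (yT_bound (Or.inr rfl) t)
  · apply key
    rw [abs_of_nonneg hL.y0]
    linarith [hL.y1]

theorem isCompact_KK : IsCompact KK :=
  ((isCompact_closedBall _ _).prod isCompact_Icc).of_isClosed_subset isClosed_KK KK_bounded

/-! ### Cluster points at the ends -/

def TendsTop (E : ℝ → Zs) (L : Set Zs) : Prop :=
  ∀ ε > 0, ∃ N : ℝ, ∀ t, N ≤ t → ∃ q ∈ L, dist (E t) q < ε

theorem tendsTop_PP : TendsTop PP MM := by
  intro ε hε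
  obtain ⟨N, hN⟩ := near_MM 0 hε
  refine ⟨max N 0, fun t ht => ?_⟩
  have h0 : 0 ≤ t := (le_max_right _ _).trans ht
  rw [PP_of_nonneg h0]
  exact hN t ((le_max_left _ _).trans ht) h0

theorem tendsTop_TT (c : ℕ) : TendsTop (TT c) MM := by
  intro ε hε
  obtain ⟨N, hN⟩ := near_MM c hε
  refine ⟨max N 0, fun t ht => ?_⟩
  have h0 : 0 ≤ t := (le_max_right _ _).trans ht
  rw [TT_of_nonneg c h0]
  exact hN t ((le_max_left _ _).trans ht) h0

theorem tendsTop_rr' (i : ℕ) : TendsTop (rr' i) (CC (i + 1)) := by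
  intro ε hε
  obtain ⟨N, hN⟩ := tends_rr' i ε hε
  refine ⟨max N 0, fun t ht => ?_⟩
  have h0 : 0 ≤ t := (le_max_right _ _).trans ht
  refine hN t (show (-1:ℝ) ≤ t by linarith) ?_
  rw [abs_of_nonneg h0]
  exact (le_max_left _ _).trans ht

theorem TendsTop.mem {E : ℝ → Zs} {L : Set Zs} (h : TendsTop E L) (hL : IsClosed L) {q : Zs}
    (hq : MapClusterPt q atTop E) : q ∈ L := by
  by_contra hcon
  obtain ⟨ε, hε, hball⟩ := Metric.isOpen_iff.1 hL.isOpen_compl q hcon
  obtain ⟨N, hN⟩ := h (ε / 2) (by positivity)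
  have h1 := (mapClusterPt_iff_frequently.1 hq) _ (ball_mem_nhds q (half_pos hε))
  obtain ⟨t, ht, ht2⟩ := (frequently_atTop.1 h1) N
  obtain ⟨q', hq', hd⟩ := hN t ht
  apply hball _ hq'
  rw [mem_ball] at ht2 ⊢
  calc dist q' q ≤ dist q' (E t) + dist (E t) q := dist_triangle _ _ _
    _ < ε / 2 + ε / 2 := by rw [dist_comm q']; linarith
    _ = ε := by ring

/-- backward end of `TT c` -/
theorem atBot_TT_mem {c : ℕ} (hc : c = 1 ∨ c = 2) {q : Zs}
    (hq : MapClusterPt q atBot (TT c)) : q ∈ JJ c := by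
  by_contra hcon
  obtain ⟨ε, hε, hball⟩ := Metric.isOpen_iff.1 (isCompact_JJ c).isClosed.isOpen_compl q hcon
  have h1 := (mapClusterPt_iff_frequently.1 hq) _ (ball_mem_nhds q (half_pos hε))
  obtain ⟨t, ht, ht2⟩ := (frequently_atBot.1 h1) (-1 - 8 / ε)
  have h8 : 0 < 8 / ε := by positivity
  obtain ⟨j1, j2⟩ := jj_mem hc t
  refine hball (a := pt (-1) (jj c t)) ?_ ⟨_, j1, j2, rfl⟩
  rw [mem_ball] at ht2 ⊢
  have hd : dist (TT c t) (pt (-1) (jj c t)) < ε / 2 := by
    rw [TT_of_le c (by linarith)]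
    refine (dist_pt_le _ _ _ _).trans_lt ?_
    have hpos : 0 < 1 / (1 - t) := by apply one_div_pos.2; linarith
    rw [sub_self, abs_zero, add_zero, show -1 + 1 / (1 - t) - -1 = 1 / (1 - t) by ring,
      abs_of_pos hpos, mul_one_div, div_lt_iff₀ (by linarith)]
    have : 8 / ε * ε = 8 := by field_simp
    nlinarith
  calc dist (pt (-1) (jj c t)) q ≤ dist (pt (-1) (jj c t)) (TT c t) + dist (TT c t) q :=
        dist_triangle _ _ _
    _ < ε / 2 + ε / 2 := by rw [dist_comm (pt (-1) (jj c t))]; linarith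
    _ = ε := by ring

theorem tendsto_aL : Tendsto (fun n : ℕ => aL n) atTop (𝓝 1) := by
  have h1 : Tendsto (fun n : ℕ => 1 - 1 / ((n : ℝ) + 1)) atTop (𝓝 (1 - 0)) :=
    tendsto_const_nhds.sub tendsto_one_div_add_atTop_nhds_zero_nat
  rw [sub_zero] at h1
  apply tendsto_of_tendsto_of_tendsto_of_le_of_le h1 tendsto_const_nhds
  · intro n; have := one_sub_aL n; show 1 - 1 / ((n : ℝ) + 1) ≤ aL n; linarith
  · intro n; exact (aL_lt_one n).le

theorem tendsto_ee : Tendsto (fun n : ℕ => ee n) atTop (𝓝 0) := by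
  apply tendsto_of_tendsto_of_tendsto_of_le_of_le tendsto_const_nhds
    tendsto_one_div_add_atTop_nhds_zero_nat
  · intro n; exact (ee_pos n).le
  · intro n
    show ee n ≤ 1 / ((n : ℝ) + 1)
    unfold ee
    exact one_div_le_one_div_of_le (by positivity) (by linarith)

/-- convergence of the spirals along fixed angles -/
theorem tendsto_spiral (c i : ℕ) {s : ℝ} (h0 : 0 ≤ s) (h1 : s < 1) :
    Tendsto (fun n : ℕ => pt (((i + 2 * n : ℕ) : ℝ) + s) (hh c (((i + 2 * n : ℕ) : ℝ) + s))) atTop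
      (𝓝 (pt (i + s) (W (xi s)))) := by
  have e : ∀ n : ℕ, pt (((i + 2 * n : ℕ) : ℝ) + s) (hh c (((i + 2 * n : ℕ) : ℝ) + s))
      = pt (i + s) (HH (3 * (i + 2 * n) + c) s) := by
    intro n
    rw [hh_eq c _ h0 h1.le, ← pt_add_two_nat (i + s) _ n]
    congr 1; push_cast; ring
  simp only [e]
  have hk : Tendsto (fun n : ℕ => 3 * (i + 2 * n) + c) atTop atTop := by
    apply tendsto_atTop_mono _ tendsto_id
    intro n; simp only [id]; omega
  have h2 : Tendsto (fun n : ℕ => HH (3 * (i + 2 * n) + c) s) atTop (𝓝 (W (xi s))) := by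
    have h3 : ∀ᶠ n : ℕ in atTop, s < aL (3 * (i + 2 * n) + c) :=
      (tendsto_aL.comp hk).eventually (lt_mem_nhds h1)
    have h4 : Tendsto (fun n : ℕ => ee (3 * (i + 2 * n) + c)) atTop (𝓝 0) := tendsto_ee.comp hk
    rw [tendsto_iff_dist_tendsto_zero]
    apply tendsto_of_tendsto_of_tendsto_of_le_of_le' tendsto_const_nhds h4
    · exact Eventually.of_forall (fun n => dist_nonneg)
    · filter_upwards [h3] with n hn
      unfold HH
      rw [xik_of_le hn.le, Real.dist_eq, add_sub_cancel_left, abs_of_pos (oo_pos _ h0 h1.le)]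
      exact oo_le _ h0 h1.le
  exact Tendsto.pt' tendsto_const_nhds h2

theorem closed_mapCluster (F : Filter ℝ) (E : ℝ → Zs) : IsClosed {q | MapClusterPt q F E} :=
  isClosed_setOfPred_clusterPt

theorem cluster_rr' (i : ℕ) {q : Zs} (hq : q ∈ CC (i + 1)) : MapClusterPt q atTop (rr' i) := by
  obtain ⟨y, h0, h1, rfl⟩ := hq
  obtain ⟨u, hu, hW⟩ := exists_W_eq h0 h1
  have h2 : Tendsto (fun n : ℕ => (u : ℝ) + n) atTop atTop :=
    tendsto_atTop_add_const_left _ _ tendsto_natCast_atTop_atTop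
  apply MapClusterPt.of_comp h2
  apply Tendsto.mapClusterPt
  have e : ∀ n : ℕ, (rr' i ∘ fun n : ℕ => (u : ℝ) + n) n = pt (i + Lam (u + n)) y := by
    intro n
    have : (0:ℝ) ≤ n := Nat.cast_nonneg n
    simp only [Function.comp_apply]
    rw [rr'_of_nonneg i (by linarith [hu.1]), W_add_nat, hW]
  have h3 : Tendsto (fun n : ℕ => Lam (u + n)) atTop (𝓝 1) := by
    have h5 : Tendsto (fun n : ℕ => 1 - 1 / ((n : ℝ) + 1)) atTop (𝓝 (1 - 0)) :=
      tendsto_const_nhds.sub tendsto_one_div_add_atTop_nhds_zero_nat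
    rw [sub_zero] at h5
    apply tendsto_of_tendsto_of_tendsto_of_le_of_le h5 tendsto_const_nhds
    · intro n
      have hn : (0:ℝ) ≤ n := Nat.cast_nonneg n
      have := one_sub_Lam (x := u + n) (by linarith [hu.1])
      have h6 : 1 / (1 + (u + (n:ℝ))) ≤ 1 / ((n : ℝ) + 1) :=
        one_div_le_one_div_of_le (by linarith) (by linarith [hu.1])
      show 1 - 1 / ((n : ℝ) + 1) ≤ Lam (u + n)
      linarith
    · intro n
      have hn : (0:ℝ) ≤ n := Nat.cast_nonneg n
      exact (Lam_lt_one (by linarith [hu.1])).le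
  have h4 : Tendsto (fun n : ℕ => pt (i + Lam (u + n)) y) atTop (𝓝 (pt (i + 1) y)) :=
    Tendsto.pt' (tendsto_const_nhds.add h3) tendsto_const_nhds
  push_cast
  exact h4.congr (fun n => (e n).symm)

/-- every point of `MM` is a cluster point of every spiral. -/
theorem cluster_spiral {E : ℝ → Zs} {c : ℕ} (hE : ∀ t, 0 ≤ t → E t = pt t (hh c t)) {q : Zs}
    (hq : q ∈ MM) : MapClusterPt q atTop E := by
  have hgr : ∀ (i : ℕ) (u : ℝ), 0 ≤ u → MapClusterPt (rr' i u) atTop E := by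
    intro i u hu
    rw [rr'_of_nonneg i hu]
    have h1 := tendsto_spiral c i (Lam_nonneg hu) (Lam_lt_one hu)
    rw [xi_Lam hu] at h1
    have h2 : Tendsto (fun n : ℕ => ((i + 2 * n : ℕ) : ℝ) + Lam u) atTop atTop := by
      apply tendsto_atTop_add_const_right
      apply tendsto_natCast_atTop_atTop.comp
      apply tendsto_atTop_mono _ tendsto_id
      intro n; simp only [id]; omega
    apply MapClusterPt.of_comp h2
    apply Tendsto.mapClusterPt
    apply h1.congr
    intro n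
    simp only [Function.comp_apply]
    rw [hE]
    have := Lam_nonneg hu
    positivity
  obtain ⟨m, s, y, hL, rfl⟩ := hq
  rcases hL with ⟨h0, h1, rfl⟩ | ⟨rfl, h0, h1⟩
  · have := hgr m (xi s) (xi_nonneg h0 h1)
    rwa [rr'_of_nonneg m (xi_nonneg h0 h1), Lam_xi h1] at this
  · have h2 : MapClusterPt (pt ((m + 1 : ℕ) : ℝ) y) atTop (rr' m) := cluster_rr' m ⟨y, h0, h1, rfl⟩
    have hcl := closed_mapCluster atTop E
    by_contra hcon
    have hopen : {q | MapClusterPt q atTop E}ᶜ ∈ 𝓝 (pt ((m + 1 : ℕ) : ℝ) y) := by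
      apply hcl.isOpen_compl.mem_nhds
      push_cast
      exact hcon
    have h3 := (mapClusterPt_iff_frequently.1 h2) _ hopen
    obtain ⟨t, ht, ht2⟩ := (frequently_atTop.1 h3) 0
    exact ht2 (hgr m t ht)

theorem cluster_PP {q : Zs} (hq : q ∈ MM) : MapClusterPt q atTop PP :=
  cluster_spiral (c := 0) (fun _ => PP_of_nonneg) hq

theorem cluster_TT (c : ℕ) {q : Zs} (hq : q ∈ MM) : MapClusterPt q atTop (TT c) :=
  cluster_spiral (c := c) (fun _ => TT_of_nonneg c) hq

theorem cluster_TT_atBot {c : ℕ} (hc : c = 1 ∨ c = 2) {q : Zs} (hq : q ∈ JJ c) :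
    MapClusterPt q atBot (TT c) := by
  obtain ⟨y, h0, h1, rfl⟩ := hq
  obtain ⟨u, hu, hW⟩ : ∃ u ∈ Icc (0:ℝ) (1/2), ∀ n : ℕ, jj c (-(u + n)) = y := by
    rcases hc with rfl | rfl
    · obtain ⟨u, hu, hW⟩ := exists_W_eq (y := y - 5) (by norm_num [lo] at h0; linarith)
        (by norm_num [lo] at h1; linarith)
      refine ⟨u, hu, fun n => ?_⟩
      unfold jj
      rw [if_pos rfl, W_neg, W_add_nat, hW]; ring
    · obtain ⟨u, hu, hW⟩ := exists_W_eq (y := 3 - y) (by norm_num [lo] at h1; linarith)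
        (by norm_num [lo] at h0; linarith)
      refine ⟨u, hu, fun n => ?_⟩
      unfold jj
      rw [if_neg (by norm_num), W_neg, W_add_nat, hW]; ring
  have h2 : Tendsto (fun n : ℕ => -((u : ℝ) + n)) atTop atBot :=
    tendsto_neg_atTop_atBot.comp (tendsto_atTop_add_const_left _ _ tendsto_natCast_atTop_atTop)
  apply MapClusterPt.of_comp h2
  apply Tendsto.mapClusterPt
  have h3 : Tendsto (fun n : ℕ => -1 + 1 / (1 + (u + (n:ℝ)))) atTop (𝓝 (-1 + 0)) := by
    apply tendsto_const_nhds.add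
    apply tendsto_of_tendsto_of_tendsto_of_le_of_le tendsto_const_nhds
      tendsto_one_div_add_atTop_nhds_zero_nat
    · intro n
      have := hu.1
      show 0 ≤ 1 / (1 + (u + (n:ℝ)))
      positivity
    · intro n
      have := hu.1
      exact one_div_le_one_div_of_le (by positivity) (by linarith)
  rw [add_zero] at h3
  have h4 : Tendsto (fun n : ℕ => pt (-1 + 1 / (1 + (u + (n:ℝ)))) y) atTop (𝓝 (pt (-1) y)) :=
    Tendsto.pt' h3 tendsto_const_nhds
  apply h4.congr'
  filter_upwards [eventually_ge_atTop 1] with n hn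
  have hn' : (1:ℝ) ≤ n := by exact_mod_cast hn
  simp only [Function.comp_apply]
  rw [TT_of_le c (by linarith [hu.1]), hW n]
  congr 1; ring_nf

end Pool.Agent.H741.Bing
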