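import Pool.Agent.H741.Bing.Limits

/-!
The disk `DD` and the fixed-point-free map on `DD ∪ KK`, given by its graph.
-/

set_option autoImplicit false

open Set Filter Topology Metric

namespace Pool.Agent.H741.Bing

/-- A relation with compact graph, single-valued and total on `S`, is a continuous function. -/
theorem continuousOn_of_graph {A B : Type*} [MetricSpace A] [MetricSpace B] {S : Set A}
    {Γ : Set (A × B)} (hΓ : IsCompact Γ) {f : A → B} (hf : ∀ z ∈ S, (z, f z) ∈ Γ)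
    (huniq : ∀ z w w', (z, w) ∈ Γ → (z, w') ∈ Γ → w = w') : ContinuousOn f S := by
  rw [continuousOn_iff_isClosed]
  intro C hC
  refine ⟨Prod.fst '' (Γ ∩ (Prod.snd ⁻¹' C)), ?_, ?_⟩
  · exact ((hΓ.inter_right (hC.preimage continuous_snd)).image continuous_fst).isClosed
  · ext z
    constructor
    · rintro ⟨h1, h2⟩
      exact ⟨⟨(z, f z), ⟨hf z h2, h1⟩, rfl⟩, h2⟩
    · rintro ⟨⟨⟨z', w⟩, ⟨h1, h2⟩, rfl⟩, h3⟩
      refine ⟨?_, h3⟩
      have : w = f z' := huniq z' w (f z') h1 (hf z' h3)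
      show f z' ∈ C
      rw [← this]; exact h2

/-! ### The disk -/

def DD : Set Zs := (fun p : ℝ × ℝ => pt p.1 p.2) '' (Icc (-2) (-1) ×ˢ Icc 2 6)

theorem DD_mem {x y : ℝ} (h1 : -2 ≤ x) (h2 : x ≤ -1) (h3 : 2 ≤ y) (h4 : y ≤ 6) : pt x y ∈ DD :=
  ⟨(x, y), ⟨⟨h1, h2⟩, ⟨h3, h4⟩⟩, rfl⟩

theorem isCompact_DD : IsCompact DD :=
  (isCompact_Icc.prod isCompact_Icc).image continuous_pt

theorem DD_inter_PP {t : ℝ} (ht : -2 ≤ t) (h : PP t ∈ DD) : t = -2 := by
  obtain ⟨⟨x, y⟩, ⟨⟨hx1, hx2⟩, ⟨hy1, hy2⟩⟩, e⟩ := h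
  simp only at e hx1 hx2 hy1 hy2
  rcases le_or_gt 0 t with h0 | h0
  · rw [PP_of_nonneg h0] at e
    exact absurd e (outer_ne_inner h0 (by linarith) (Or.inr ⟨hx1, by linarith⟩))
  · rw [PP_c3 ht h0.le] at e
    obtain ⟨e1, e2⟩ := pt_inj_of_lt e (by rw [abs_lt]; constructor <;> linarith)
    rw [min_eq_left (by linarith)] at e2
    linarith

theorem DD_inter_TT {c : ℕ} (t : ℝ) : TT c t ∉ DD := by
  rintro ⟨⟨x, y⟩, ⟨⟨hx1, hx2⟩, ⟨hy1, hy2⟩⟩, e⟩
  simp only at e hx1 hx2 hy1 hy2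
  rcases le_or_gt 0 t with h0 | h0
  · rw [TT_of_nonneg c h0] at e
    exact absurd e (outer_ne_inner h0 (by linarith) (Or.inr ⟨hx1, by linarith⟩))
  · unfold TT at e
    have h1 := aT_gt t
    have h2 := aT_neg h0
    obtain ⟨e1, e2⟩ := pt_inj_of_lt e (by rw [abs_lt]; constructor <;> linarith)
    linarith

theorem DD_disj_MM : ∀ z ∈ DD, z ∉ MM := by
  rintro z ⟨⟨x, y⟩, ⟨⟨hx1, hx2⟩, ⟨hy1, hy2⟩⟩, rfl⟩
  simp only at hy1
  exact high_not_mem_MM (by linarith)

theorem PP_mem_DD {t : ℝ} (h1 : -7 ≤ t) (h2 : t ≤ -2) : PP t ∈ DD := by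
  rcases le_total t (-3) with h | h
  · rw [PP_c1 h]
    exact DD_mem (by norm_num) le_rfl (by linarith) (by linarith)
  · rw [PP_c2 h h2]
    exact DD_mem (by linarith) (by linarith) (by norm_num) le_rfl

theorem DD_inter_KK : DD ∩ KK = PP '' Icc (-7) (-2) := by
  apply Subset.antisymm
  · rintro z ⟨hD, ((⟨t, ht, rfl⟩ | ⟨t, _, rfl⟩ | ⟨t, _, rfl⟩) | hz)⟩
    · refine ⟨t, ⟨ht, ?_⟩, rfl⟩
      by_contra hcon
      push Not at hcon
      have := DD_inter_PP hcon.le hD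
      linarith
    · exact absurd hD (DD_inter_TT t)
    · exact absurd hD (DD_inter_TT t)
    · exact absurd hz (DD_disj_MM z hD)
  · rintro z ⟨t, ht, rfl⟩
    exact ⟨PP_mem_DD ht.1 ht.2, PS_sub ⟨t, ht.1, rfl⟩⟩

/-! ### The map on the disk -/

noncomputable def cY (Y : ℝ) : ℝ := max 0 (1 - 4 / 3 * Y)

noncomputable def F1 (X Y : ℝ) : ℝ := -X * cY Y + (1 - cY Y)

noncomputable def F2 (X Y : ℝ) : ℝ := min 1 (4 / 3 * Y + max 0 (1 / 2 - |X|))

noncomputable def FD (p : ℝ × ℝ) : Zs :=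
  if -1 - p.1 ≤ 3 / 4 then pt (-1 - F2 ((p.2 - 4) / 2) (-1 - p.1)) (4 + 2 * F1 ((p.2 - 4) / 2) (-1 - p.1))
  else PP (-2 + 4 * (-1 - p.1 - 3 / 4))

theorem cY_mem {Y : ℝ} (hY : 0 ≤ Y) : 0 ≤ cY Y ∧ cY Y ≤ 1 := by
  unfold cY
  exact ⟨le_max_left _ _, max_le zero_le_one (by linarith)⟩

theorem F1_mem {X Y : ℝ} (hX1 : -1 ≤ X) (hX2 : X ≤ 1) (hY : 0 ≤ Y) : -1 ≤ F1 X Y ∧ F1 X Y ≤ 1 := by
  obtain ⟨h0, h1⟩ := cY_mem hY
  unfold F1
  constructor <;> nlinarith

theorem F2_mem {X Y : ℝ} (hY : 0 ≤ Y) : 0 ≤ F2 X Y ∧ F2 X Y ≤ 1 := by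
  unfold F2
  refine ⟨le_min zero_le_one ?_, min_le_left _ _⟩
  have : 0 ≤ max 0 (1 / 2 - |X|) := le_max_left _ _
  linarith

theorem continuous_FD : Continuous FD := by
  unfold FD
  apply Continuous.if_le
  · apply Continuous.pt'
    · unfold F2; fun_prop
    · unfold F1 cY; fun_prop
  · exact continuous_PP.comp (by fun_prop)
  · fun_prop
  · fun_prop
  · intro p hp
    rw [hp, sub_self, mul_zero, add_zero, PP_c2 (by norm_num) le_rfl]
    have h1 : F2 ((p.2 - 4) / 2) (3 / 4) = 1 := by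
      unfold F2
      apply min_eq_left
      have : 0 ≤ max 0 (1 / 2 - |(p.2 - 4) / 2|) := le_max_left _ _
      linarith
    have h2 : F1 ((p.2 - 4) / 2) (3 / 4) = 1 := by
      unfold F1 cY
      norm_num
    rw [h1, h2]
    norm_num

theorem FD_mem {p : ℝ × ℝ} (hp : p ∈ Icc (-2 : ℝ) (-1) ×ˢ Icc (2 : ℝ) 6) : FD p ∈ DD ∪ KK := by
  obtain ⟨⟨hx1, hx2⟩, ⟨hy1, hy2⟩⟩ := hp
  unfold FD
  split_ifs with h
  · left
    obtain ⟨a1, a2⟩ := F1_mem (X := (p.2 - 4) / 2) (Y := -1 - p.1) (by linarith) (by linarith)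
      (by linarith)
    obtain ⟨b1, b2⟩ := F2_mem (X := (p.2 - 4) / 2) (Y := -1 - p.1) (by linarith)
    exact DD_mem (by linarith) (by linarith) (by linarith) (by linarith)
  · right
    push Not at h
    exact PS_sub ⟨_, by simp only [mem_Ici]; linarith, rfl⟩

theorem FD_ne {p : ℝ × ℝ} (hp : p ∈ Icc (-2 : ℝ) (-1) ×ˢ Icc (2 : ℝ) 6) : FD p ≠ pt p.1 p.2 := by
  obtain ⟨⟨hx1, hx2⟩, ⟨hy1, hy2⟩⟩ := hp
  intro e
  unfold FD at e
  split_ifs at e with h
  · set X := (p.2 - 4) / 2 with hX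
    set Y := -1 - p.1 with hY
    have hY0 : 0 ≤ Y := by linarith
    obtain ⟨b1, b2⟩ := F2_mem (X := X) (Y := Y) hY0
    obtain ⟨e1, e2⟩ := pt_inj_of_lt e (by rw [abs_lt]; constructor <;> linarith)
    have f2 : F2 X Y = Y := by linarith
    have f1 : F1 X Y = X := by linarith
    unfold F2 at f2
    have g1 : 0 ≤ max 0 (1 / 2 - |X|) := le_max_left _ _
    have g2 : 1 / 2 - |X| ≤ max 0 (1 / 2 - |X|) := le_max_right _ _
    rcases min_choice 1 (4 / 3 * Y + max 0 (1 / 2 - |X|)) with hm | hm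
    · rw [hm] at f2; linarith
    · rw [hm] at f2
      have hY1 : Y = 0 := by linarith
      have g3 : max 0 (1 / 2 - |X|) = 0 := by rw [hY1] at f2; linarith
      rw [g3] at g2
      unfold F1 cY at f1
      rw [hY1] at f1
      norm_num at f1
      have hX0 : X = 0 := by linarith
      rw [hX0] at g2
      norm_num at g2
  · push Not at h
    have h1 : PP (-2 + 4 * (-1 - p.1 - 3 / 4)) ∈ DD := by
      rw [e]; exact DD_mem hx1 hx2 hy1 hy2
    have := DD_inter_PP (by linarith) h1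
    linarith

/-! ### The maps on the parameters -/

noncomputable def phm (c : ℕ) (t : ℝ) : ℝ := phi c (max t 0)

theorem continuous_phm {c : ℕ} (hc : c < 3) : Continuous (phm c) := by
  unfold phm
  exact (continuousOn_phi hc).comp_continuous (by fun_prop) (fun t => by simp)

noncomputable def phP (t : ℝ) : ℝ := if t ≤ 0 then t + 1 else phm 0 t

theorem continuous_phP : Continuous phP := by
  have := continuous_phm (c := 0) (by norm_num)
  unfold phP
  apply Continuous.if_le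
  · fun_prop
  · fun_prop
  · fun_prop
  · fun_prop
  · intro t ht
    subst ht
    unfold phm
    rw [max_self, phi_zero (by norm_num)]; norm_num

theorem phP_of_nonneg {t : ℝ} (ht : 0 ≤ t) : phP t = phi 0 t := by
  unfold phP
  rcases ht.lt_or_eq with h | h
  · rw [if_neg (not_le.2 h)]; unfold phm; rw [max_eq_left ht]
  · subst h; rw [if_pos le_rfl, phi_zero (by norm_num)]; norm_num

theorem lt_phP (t : ℝ) : t < phP t := by
  rcases le_or_gt 0 t with h | h
  · rw [phP_of_nonneg h]; exact lt_phi (by norm_num) h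
  · unfold phP; rw [if_pos h.le]; linarith

noncomputable def phT (c : ℕ) (t : ℝ) : ℝ :=
  if t ≤ -1 then t else if t ≤ 0 then 2 * t + 1 else phm c t

theorem continuous_phT {c : ℕ} (hc : c < 3) : Continuous (phT c) := by
  have := continuous_phm hc
  unfold phT
  apply Continuous.if_le
  · fun_prop
  · apply Continuous.if_le
    · fun_prop
    · fun_prop
    · fun_prop
    · fun_prop
    · intro t ht
      subst ht
      unfold phm
      rw [max_self, phi_zero hc]; norm_num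
  · fun_prop
  · fun_prop
  · intro t ht
    subst ht
    rw [if_pos (by norm_num)]; norm_num

theorem phT_of_le (c : ℕ) {t : ℝ} (ht : t ≤ -1) : phT c t = t := by unfold phT; rw [if_pos ht]

theorem phT_of_nonneg {c : ℕ} (hc : c < 3) {t : ℝ} (ht : 0 ≤ t) : phT c t = phi c t := by
  unfold phT
  rw [if_neg (by linarith)]
  rcases ht.lt_or_eq with h | h
  · rw [if_neg (not_le.2 h)]; unfold phm; rw [max_eq_left ht]
  · subst h; rw [if_pos le_rfl, phi_zero hc]; norm_num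

/-! ### The graph -/

def GM : Set (Zs × Zs) := {p | ∃ (m : ℕ) (s y : ℝ), LL s y ∧
  p = (pt (m + s) y, pt (m + 1 + gg s) ((2 * y - 1) ^ 2))}

noncomputable def EP (t : ℝ) : Zs × Zs := (PP t, PP (phP t))

noncomputable def ET (c : ℕ) (t : ℝ) : Zs × Zs := (TT c t, TT (sig c) (phT c t))

def GJ (c : ℕ) : Set (Zs × Zs) := (fun y : ℝ => (pt (-1) y, pt (-1) (8 - y))) '' Icc (lo c) (lo c + 1)

def GD : Set (Zs × Zs) := (fun p : ℝ × ℝ => (pt p.1 p.2, FD p)) '' (Icc (-2) (-1) ×ˢ Icc 2 6)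

theorem isCompact_GM : IsCompact GM := by
  have e : GM = ⋃ i ∈ ({0, 1} : Set ℕ), (fun p : ℝ × ℝ =>
      (pt (i + p.1) p.2, pt (i + 1 + gg p.1) ((2 * p.2 - 1) ^ 2))) '' {p | LL p.1 p.2} := by
    ext z
    simp only [GM, mem_ofPred_eq, mem_iUnion, mem_image, Prod.exists, exists_prop]
    constructor
    · rintro ⟨m, s, y, h, rfl⟩
      obtain ⟨i, n, hi, rfl⟩ := two_decomp m
      refine ⟨i, ?_, s, y, h, ?_⟩
      · have : i = 0 ∨ i = 1 := by omega
        simpa using this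
      · congr 1
        · rw [← pt_add_two_nat _ _ n]
          congr 1; push_cast; ring
        · rw [← pt_add_two_nat _ _ n]
          congr 1; push_cast; ring
    · rintro ⟨i, _, s, y, h, rfl⟩
      exact ⟨i, s, y, h, rfl⟩
  rw [e]
  apply Set.Finite.isCompact_biUnion (by simp)
  intro i _
  apply isCompact_LL.image_of_continuousOn
  have hgg : ContinuousOn (fun p : ℝ × ℝ => gg p.1) {p | LL p.1 p.2} := by
    unfold gg
    apply ContinuousOn.div (by fun_prop) (by fun_prop)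
    intro p hp
    have := LL.s0 hp
    linarith
  apply ContinuousOn.prodMk
  · exact (Continuous.pt' (by fun_prop) (by fun_prop)).continuousOn
  · exact ContinuousOn.pt' (by fun_prop) (by fun_prop)

theorem isCompact_GJ (c : ℕ) : IsCompact (GJ c) :=
  isCompact_Icc.image ((Continuous.pt' (by fun_prop) (by fun_prop)).prodMk
    (Continuous.pt' (by fun_prop) (by fun_prop)))

theorem isCompact_GD : IsCompact GD :=
  (isCompact_Icc.prod isCompact_Icc).image (continuous_pt.prodMk continuous_FD)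

theorem sig_lt {c : ℕ} : sig c < 3 := by unfold sig; split_ifs <;> norm_num

/-- joint approach of the spirals to the graph of the limit map -/
theorem near_GM {c : ℕ} (hc : c < 3) {ε : ℝ} (hε : 0 < ε) : ∃ N : ℝ, ∀ t, N ≤ t → 0 ≤ t →
    ∃ q ∈ GM, dist ((pt t (hh c t), pt (phi c t) (hh (sig c) (phi c t))) : Zs × Zs) q < ε := by
  obtain ⟨n, hn⟩ := exists_nat_gt (5 / ε)
  refine ⟨n + 4, ?_⟩
  intro t ht ht0
  obtain ⟨m, s, h0, h1, rfl⟩ := exists_lane ht0
  have hm : (n : ℝ) + 3 < m := by linarith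
  have hm' : n + 3 < m := by exact_mod_cast hm
  have hk : 3 * (m + 1) + sig c ≤ 3 * m + c + 4 ∧ 3 * m + c ≤ 3 * (m + 1) + sig c := by
    unfold sig
    split_ifs <;> omega
  obtain ⟨s', y, hL, hd1, hd2⟩ := near_joint (c := c) (m := m) (by omega) h0 h1.le hk.1 hk.2
  refine ⟨_, ⟨m, s', y, hL, rfl⟩, ?_⟩
  rw [hh_eq c m h0 h1.le, hh_phi hc m h0 h1.le, phi_eq hc m h0 h1.le, Prod.dist_eq]
  have hlt : 5 / ((m : ℝ) + 1) < ε := by
    rw [div_lt_iff₀ hε] at hn
    rw [div_lt_iff₀ (by linarith [(Nat.cast_nonneg m : (0:ℝ) ≤ m)])]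
    nlinarith
  exact max_lt (hd1.trans_lt hlt) (hd2.trans_lt hlt)

theorem tends_EP : Tends (Ici (-2)) EP GM := by
  intro ε hε
  obtain ⟨N, hN⟩ := near_GM (c := 0) (by norm_num) hε
  refine ⟨max N 3, ?_⟩
  intro t ht htN
  have ht7 : (-2:ℝ) ≤ t := ht
  have h8 : (3:ℝ) ≤ |t| := (le_max_right _ _).trans htN
  have ht0 : 0 ≤ t := by
    by_contra hcon
    push Not at hcon
    rw [abs_of_neg hcon] at h8
    linarith
  rw [abs_of_nonneg ht0] at htN
  unfold EP
  have h1 : 0 ≤ phi 0 t := ht0.trans (lt_phi (by norm_num) ht0).le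
  rw [phP_of_nonneg ht0, PP_of_nonneg ht0, PP_of_nonneg h1]
  exact hN t ((le_max_left _ _).trans htN) ht0

theorem sig_cases {c : ℕ} (hc : c = 1 ∨ c = 2) : (sig c = 1 ∨ sig c = 2) ∧ sig c ≠ c := by
  rcases hc with rfl | rfl <;> simp [sig]

theorem jj_sig {c : ℕ} (hc : c = 1 ∨ c = 2) (t : ℝ) : jj (sig c) t = 8 - jj c t := by
  rcases hc with rfl | rfl
  · simp only [sig, jj]; norm_num; ring
  · simp only [sig, jj]; norm_num; ring

theorem tends_ET {c : ℕ} (hc : c = 1 ∨ c = 2) : Tends univ (ET c) (GM ∪ GJ c) := by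
  intro ε hε
  have hc3 : c < 3 := by omega
  obtain ⟨N, hN⟩ := near_GM hc3 hε
  refine ⟨max (max N 1) (4 / ε), ?_⟩
  intro t _ ht
  have h1 : N ≤ |t| := (le_max_left _ _).trans ((le_max_left _ _).trans ht)
  have h2 : 1 ≤ |t| := (le_max_right _ _).trans ((le_max_left _ _).trans ht)
  have h3 : 4 / ε ≤ |t| := (le_max_right _ _).trans ht
  unfold ET
  rcases le_or_gt 0 t with h0 | h0
  · rw [abs_of_nonneg h0] at h1
    have h4 : 0 ≤ phi c t := h0.trans (lt_phi hc3 h0).le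
    rw [phT_of_nonneg hc3 h0, TT_of_nonneg c h0, TT_of_nonneg _ h4]
    obtain ⟨q, hq, hq2⟩ := hN t h1 h0
    exact ⟨q, Or.inl hq, hq2⟩
  · rw [abs_of_neg h0] at h2 h3
    rw [phT_of_le c (by linarith), TT_of_le c (by linarith), TT_of_le _ (by linarith), jj_sig hc]
    obtain ⟨j1, j2⟩ := jj_mem hc t
    refine ⟨_, Or.inr ⟨jj c t, ⟨j1, j2⟩, rfl⟩, ?_⟩
    have hpos : 0 < 1 / (1 - t) := by apply one_div_pos.2; linarith
    have hb : ∀ y, dist (pt (-1 + 1 / (1 - t)) y) (pt (-1) y) < ε := by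
      intro y
      refine (dist_pt_le _ _ _ _).trans_lt ?_
      rw [sub_self, abs_zero, add_zero, show -1 + 1 / (1 - t) - -1 = 1 / (1 - t) by ring,
        abs_of_pos hpos, mul_one_div, div_lt_iff₀ (by linarith)]
      rw [div_le_iff₀ hε] at h3
      nlinarith
    rw [Prod.dist_eq]
    exact max_lt (hb _) (hb _)

def GP : Set (Zs × Zs) := EP '' Ici (-2)
def GT (c : ℕ) : Set (Zs × Zs) := ET c '' univ

theorem isClosed_GP : IsClosed (GP ∪ GM) :=
  isClosed_image_union isClosed_Ici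
    (continuous_PP.prodMk (continuous_PP.comp continuous_phP)).continuousOn
    isCompact_GM.isClosed tends_EP

theorem isClosed_GT {c : ℕ} (hc : c = 1 ∨ c = 2) : IsClosed (GT c ∪ (GM ∪ GJ c)) :=
  isClosed_image_union isClosed_univ
    ((continuous_TT hc).prodMk ((continuous_TT (sig_cases hc).1).comp
      (continuous_phT (by omega)))).continuousOn
    (isCompact_GM.isClosed.union (isCompact_GJ c).isClosed) (tends_ET hc)

theorem GJ_sub {c : ℕ} (hc : c = 1 ∨ c = 2) : GJ c ⊆ GD := by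
  rintro z ⟨y, ⟨h0, h1⟩, rfl⟩
  have a1 := lo_ge c
  have a2 := lo_le c
  refine ⟨(-1, y), ⟨⟨by norm_num, le_rfl⟩, ⟨by linarith, by linarith⟩⟩, ?_⟩
  simp only
  congr 1
  unfold FD
  simp only
  rw [if_pos (by norm_num)]
  have e1 : F1 ((y - 4) / 2) (-1 - -1) = -((y - 4) / 2) := by
    unfold F1 cY; norm_num
  have e2 : F2 ((y - 4) / 2) (-1 - -1) = 0 := by
    unfold F2
    have hX : 1 / 2 ≤ |(y - 4) / 2| := by
      rcases hc with rfl | rfl
      · norm_num [lo] at h0 h1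
        rw [le_abs]; left; linarith
      · norm_num [lo] at h0 h1
        rw [le_abs]; right; linarith
    rw [max_eq_left (by linarith)]
    norm_num
  rw [e1, e2]
  congr 1
  · ring
  · ring

def GG : Set (Zs × Zs) := GD ∪ (GP ∪ (GT 1 ∪ GT 2)) ∪ GM

theorem isClosed_GG : IsClosed GG := by
  have h1 := isClosed_GP
  have h2 := isClosed_GT (c := 1) (Or.inl rfl)
  have h3 := isClosed_GT (c := 2) (Or.inr rfl)
  have e : GG = GD ∪ ((GP ∪ GM) ∪ ((GT 1 ∪ (GM ∪ GJ 1)) ∪ (GT 2 ∪ (GM ∪ GJ 2)))) := by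
    apply Subset.antisymm
    · rintro z ((hz | (hz | (hz | hz))) | hz)
      · exact Or.inl hz
      · exact Or.inr (Or.inl (Or.inl hz))
      · exact Or.inr (Or.inr (Or.inl (Or.inl hz)))
      · exact Or.inr (Or.inr (Or.inr (Or.inl hz)))
      · exact Or.inr (Or.inl (Or.inr hz))
    · have i1 : GM ⊆ GG := fun z hz => Or.inr hz
      have i2 : GD ⊆ GG := fun z hz => Or.inl (Or.inl hz)
      rintro z (hz | ((hz | hz) | ((hz | hz | hz) | (hz | hz | hz))))
      · exact i2 hz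
      · exact Or.inl (Or.inr (Or.inl hz))
      · exact i1 hz
      · exact Or.inl (Or.inr (Or.inr (Or.inl hz)))
      · exact i1 hz
      · exact i2 (GJ_sub (Or.inl rfl) hz)
      · exact Or.inl (Or.inr (Or.inr (Or.inr hz)))
      · exact i1 hz
      · exact i2 (GJ_sub (Or.inr rfl) hz)
  rw [e]
  exact isCompact_GD.isClosed.union (h1.union (h2.union h3))

end Pool.Agent.H741.Bing
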