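import Pool.Agent.H741.Bing.Map

/-!
The relation `GG` is the graph of a continuous fixed-point-free self-map of `DD ∪ KK`.
-/

set_option autoImplicit false

open Set Filter Topology Metric

namespace Pool.Agent.H741.Bing

theorem LL_gg {s y : ℝ} (h : LL s y) : LL (gg s) ((2 * y - 1) ^ 2) := by
  rcases h with ⟨h0, h1, rfl⟩ | ⟨rfl, h0, h1⟩
  · left
    have hx := xi_nonneg h0 h1
    rw [gg_eq h0 h1]
    refine ⟨Lam_nonneg (by linarith), Lam_lt_one (by linarith), ?_⟩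
    rw [xi_Lam (by linarith), W_two_mul]
  · right
    refine ⟨gg_one, sq_nonneg _, ?_⟩
    nlinarith

theorem gg_sub {s : ℝ} (h0 : 0 ≤ s) (h1 : s ≤ 1) : gg s - s < 1 := by
  unfold gg
  rw [sub_lt_iff_lt_add, div_lt_iff₀ (by linarith)]
  nlinarith

theorem MM_mem {m : ℕ} {s y : ℝ} (h : LL s y) : pt (m + s) y ∈ MM := ⟨m, s, y, h, rfl⟩

/-! ### membership -/

theorem GM_sub : GM ⊆ MM ×ˢ MM := by
  rintro z ⟨m, s, y, h, rfl⟩
  refine ⟨MM_mem h, ?_⟩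
  have := MM_mem (m := m + 1) (LL_gg h)
  push_cast at this
  exact this

theorem GD_sub : GD ⊆ DD ×ˢ (DD ∪ KK) := by
  rintro z ⟨p, hp, rfl⟩
  exact ⟨⟨p, hp, rfl⟩, FD_mem hp⟩

theorem GP_sub : GP ⊆ (PP '' Ici (-2)) ×ˢ PS := by
  rintro z ⟨t, ht, rfl⟩
  have h2 : (-2 : ℝ) ≤ t := ht
  have := lt_phP t
  exact ⟨⟨t, ht, rfl⟩, ⟨phP t, by show (-7:ℝ) ≤ phP t; linarith, rfl⟩⟩

theorem GT_sub (c : ℕ) : GT c ⊆ TS c ×ˢ TS (sig c) := by
  rintro z ⟨t, _, rfl⟩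
  exact ⟨⟨t, mem_univ _, rfl⟩, ⟨phT c t, mem_univ _, rfl⟩⟩

theorem PS2_sub : PP '' Ici (-2) ⊆ PS := image_mono (fun t ht => by
  have : (-2:ℝ) ≤ t := ht
  show (-7:ℝ) ≤ t
  linarith)

theorem GG_sub : GG ⊆ (DD ∪ KK) ×ˢ (DD ∪ KK) := by
  rintro z ((hz | (hz | (hz | hz))) | hz)
  · have := GD_sub hz
    exact ⟨Or.inl this.1, this.2⟩
  · have := GP_sub hz
    exact ⟨Or.inr (PS_sub (PS2_sub this.1)), Or.inr (PS_sub this.2)⟩
  · have := GT_sub _ hz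
    exact ⟨Or.inr (TS_sub (Or.inl rfl) this.1), Or.inr (TS_sub (sig_cases (Or.inl rfl)).1 this.2)⟩
  · have := GT_sub _ hz
    exact ⟨Or.inr (TS_sub (Or.inr rfl) this.1), Or.inr (TS_sub (sig_cases (Or.inr rfl)).1 this.2)⟩
  · have := GM_sub hz
    exact ⟨Or.inr (MM_sub this.1), Or.inr (MM_sub this.2)⟩

theorem isCompact_GG : IsCompact GG :=
  ((isCompact_DD.union isCompact_KK).prod (isCompact_DD.union isCompact_KK)).of_isClosed_subset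
    isClosed_GG GG_sub

/-! ### totality -/

theorem GG_total {z : Zs} (hz : z ∈ DD ∪ KK) : ∃ w, (z, w) ∈ GG := by
  have hD : ∀ z ∈ DD, ∃ w, (z, w) ∈ GG := by
    rintro z ⟨p, hp, rfl⟩
    exact ⟨FD p, Or.inl (Or.inl ⟨p, hp, rfl⟩)⟩
  rcases hz with hz | ((⟨t, ht, rfl⟩ | ⟨t, ht, rfl⟩ | ⟨t, ht, rfl⟩) | ⟨m, s, y, h, rfl⟩)
  · exact hD z hz
  · rcases le_total t (-2) with h | h
    · exact hD _ (PP_mem_DD ht h)
    · exact ⟨_, Or.inl (Or.inr (Or.inl ⟨t, h, rfl⟩))⟩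
  · exact ⟨_, Or.inl (Or.inr (Or.inr (Or.inl ⟨t, ht, rfl⟩)))⟩
  · exact ⟨_, Or.inl (Or.inr (Or.inr (Or.inr ⟨t, ht, rfl⟩)))⟩
  · exact ⟨_, Or.inr ⟨m, s, y, h, rfl⟩⟩

/-! ### uniqueness -/

theorem GM_uniq {z w w' : Zs} (h : (z, w) ∈ GM) (h' : (z, w') ∈ GM) : w = w' := by
  obtain ⟨m, s, y, hL, e⟩ := h
  obtain ⟨m', s', y', hL', e'⟩ := h'
  rw [Prod.mk.injEq] at e e'
  obtain ⟨e1, rfl⟩ := e
  obtain ⟨e1', rfl⟩ := e'
  obtain ⟨rfl, n, hn⟩ := pt_eq_iff.1 (e1.symm.trans e1')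
  rw [pt_eq_iff]
  refine ⟨rfl, ?_⟩
  rcases hL with ⟨h0, h1, hy⟩ | ⟨rfl, h0, h1⟩
  · rcases hL' with ⟨h0', h1', hy'⟩ | ⟨rfl, h0', h1'⟩
    · obtain ⟨rfl, hm⟩ := lane_split h0 h1 h0' h1' hn
      exact ⟨n, by linarith⟩
    · have hn' : (m : ℝ) + s = ((m' + 1 : ℕ) : ℝ) + 0 + 2 * n := by push_cast; linarith
      obtain ⟨rfl, hm⟩ := lane_split h0 h1 le_rfl zero_lt_one hn'
      rw [gg_zero, gg_one]
      exact ⟨n, by push_cast at hn'; linarith⟩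
  · rcases hL' with ⟨h0', h1', hy'⟩ | ⟨rfl, h0', h1'⟩
    · have hn' : ((m + 1 : ℕ) : ℝ) + 0 = m' + s' + 2 * n := by push_cast; linarith
      obtain ⟨rfl, hm⟩ := lane_split le_rfl zero_lt_one h0' h1' hn'
      rw [gg_zero, gg_one]
      exact ⟨n, by push_cast at hn'; linarith⟩
    · exact ⟨n, by linarith⟩

theorem GD_uniq {z w w' : Zs} (h : (z, w) ∈ GD) (h' : (z, w') ∈ GD) : w = w' := by
  obtain ⟨⟨x, y⟩, ⟨⟨hx1, hx2⟩, _⟩, e⟩ := h
  obtain ⟨⟨x', y'⟩, ⟨⟨hx1', hx2'⟩, _⟩, e'⟩ := h'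
  simp only at hx1 hx2 hx1' hx2'
  rw [Prod.mk.injEq] at e e'
  obtain ⟨e1, rfl⟩ := e
  obtain ⟨e1', rfl⟩ := e'
  obtain ⟨rfl, rfl⟩ := pt_inj_of_lt (e1.trans e1'.symm) (by
    rw [abs_lt]; constructor <;> linarith)
  rfl

theorem FD_corner : FD (-2, 6) = PP (-1) := by
  unfold FD
  simp only
  rw [if_neg (by norm_num)]
  congr 1; norm_num

theorem GD_GP_uniq {z w w' : Zs} (h : (z, w) ∈ GD) (h' : (z, w') ∈ GP) : w = w' := by
  have hz := (GD_sub h).1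
  obtain ⟨t, ht, e⟩ := h'
  rw [EP, Prod.mk.injEq] at e
  obtain ⟨rfl, rfl⟩ := e
  have := DD_inter_PP ht hz
  subst this
  obtain ⟨⟨x, y⟩, ⟨⟨hx1, hx2⟩, _⟩, e⟩ := h
  rw [Prod.mk.injEq] at e
  obtain ⟨e1, rfl⟩ := e
  simp only at e1 hx1 hx2
  rw [PP_c2 (by norm_num) le_rfl] at e1
  obtain ⟨rfl, rfl⟩ := pt_inj_of_lt e1 (by rw [abs_lt]; constructor <;> linarith)
  have h1 : ((-4 : ℝ) - -2) = -2 := by norm_num
  rw [h1, FD_corner]
  congr 1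
  unfold phP
  rw [if_pos (by norm_num)]; norm_num

theorem GP_uniq {z w w' : Zs} (h : (z, w) ∈ GP) (h' : (z, w') ∈ GP) : w = w' := by
  obtain ⟨t, ht, e⟩ := h
  obtain ⟨t', ht', e'⟩ := h'
  rw [EP, Prod.mk.injEq] at e e'
  have h2 : (-2:ℝ) ≤ t := ht
  have h2' : (-2:ℝ) ≤ t' := ht'
  have := injOn_PP (show (-7:ℝ) ≤ t by linarith) (show (-7:ℝ) ≤ t' by linarith) (e.1.trans e'.1.symm)
  rw [← e.2, ← e'.2, this]

theorem GT_uniq {c : ℕ} (hc : c = 1 ∨ c = 2) {z w w' : Zs} (h : (z, w) ∈ GT c)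
    (h' : (z, w') ∈ GT c) : w = w' := by
  obtain ⟨t, ht, e⟩ := h
  obtain ⟨t', ht', e'⟩ := h'
  rw [ET, Prod.mk.injEq] at e e'
  have := (TT_inj hc hc (e.1.trans e'.1.symm)).2
  rw [← e.2, ← e'.2, this]

theorem TS12_disj {z : Zs} (h1 : z ∈ TS 1) (h2 : z ∈ TS 2) : False := by
  obtain ⟨t, _, rfl⟩ := h1
  obtain ⟨t', _, e⟩ := h2
  have := (TT_inj (Or.inr rfl) (Or.inl rfl) e).1
  omega

theorem TS_MM {c : ℕ} (hc : c = 1 ∨ c = 2) {z : Zs} (h1 : z ∈ TS c) (h2 : z ∈ MM) : False := by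
  obtain ⟨t, _, rfl⟩ := h1
  exact TT_not_mem_MM hc t h2

theorem TS_DD {c : ℕ} {z : Zs} (h1 : z ∈ TS c) (h2 : z ∈ DD) : False := by
  obtain ⟨t, _, rfl⟩ := h1
  exact DD_inter_TT t h2

theorem PS_TS {c : ℕ} (hc : c = 1 ∨ c = 2) {z : Zs} (h1 : z ∈ PS) (h2 : z ∈ TS c) : False := by
  obtain ⟨t, ht, rfl⟩ := h1
  obtain ⟨t', _, e⟩ := h2
  exact PP_ne_TT hc ht e.symm

theorem PS_MM {z : Zs} (h1 : z ∈ PS) (h2 : z ∈ MM) : False := by
  obtain ⟨t, ht, rfl⟩ := h1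
  exact PP_not_mem_MM ht h2

theorem GG_uniq (z w w' : Zs) (h : (z, w) ∈ GG) (h' : (z, w') ∈ GG) : w = w' := by
  have one : (1 : ℕ) = 1 ∨ (1 : ℕ) = 2 := Or.inl rfl
  have two : (2 : ℕ) = 1 ∨ (2 : ℕ) = 2 := Or.inr rfl
  rcases h with (h | (h | (h | h))) | h <;> rcases h' with (h' | (h' | (h' | h'))) | h'
  · exact GD_uniq h h'
  · exact GD_GP_uniq h h'
  · exact (TS_DD (GT_sub _ h').1 (GD_sub h).1).elim
  · exact (TS_DD (GT_sub _ h').1 (GD_sub h).1).elim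
  · exact (DD_disj_MM _ (GD_sub h).1 (GM_sub h').1).elim
  · exact (GD_GP_uniq h' h).symm
  · exact GP_uniq h h'
  · exact (PS_TS one (PS2_sub (GP_sub h).1) (GT_sub _ h').1).elim
  · exact (PS_TS two (PS2_sub (GP_sub h).1) (GT_sub _ h').1).elim
  · exact (PS_MM (PS2_sub (GP_sub h).1) (GM_sub h').1).elim
  · exact (TS_DD (GT_sub _ h).1 (GD_sub h').1).elim
  · exact (PS_TS one (PS2_sub (GP_sub h').1) (GT_sub _ h).1).elim
  · exact GT_uniq one h h'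
  · exact (TS12_disj (GT_sub _ h).1 (GT_sub _ h').1).elim
  · exact (TS_MM one (GT_sub _ h).1 (GM_sub h').1).elim
  · exact (TS_DD (GT_sub _ h).1 (GD_sub h').1).elim
  · exact (PS_TS two (PS2_sub (GP_sub h').1) (GT_sub _ h).1).elim
  · exact (TS12_disj (GT_sub _ h').1 (GT_sub _ h).1).elim
  · exact GT_uniq two h h'
  · exact (TS_MM two (GT_sub _ h).1 (GM_sub h').1).elim
  · exact (DD_disj_MM _ (GD_sub h').1 (GM_sub h).1).elim
  · exact (PS_MM (PS2_sub (GP_sub h').1) (GM_sub h).1).elim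
  · exact (TS_MM one (GT_sub _ h').1 (GM_sub h).1).elim
  · exact (TS_MM two (GT_sub _ h').1 (GM_sub h).1).elim
  · exact GM_uniq h h'

/-! ### no fixed points -/

theorem GM_ne {z : Zs} (h : (z, z) ∈ GM) : False := by
  obtain ⟨m, s, y, hL, e⟩ := h
  rw [Prod.mk.injEq] at e
  obtain ⟨_, n, hn⟩ := pt_eq_iff.1 (e.1.symm.trans e.2)
  have h1 := le_gg hL.s0 hL.s1
  have h2 := gg_sub hL.s0 hL.s1
  have h3 : ((-2 * n : ℤ) : ℝ) = 1 + (gg s - s) := by push_cast; linarith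
  have h4 : (1 : ℝ) ≤ ((-2 * n : ℤ) : ℝ) := by rw [h3]; linarith
  have h5 : ((-2 * n : ℤ) : ℝ) < 2 := by rw [h3]; linarith
  have h4' : 1 ≤ -2 * n := by exact_mod_cast h4
  have h5' : -2 * n < 2 := by exact_mod_cast h5
  omega

theorem GG_ne {z : Zs} (h : (z, z) ∈ GG) : False := by
  rcases h with (h | (h | (h | h))) | h
  · obtain ⟨p, hp, e⟩ := h
    rw [Prod.mk.injEq] at e
    exact FD_ne hp (e.2.trans e.1.symm)
  · obtain ⟨t, ht, e⟩ := h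
    rw [EP, Prod.mk.injEq] at e
    have h2 : (-2:ℝ) ≤ t := ht
    have h3 := lt_phP t
    have := injOn_PP (show (-7:ℝ) ≤ t by linarith) (show (-7:ℝ) ≤ phP t by linarith)
      (e.1.trans e.2.symm)
    linarith
  · obtain ⟨t, _, e⟩ := h
    rw [ET, Prod.mk.injEq] at e
    have := (TT_inj (Or.inl rfl) (sig_cases (Or.inl rfl)).1 (e.1.trans e.2.symm)).1
    exact (sig_cases (Or.inl rfl)).2 this.symm
  · obtain ⟨t, _, e⟩ := h
    rw [ET, Prod.mk.injEq] at e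
    have := (TT_inj (Or.inr rfl) (sig_cases (Or.inr rfl)).1 (e.1.trans e.2.symm)).1
    exact (sig_cases (Or.inr rfl)).2 this.symm
  · exact GM_ne h

theorem exists_map : ∃ f : Zs → Zs, ContinuousOn f (DD ∪ KK) ∧ MapsTo f (DD ∪ KK) (DD ∪ KK) ∧
    ∀ z ∈ DD ∪ KK, f z ≠ z := by
  classical
  choose! f hf using (fun z (hz : z ∈ DD ∪ KK) => GG_total hz)
  refine ⟨f, continuousOn_of_graph isCompact_GG hf GG_uniq, ?_, ?_⟩
  · intro z hz
    exact (GG_sub (hf z hz)).2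
  · intro z hz e
    have := hf z hz
    rw [e] at this
    exact GG_ne this

/-! ### connectedness of `KK` -/

theorem isConnected_PS_MM : IsConnected (PS ∪ MM) := by
  have h1 : IsConnected PS := isConnected_Ici.image _ continuous_PP.continuousOn
  apply h1.subset_closure subset_union_left
  rintro z (hz | hz)
  · exact subset_closure hz
  · rw [mem_closure_iff_nhds]
    intro U hU
    obtain ⟨t, ht, ht2⟩ := (frequently_atTop.1 ((mapClusterPt_iff_frequently.1 (cluster_PP hz)) U hU)) 0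
    exact ⟨PP t, ht2, ⟨t, show (-7:ℝ) ≤ t by linarith, rfl⟩⟩

theorem isConnected_TS {c : ℕ} (hc : c = 1 ∨ c = 2) : IsConnected (TS c ∪ MM) := by
  have h1 : IsConnected (TS c) := isConnected_univ.image _ (continuous_TT hc).continuousOn
  apply h1.subset_closure subset_union_left
  rintro z (hz | hz)
  · exact subset_closure hz
  · rw [mem_closure_iff_nhds]
    intro U hU
    obtain ⟨t, ht, ht2⟩ := (frequently_atTop.1 ((mapClusterPt_iff_frequently.1 (cluster_TT c hz)) U hU)) 0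
    exact ⟨TT c t, ht2, ⟨t, mem_univ _, rfl⟩⟩

theorem MM_nonempty : MM.Nonempty := ⟨pt ((0:ℕ) + 1) 0, 0, 1, 0, Or.inr ⟨rfl, le_rfl, zero_le_one⟩, rfl⟩

theorem isConnected_KK : IsConnected KK := by
  have e : KK = (PS ∪ MM) ∪ ((TS 1 ∪ MM) ∪ (TS 2 ∪ MM)) := by
    unfold KK
    ext z
    simp only [mem_union]
    tauto
  obtain ⟨q, hq⟩ := MM_nonempty
  rw [e]
  apply IsConnected.union _ isConnected_PS_MM
  · apply IsConnected.union _ (isConnected_TS (Or.inl rfl)) (isConnected_TS (Or.inr rfl))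
    exact ⟨q, Or.inr hq, Or.inr hq⟩
  · exact ⟨q, Or.inr hq, Or.inl (Or.inr hq)⟩

end Pool.Agent.H741.Bing
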