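import Pool.Agent.H741.Bing.Limits

/-!
Path components of the continuum `KK`.
-/

set_option autoImplicit false

open Set Filter Topology Metric

namespace Pool.Agent.H741.Bing

theorem pc_RR (i : ℕ) : ∀ (γ : ℝ → Zs) (a b : ℝ), a < b → ContinuousOn γ (Icc a b) →
    (∀ t ∈ Ico a b, γ t ∈ RR i) → γ b ∈ RR i := by
  intro γ a b hab hγ h
  exact pathClosed isClosed_Ici (continuous_rr' i).continuousOn (injOn_rr' i)
    (isCompact_CC (i + 1)).isClosed (RR_disj_CC i) (tends_rr' i) (osc_rr' i)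
    (Or.inl ⟨-1, fun t ht => ht⟩) hab hγ h

theorem pc_PS : ∀ (γ : ℝ → Zs) (a b : ℝ), a < b → ContinuousOn γ (Icc a b) →
    (∀ t ∈ Ico a b, γ t ∈ PS) → γ b ∈ PS := by
  intro γ a b hab hγ h
  refine pathClosed isClosed_Ici continuous_PP.continuousOn injOn_PP
    isCompact_MM.isClosed (fun t ht => PP_not_mem_MM ht) tends_PP ?_
    (Or.inl ⟨-7, fun t ht => ht⟩) hab hγ h
  refine ⟨1, one_pos, fun N => ?_⟩
  obtain ⟨n, hn⟩ := exists_nat_ge N
  have h0 : (0:ℝ) ≤ n := Nat.cast_nonneg n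
  refine ⟨2 * n, by simp only [mem_Ici]; linarith, 2 * n + 1, by simp only [mem_Ici]; linarith,
    by linarith, by linarith, ?_⟩
  rw [PP_of_nonneg (by linarith), PP_of_nonneg (by linarith)]
  exact one_le_dist_pt _ _ _

theorem pc_TS {c : ℕ} (hc : c = 1 ∨ c = 2) : ∀ (γ : ℝ → Zs) (a b : ℝ), a < b →
    ContinuousOn γ (Icc a b) → (∀ t ∈ Ico a b, γ t ∈ TS c) → γ b ∈ TS c := by
  intro γ a b hab hγ h
  refine pathClosed isClosed_univ (continuous_TT hc).continuousOn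
    (fun t _ t' _ h => (TT_inj hc hc h).2)
    (isCompact_MM.isClosed.union (isCompact_JJ c).isClosed)
    (fun t _ h => h.elim (TT_not_mem_MM hc t) (TT_not_mem_JJ hc t)) (tends_TT hc) ?_
    (Or.inr ?_) hab hγ h
  · refine ⟨1, one_pos, fun N => ?_⟩
    obtain ⟨n, hn⟩ := exists_nat_ge N
    have h0 : (0:ℝ) ≤ n := Nat.cast_nonneg n
    refine ⟨2 * n, mem_univ _, 2 * n + 1, mem_univ _, by linarith, by linarith, ?_⟩
    rw [TT_of_nonneg c (by linarith), TT_of_nonneg c (by linarith)]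
    exact one_le_dist_pt _ _ _
  · refine ⟨1, one_pos, fun N => ?_⟩
    obtain ⟨n, hn⟩ := exists_nat_ge (-N)
    have h0 : (0:ℝ) ≤ n := Nat.cast_nonneg n
    refine ⟨-((n + 1 : ℕ) : ℝ), mem_univ _, -(((n + 1 : ℕ) : ℝ) + 1 / 2), mem_univ _,
      by push_cast; linarith, by push_cast; linarith, ?_⟩
    rw [TT_of_le c (by push_cast; linarith), TT_of_le c (by push_cast; linarith)]
    refine le_trans ?_ (abs_sub_le_dist_pt _ _ _ _)
    have w1 : W (-((n + 1 : ℕ) : ℝ)) = 1 := by rw [W_neg, W_nat]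
    have w2 : W (-(((n + 1 : ℕ) : ℝ) + 1 / 2)) = 0 := by rw [W_neg, W_half]
    unfold jj
    rw [w1, w2]
    split_ifs <;> norm_num

theorem TS_disj {c : ℕ} (hc : c = 1 ∨ c = 2) : ∀ z ∈ TS c, z ∉ PS ∪ MM := by
  rintro z ⟨t, _, rfl⟩ (⟨t', ht', h⟩ | h)
  · exact PP_ne_TT hc ht' h
  · exact TT_not_mem_MM hc t h

theorem PS_disj_MM : ∀ z ∈ PS, z ∉ MM := by
  rintro z ⟨t, ht, rfl⟩ h
  exact PP_not_mem_MM ht h

theorem TS_open {c : ℕ} (hc : c = 1 ∨ c = 2) : ∃ U : Set Zs, IsOpen U ∧ TS c = KK ∩ U := by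
  obtain ⟨c', hc', hne, hall⟩ : ∃ c', (c' = 1 ∨ c' = 2) ∧ c ≠ c' ∧
      (∀ z, z ∈ TS 1 ∨ z ∈ TS 2 → z ∈ TS c ∨ z ∈ TS c') := by
    rcases hc with rfl | rfl
    · exact ⟨2, Or.inr rfl, by norm_num, fun z h => h⟩
    · exact ⟨1, Or.inl rfl, by norm_num, fun z h => h.symm⟩
  refine ⟨((PS ∪ MM) ∪ (TS c' ∪ (MM ∪ JJ c')))ᶜ,
    (isClosed_PS_union.union (isClosed_TS_union hc')).isOpen_compl, ?_⟩
  apply Subset.antisymm
  · intro z hz
    refine ⟨TS_sub hc hz, ?_⟩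
    rintro (h | (h | h | h))
    · exact TS_disj hc z hz h
    · obtain ⟨t, _, rfl⟩ := hz
      obtain ⟨t', _, h⟩ := h
      exact hne (TT_inj hc hc' h.symm).1
    · exact TS_disj hc z hz (Or.inr h)
    · obtain ⟨t, _, rfl⟩ := hz
      exact TT_not_mem_JJ hc t h
  · rintro z ⟨hz, hU⟩
    simp only [mem_compl_iff, mem_union, not_or] at hU
    rcases hz with (hz | hz) | hz
    · exact absurd hz hU.1.1
    · exact (hall z hz).resolve_right hU.2.1
    · exact absurd hz hU.1.2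

theorem inv_TS {c : ℕ} (hc : c = 1 ∨ c = 2) : Inv KK (TS c) := by
  obtain ⟨U, hU, e⟩ := TS_open hc
  exact inv_of_open hU e (fun γ a b hab hγ _ h => pc_TS hc γ a b hab hγ h)

theorem inv_PS : Inv KK PS := by
  intro γ a b hab hγ hK ha
  have h1 : ∀ c, (c = 1 ∨ c = 2) → ∀ t ∈ Icc a b, γ t ∉ TS c := by
    intro c hc t ht h
    have := ((inv_TS hc).iff hab hγ hK ht (left_mem_Icc.2 hab)).1 h
    exact TS_disj hc _ this (Or.inl ha)
  have hK' : ∀ t ∈ Icc a b, γ t ∈ PS ∪ MM := by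
    intro t ht
    rcases hK t ht with (h | h | h) | h
    · exact Or.inl h
    · exact absurd h (h1 1 (Or.inl rfl) t ht)
    · exact absurd h (h1 2 (Or.inr rfl) t ht)
    · exact Or.inr h
  have hinv : Inv (PS ∪ MM) PS := by
    apply inv_of_open (U := MMᶜ) isCompact_MM.isClosed.isOpen_compl
    · ext z
      simp only [mem_inter_iff, mem_union, mem_compl_iff]
      constructor
      · intro h; exact ⟨Or.inl h, PS_disj_MM z h⟩
      · rintro ⟨h1 | h1, h2⟩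
        · exact h1
        · exact absurd h1 h2
    · intro γ a b hab hγ _ h
      exact pc_PS γ a b hab hγ h
  exact hinv γ a b hab hγ hK' ha

theorem inv_MM_RR (i : ℕ) : Inv MM (RR i) := by
  have e : RR i ∪ CC (i + 1) = RR i ∪ CC (i + 1) := rfl
  have h2 : CC (i + 1 + 1) = CC i := by
    rw [show i + 1 + 1 = i + 2 * 1 by ring, CC_add_two]
  apply twoCore (S2 := RR (i + 1)) (C1 := CC i) (C2 := CC (i + 1))
  · rw [MM_eq_union' i]
  · exact RR_disjoint i
  · exact (isCompact_CC i).isClosed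
  · exact (isCompact_CC (i + 1)).isClosed
  · exact CC_disjoint i
  · exact isClosed_RR_union i
  · have := isClosed_RR_union (i + 1)
    rwa [h2] at this
  · exact pc_RR i
  · exact pc_RR (i + 1)

theorem inv_RR (i : ℕ) : Inv KK (RR i) := by
  intro γ a b hab hγ hK ha
  have haM : γ a ∈ MM := RR_subset_MM i ha
  have h1 : ∀ c, (c = 1 ∨ c = 2) → ∀ t ∈ Icc a b, γ t ∉ TS c := by
    intro c hc t ht h
    have := ((inv_TS hc).iff hab hγ hK ht (left_mem_Icc.2 hab)).1 h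
    exact TS_disj hc _ this (Or.inr haM)
  have h2 : ∀ t ∈ Icc a b, γ t ∉ PS := by
    intro t ht h
    have := (inv_PS.iff hab hγ hK ht (left_mem_Icc.2 hab)).1 h
    exact PS_disj_MM _ this haM
  have hK' : ∀ t ∈ Icc a b, γ t ∈ MM := by
    intro t ht
    rcases hK t ht with (h | h | h) | h
    · exact absurd h (h2 t ht)
    · exact absurd h (h1 1 (Or.inl rfl) t ht)
    · exact absurd h (h1 2 (Or.inr rfl) t ht)
    · exact h
  exact inv_MM_RR i γ a b hab hγ hK' ha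

/-- the image of an interval under a continuous map to `KK` lies in one of the five pieces -/
theorem comp_cases {S : Set ℝ} (hS : S.OrdConnected) (hne : S.Nonempty) {γ : ℝ → Zs}
    (hγ : ContinuousOn γ S) (hK : ∀ t ∈ S, γ t ∈ KK) :
    (∀ t ∈ S, γ t ∈ PS) ∨ (∀ t ∈ S, γ t ∈ TS 1) ∨ (∀ t ∈ S, γ t ∈ TS 2) ∨
      (∀ t ∈ S, γ t ∈ RR 0) ∨ (∀ t ∈ S, γ t ∈ RR 1) := by
  obtain ⟨t0, ht0⟩ := hne
  have key : ∀ C : Set Zs, Inv KK C → γ t0 ∈ C → ∀ t ∈ S, γ t ∈ C := by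
    intro C hC h0 t ht
    rcases le_total t0 t with h | h
    · have hsub : Icc t0 t ⊆ S := hS.out ht0 ht
      exact hC γ t0 t h (hγ.mono hsub) (fun s hs => hK s (hsub hs)) h0
    · have hsub : Icc t t0 ⊆ S := hS.out ht ht0
      exact hC.rev h (hγ.mono hsub) (fun s hs => hK s (hsub hs)) h0
  rcases KK_cases (hK t0 ht0) with h | h | h | h | h
  · exact Or.inl (key _ inv_PS h)
  · exact Or.inr (Or.inl (key _ (inv_TS (Or.inl rfl)) h))
  · exact Or.inr (Or.inr (Or.inl (key _ (inv_TS (Or.inr rfl)) h)))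
  · exact Or.inr (Or.inr (Or.inr (Or.inl (key _ (inv_RR 0) h))))
  · exact Or.inr (Or.inr (Or.inr (Or.inr (key _ (inv_RR 1) h))))

end Pool.Agent.H741.Bing
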