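import Pool.Agent.H741.Bing.Map2
import Pool.Agent.H741.Bing.FPP

/-!
Transfer to the Euclidean plane.
-/

set_option autoImplicit false

open Set Filter Topology Metric Bornology

namespace Pool.Agent.H741.Bing

/-! ### Compact images -/

theorem homeoImage {X Y : Type*} [TopologicalSpace X] [TopologicalSpace Y] [T2Space Y] {S : Set X}
    (hS : IsCompact S) {f : X → Y} (hf : ContinuousOn f S) (hinj : InjOn f S) :
    ∃ h : S ≃ₜ (f '' S : Set Y), ∀ x : S, (h x : Y) = f x := by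
  have : CompactSpace S := isCompact_iff_compactSpace.1 hS
  have hc : Continuous (Equiv.Set.imageOfInjOn f S hinj) := by
    apply Continuous.subtype_mk
    exact continuousOn_iff_continuous_domRestrict.1 hf
  exact ⟨hc.homeoOfEquivCompactToT2, fun x => rfl⟩

/-- fixed points for self-maps of a compact set transfer to homeomorphic images -/
theorem fpp_transfer {X Y : Type*} [TopologicalSpace X] {S : Set X} [TopologicalSpace Y]
    {T : Set Y} (h : S ≃ₜ T)
    (hfix : ∀ g : X → X, ContinuousOn g S → MapsTo g S S → ∃ z ∈ S, g z = z) :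
    ∀ f : C(↥T, ↥T), ∃ x, f x = x := by
  classical
  intro f
  set k : S → S := fun z => h.symm (f (h z)) with hk
  have hkc : Continuous k := h.symm.continuous.comp (f.continuous.comp h.continuous)
  obtain ⟨z, hz, e⟩ := hfix (fun z => if hz : z ∈ S then (k ⟨z, hz⟩ : X) else z) (by
    rw [continuousOn_iff_continuous_domRestrict]
    have : (S.domRestrict fun z => if hz : z ∈ S then (k ⟨z, hz⟩ : X) else z) =
        fun z => (k z : X) := by
      funext z
      rw [Set.domRestrict_apply, dif_pos z.2]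
    rw [this]
    exact continuous_subtype_val.comp hkc) (by
    intro z hz
    simp only [hz, dite_true]
    exact (k ⟨z, hz⟩).2)
  simp only [hz, dite_true] at e
  have e1 : k ⟨z, hz⟩ = ⟨z, hz⟩ := Subtype.ext e
  refine ⟨h ⟨z, hz⟩, ?_⟩
  have e2 : h (k ⟨z, hz⟩) = h ⟨z, hz⟩ := by rw [e1]
  rw [hk] at e2
  simpa using e2

theorem nofpp_transfer {X Y : Type*} [TopologicalSpace X] {S : Set X} [TopologicalSpace Y]
    {T : Set Y} (h : S ≃ₜ T) {f : X → X} (hf : ContinuousOn f S) (hm : MapsTo f S S)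
    (hne : ∀ z ∈ S, f z ≠ z) : ¬ (∀ f : C(↥T, ↥T), ∃ x, f x = x) := by
  intro hall
  have hc : Continuous (hm.restrict f S S) := by
    apply Continuous.subtype_mk
    exact continuousOn_iff_continuous_domRestrict.1 hf
  obtain ⟨x, hx⟩ := hall ⟨fun y => h (hm.restrict f S S (h.symm y)),
    h.continuous.comp (hc.comp h.symm.continuous)⟩
  have hx' : h (hm.restrict f S S (h.symm x)) = x := hx
  have e1 : hm.restrict f S S (h.symm x) = h.symm x := by
    have := congrArg h.symm hx'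
    rwa [h.symm_apply_apply] at this
  apply hne _ (h.symm x).2
  have := congrArg Subtype.val e1
  exact this

/-! ### The plane embedding of the cylinder -/

abbrev E2 := EuclideanSpace ℝ (Fin 2)

noncomputable def Phi (p : Zs) : E2 :=
  Complex.orthonormalBasisOneI.repr (Real.exp p.2 • p.1)

def Cyl : Set Zs := {p | ‖p.1‖ = 1}

theorem continuous_Phi : Continuous Phi := by
  unfold Phi
  apply (Complex.orthonormalBasisOneI.repr).continuous.comp
  exact (Real.continuous_exp.comp continuous_snd).smul continuous_fst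

theorem injOn_Phi : InjOn Phi Cyl := by
  rintro ⟨z, y⟩ hz ⟨z', y'⟩ hz' e
  have hz1 : ‖z‖ = 1 := hz
  have hz1' : ‖z'‖ = 1 := hz'
  have e1 : Real.exp y • z = Real.exp y' • z' := Complex.orthonormalBasisOneI.repr.injective e
  have e2 := congrArg norm e1
  rw [norm_smul, norm_smul, hz1, hz1', mul_one, mul_one, Real.norm_eq_abs, Real.norm_eq_abs,
    Real.abs_exp, Real.abs_exp] at e2
  have e3 : y = y' := Real.exp_injective e2
  subst e3
  have e4 : z = z' := smul_right_injective ℂ (Real.exp_pos y).ne' e1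
  rw [e4]

theorem pt_mem_Cyl (x y : ℝ) : pt x y ∈ Cyl := norm_pt_fst x y

theorem DD_Cyl : DD ⊆ Cyl := by
  rintro z ⟨p, _, rfl⟩
  exact pt_mem_Cyl _ _

theorem KK_Cyl : KK ⊆ Cyl := by
  rintro z ((⟨t, ht, rfl⟩ | ⟨t, _, rfl⟩ | ⟨t, _, rfl⟩) | ⟨m, s, y, hL, rfl⟩)
  · exact pt_mem_Cyl _ _
  · exact pt_mem_Cyl _ _
  · exact pt_mem_Cyl _ _
  · exact pt_mem_Cyl _ _

/-! ### The square is a disk -/

def SQ : Set E2 := {v | v 0 ∈ Icc (-2 : ℝ) (-1) ∧ v 1 ∈ Icc (2 : ℝ) 6}

theorem SQ_eq : SQ = (fun p : ℝ × ℝ => (!₂[p.1, p.2] : E2)) '' (Icc (-2) (-1) ×ˢ Icc 2 6) := by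
  ext v
  constructor
  · rintro ⟨h0, h1⟩
    refine ⟨(v 0, v 1), ⟨h0, h1⟩, ?_⟩
    ext i
    fin_cases i <;> simp
  · rintro ⟨p, ⟨h0, h1⟩, rfl⟩
    refine ⟨?_, ?_⟩
    · simpa using h0
    · simpa using h1

theorem isCompact_SQ : IsCompact SQ := by
  rw [SQ_eq]
  apply (isCompact_Icc.prod isCompact_Icc).image
  apply (PiLp.continuous_toLp 2 (fun _ : Fin 2 => ℝ)).comp
  apply continuous_pi
  intro i
  fin_cases i
  · exact continuous_fst
  · exact continuous_snd

theorem convex_SQ : Convex ℝ SQ := by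
  intro v hv w hw a b ha hb hab
  obtain ⟨⟨h1, h2⟩, ⟨h3, h4⟩⟩ := hv
  obtain ⟨⟨k1, k2⟩, ⟨k3, k4⟩⟩ := hw
  have hb' : b = 1 - a := by linarith
  subst hb'
  refine ⟨⟨?_, ?_⟩, ⟨?_, ?_⟩⟩ <;> simp only [PiLp.add_apply, PiLp.smul_apply, smul_eq_mul] <;>
    nlinarith

theorem interior_SQ : (interior SQ).Nonempty := by
  have hopen : IsOpen {v : E2 | v 0 ∈ Ioo (-2 : ℝ) (-1) ∧ v 1 ∈ Ioo (2 : ℝ) 6} := by
    apply IsOpen.inter
    · exact isOpen_Ioo.preimage (by fun_prop : Continuous (fun v : E2 => v 0))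
    · exact isOpen_Ioo.preimage (by fun_prop : Continuous (fun v : E2 => v 1))
  refine ⟨!₂[-3/2, 4], ?_⟩
  rw [mem_interior]
  refine ⟨_, ?_, hopen, ?_⟩
  · rintro v ⟨h1, h2⟩
    exact ⟨Ioo_subset_Icc_self h1, Ioo_subset_Icc_self h2⟩
  · refine ⟨?_, ?_⟩ <;> norm_num

theorem SQ_homeo_ball : Nonempty (SQ ≃ₜ (closedBall (0 : E2) 1 : Set E2)) := by
  obtain ⟨h, _, h2, _⟩ := exists_homeomorph_image_interior_closure_frontier_eq_unitBall convex_SQ
    interior_SQ isCompact_SQ.isBounded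
  rw [isCompact_SQ.isClosed.closure_eq] at h2
  exact ⟨(h.image SQ).trans (Homeomorph.setCongr h2)⟩

theorem DD_homeo_ball :
    Nonempty ((Phi '' DD : Set E2) ≃ₜ (closedBall (0 : E2) 1 : Set E2)) := by
  have e : Phi '' DD = (fun v : E2 => Phi (pt (v 0) (v 1))) '' SQ := by
    unfold DD
    rw [SQ_eq, image_image, image_image]
    simp
  obtain ⟨h, _⟩ := homeoImage (f := fun v : E2 => Phi (pt (v 0) (v 1))) isCompact_SQ
    (continuous_Phi.comp (Continuous.pt' (by fun_prop) (by fun_prop))).continuousOn (by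
      rintro v ⟨⟨h1, h2⟩, _⟩ w ⟨⟨k1, k2⟩, _⟩ e
      have e1 := injOn_Phi (pt_mem_Cyl _ _) (pt_mem_Cyl _ _) e
      obtain ⟨e2, e3⟩ := pt_inj_of_lt e1 (by rw [abs_lt]; constructor <;> linarith)
      ext i
      fin_cases i
      · exact e2
      · exact e3)
  obtain ⟨k⟩ := SQ_homeo_ball
  exact ⟨(Homeomorph.setCongr e).trans (h.symm.trans k)⟩

theorem arc_homeo :
    Nonempty ((Phi '' DD ∩ Phi '' KK : Set E2) ≃ₜ (Icc (0 : ℝ) 1 : Set ℝ)) := by
  have e : Phi '' DD ∩ Phi '' KK = (fun t : ℝ => Phi (PP (5 * t - 7))) '' Icc 0 1 := by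
    rw [← injOn_Phi.image_inter DD_Cyl KK_Cyl, DD_inter_KK, image_image]
    ext z
    constructor
    · rintro ⟨t, ⟨h1, h2⟩, rfl⟩
      refine ⟨(t + 7) / 5, ⟨by linarith, by linarith⟩, ?_⟩
      simp only
      congr 2
      ring
    · rintro ⟨t, ⟨h1, h2⟩, rfl⟩
      exact ⟨5 * t - 7, ⟨by linarith, by linarith⟩, rfl⟩
  obtain ⟨h, _⟩ := homeoImage (f := fun t : ℝ => Phi (PP (5 * t - 7))) (S := Icc 0 1) isCompact_Icc
    (continuous_Phi.comp (continuous_PP.comp (by fun_prop))).continuousOn (by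
      rintro t ⟨h1, h2⟩ t' ⟨k1, k2⟩ e
      have e1 := injOn_Phi (pt_mem_Cyl _ _) (pt_mem_Cyl _ _) e
      have e2 := injOn_PP (show (-7:ℝ) ≤ 5 * t - 7 by linarith)
        (show (-7:ℝ) ≤ 5 * t' - 7 by linarith) e1
      linarith)
  exact ⟨(Homeomorph.setCongr e).trans h.symm⟩

theorem main :
    ∃ D K : Set (EuclideanSpace ℝ (Fin 2)),
      Nonempty (↥D ≃ₜ ↥(Metric.closedBall (0 : EuclideanSpace ℝ (Fin 2)) 1)) ∧
      IsCompact K ∧ IsConnected K ∧
      (∀ f : C(↥K, ↥K), ∃ x, f x = x) ∧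
      Nonempty (↥(D ∩ K) ≃ₜ ↥(Set.Icc (0 : ℝ) 1)) ∧
      ¬ (∀ f : C(↥(D ∪ K), ↥(D ∪ K)), ∃ x, f x = x) := by
  refine ⟨Phi '' DD, Phi '' KK, DD_homeo_ball, isCompact_KK.image continuous_Phi,
    isConnected_KK.image _ continuous_Phi.continuousOn, ?_, arc_homeo, ?_⟩
  · obtain ⟨h, _⟩ := homeoImage isCompact_KK continuous_Phi.continuousOn (injOn_Phi.mono KK_Cyl)
    exact fpp_transfer h (fun g hg hm => fpp_KK hg hm)
  · rw [← image_union]
    obtain ⟨f, hf, hm, hne⟩ := exists_map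
    obtain ⟨h, _⟩ := homeoImage (isCompact_DD.union isCompact_KK) continuous_Phi.continuousOn
      (injOn_Phi.mono (union_subset DD_Cyl KK_Cyl))
    exact nofpp_transfer h hf hm hne

end Pool.Agent.H741.Bing
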