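import Mathlib

/-!
General topological lemmas about rays and lines with limit sets in a metric space.
-/

set_option autoImplicit false

open Set Filter Topology Metric

namespace Pool.Agent.H741.Bing

variable {Z : Type*} [MetricSpace Z]

/-- As `|t| → ∞` in `S`, the point `E t` approaches the set `L`. -/
def Tends (S : Set ℝ) (E : ℝ → Z) (L : Set Z) : Prop :=
  ∀ ε > 0, ∃ N : ℝ, ∀ t ∈ S, N ≤ |t| → ∃ q ∈ L, dist (E t) q < ε

theorem isClosed_image_union {S : Set ℝ} (hS : IsClosed S) {E : ℝ → Z} (hE : ContinuousOn E S)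
    {L : Set Z} (hL : IsClosed L) (ht : Tends S E L) : IsClosed (E '' S ∪ L) := by
  rw [← isOpen_compl_iff, Metric.isOpen_iff]
  intro z hz
  simp only [mem_compl_iff, mem_union, not_or] at hz
  obtain ⟨hz1, hz2⟩ := hz
  obtain ⟨ε, hε, hball⟩ := Metric.isOpen_iff.1 hL.isOpen_compl z hz2
  obtain ⟨N, hN⟩ := ht (ε/2) (by positivity)
  have hcomp : IsCompact (S ∩ Icc (-N) N) := (isCompact_Icc.inter_left hS)
  have hcl : IsClosed (E '' (S ∩ Icc (-N) N)) :=
    (hcomp.image_of_continuousOn (hE.mono inter_subset_left)).isClosed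
  have hz3 : z ∉ E '' (S ∩ Icc (-N) N) := fun h => hz1 (image_mono inter_subset_left h)
  obtain ⟨δ, hδ, hball2⟩ := Metric.isOpen_iff.1 hcl.isOpen_compl z hz3
  refine ⟨min δ (ε/2), by positivity, ?_⟩
  intro w hw
  simp only [mem_ball, lt_min_iff] at hw
  simp only [mem_compl_iff, mem_union, not_or]
  constructor
  · rintro ⟨t, htS, rfl⟩
    by_cases htN : N ≤ |t|
    · obtain ⟨q, hq, hq2⟩ := hN t htS htN
      have : q ∈ ball z ε := by
        rw [mem_ball]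
        calc dist q z ≤ dist q (E t) + dist (E t) z := dist_triangle _ _ _
          _ < ε/2 + ε/2 := by rw [dist_comm q]; linarith [hw.2]
          _ = ε := by ring
      exact hball this hq
    · exact hball2 (mem_ball.2 hw.1) ⟨t, ⟨htS, abs_le.1 (le_of_not_ge htN)⟩, rfl⟩
  · intro hwL
    exact hball (mem_ball.2 (by linarith [hw.2])) hwL

theorem lift_continuousOn {S : Set ℝ} (hS : IsClosed S) {E : ℝ → Z} (hE : ContinuousOn E S)
    (inj : InjOn E S) {L : Set Z} (hL : IsClosed L) (hd : ∀ t ∈ S, E t ∉ L) (ht : Tends S E L)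
    {T : Type*} [TopologicalSpace T] {A : Set T} {γ : T → Z} (hγ : ContinuousOn γ A)
    {u : T → ℝ} (hu : ∀ a ∈ A, u a ∈ S ∧ E (u a) = γ a) : ContinuousOn u A := by
  intro a ha
  rw [ContinuousWithinAt, Metric.tendsto_nhds]
  intro δ hδ
  have h0 := hu a ha
  have hz2 : γ a ∉ L := h0.2 ▸ hd _ h0.1
  obtain ⟨ε, hε, hball⟩ := Metric.isOpen_iff.1 hL.isOpen_compl _ hz2
  obtain ⟨N, hN⟩ := ht (ε/2) (by positivity)
  have hcomp : IsCompact ((S ∩ Icc (-N) N) \ ball (u a) δ) :=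
    (isCompact_Icc.inter_left hS).diff isOpen_ball
  have hcl : IsClosed (E '' ((S ∩ Icc (-N) N) \ ball (u a) δ)) :=
    (hcomp.image_of_continuousOn (hE.mono (diff_subset.trans inter_subset_left))).isClosed
  have hna : γ a ∉ E '' ((S ∩ Icc (-N) N) \ ball (u a) δ) := by
    rintro ⟨t, ⟨⟨htS, _⟩, hnb⟩, hEt⟩
    have := inj htS h0.1 (hEt.trans h0.2.symm)
    subst this
    exact hnb (mem_ball_self hδ)
  have ev1 : ∀ᶠ x in 𝓝[A] a, γ x ∈ (E '' ((S ∩ Icc (-N) N) \ ball (u a) δ))ᶜ :=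
    (hγ a ha).eventually (hcl.isOpen_compl.mem_nhds hna)
  have ev2 : ∀ᶠ x in 𝓝[A] a, γ x ∈ ball (γ a) (ε/2) :=
    (hγ a ha).eventually (ball_mem_nhds _ (by positivity))
  filter_upwards [ev1, ev2, self_mem_nhdsWithin] with x h1 h2 hx
  by_contra hcon
  obtain ⟨hxS, hxE⟩ := hu x hx
  by_cases hN' : N ≤ |u x|
  · obtain ⟨q, hq, hq2⟩ := hN _ hxS hN'
    have : q ∈ ball (γ a) ε := by
      rw [mem_ball]
      rw [mem_ball] at h2
      rw [hxE] at hq2
      calc dist q (γ a) ≤ dist q (γ x) + dist (γ x) (γ a) := dist_triangle _ _ _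
        _ < ε/2 + ε/2 := by rw [dist_comm q]; linarith
        _ = ε := by ring
    exact hball this hq
  · exact h1 ⟨u x, ⟨⟨hxS, abs_le.1 (le_of_not_ge hN')⟩, hcon⟩, hxE⟩

/-- A path contained in the ray/line `E '' S` up to time `b` stays in it at time `b`, because both
non-compact ends of `E '' S` oscillate. -/
theorem pathClosed {S : Set ℝ} (hS : IsClosed S) {E : ℝ → Z} (hE : ContinuousOn E S)
    (inj : InjOn E S) {L : Set Z} (hL : IsClosed L) (hd : ∀ t ∈ S, E t ∉ L) (ht : Tends S E L)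
    (oscp : ∃ c > 0, ∀ N : ℝ, ∃ x ∈ S, ∃ y ∈ S, N ≤ x ∧ N ≤ y ∧ c ≤ dist (E x) (E y))
    (oscm : (∃ m, ∀ t ∈ S, m ≤ t) ∨
      ∃ c > 0, ∀ N : ℝ, ∃ x ∈ S, ∃ y ∈ S, x ≤ N ∧ y ≤ N ∧ c ≤ dist (E x) (E y))
    {γ : ℝ → Z} {a b : ℝ} (hab : a < b) (hγ : ContinuousOn γ (Icc a b))
    (h : ∀ t ∈ Ico a b, γ t ∈ E '' S) : γ b ∈ E '' S := by
  choose! u hu using h
  have huc : ContinuousOn u (Ico a b) :=
    lift_continuousOn hS hE inj hL hd ht (hγ.mono Ico_subset_Icc_self) hu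
  have key : ∀ c > 0, ∃ t0 ∈ Ico a b, ∀ t ∈ Icc t0 b, dist (γ t) (γ b) < c / 2 := by
    intro c hc
    have := hγ b (right_mem_Icc.2 hab.le)
    rw [Metric.continuousWithinAt_iff] at this
    obtain ⟨δ, hδ, h1⟩ := this (c/2) (by positivity)
    refine ⟨max a (b - δ/2), ⟨le_max_left _ _, max_lt hab (by linarith)⟩, ?_⟩
    intro t ht'
    have h2 : a ≤ t := (le_max_left _ _).trans ht'.1
    have h3 : b - δ/2 ≤ t := (le_max_right _ _).trans ht'.1
    apply h1 ⟨h2, ht'.2⟩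
    rw [Real.dist_eq, abs_lt]
    constructor <;> linarith [ht'.2]
  -- upper bound
  have hup : ∃ t0 ∈ Ico a b, ∃ N, ∀ t ∈ Ico t0 b, u t ≤ N := by
    obtain ⟨c, hc, hosc⟩ := oscp
    obtain ⟨t0, ht0, hnear⟩ := key c hc
    obtain ⟨x, hx, y, hy, hx0, hy0, hxy⟩ := hosc (u t0)
    refine ⟨t0, ht0, max x y, ?_⟩
    intro t1 ht1
    by_contra hcon
    push Not at hcon
    have hsub : Icc t0 t1 ⊆ Ico a b := fun s hs => ⟨ht0.1.trans hs.1, hs.2.trans_lt ht1.2⟩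
    have hIVT := intermediate_value_Icc ht1.1 (huc.mono hsub)
    obtain ⟨tx, htx, htx2⟩ := hIVT ⟨hx0, (le_max_left x y).trans hcon.le⟩
    obtain ⟨ty, hty, hty2⟩ := hIVT ⟨hy0, (le_max_right x y).trans hcon.le⟩
    have e1 : E x = γ tx := by rw [← htx2]; exact (hu tx (hsub htx)).2
    have e2 : E y = γ ty := by rw [← hty2]; exact (hu ty (hsub hty)).2
    rw [e1, e2] at hxy
    have d1 := hnear tx ⟨htx.1, (hsub htx).2.le⟩
    have d2 := hnear ty ⟨hty.1, (hsub hty).2.le⟩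
    have := dist_triangle (γ tx) (γ b) (γ ty)
    rw [dist_comm (γ b)] at this
    linarith
  have hlow : ∃ t0 ∈ Ico a b, ∃ N, ∀ t ∈ Ico t0 b, N ≤ u t := by
    rcases oscm with ⟨m, hm⟩ | ⟨c, hc, hosc⟩
    · exact ⟨a, ⟨le_rfl, hab⟩, m, fun t ht' => hm _ (hu t ht').1⟩
    · obtain ⟨t0, ht0, hnear⟩ := key c hc
      obtain ⟨x, hx, y, hy, hx0, hy0, hxy⟩ := hosc (u t0)
      refine ⟨t0, ht0, min x y, ?_⟩
      intro t1 ht1
      by_contra hcon
      push Not at hcon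
      have hsub : Icc t0 t1 ⊆ Ico a b := fun s hs => ⟨ht0.1.trans hs.1, hs.2.trans_lt ht1.2⟩
      have hIVT := intermediate_value_Icc' ht1.1 (huc.mono hsub)
      obtain ⟨tx, htx, htx2⟩ := hIVT ⟨hcon.le.trans (min_le_left x y), hx0⟩
      obtain ⟨ty, hty, hty2⟩ := hIVT ⟨hcon.le.trans (min_le_right x y), hy0⟩
      have e1 : E x = γ tx := by rw [← htx2]; exact (hu tx (hsub htx)).2
      have e2 : E y = γ ty := by rw [← hty2]; exact (hu ty (hsub hty)).2
      rw [e1, e2] at hxy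
      have d1 := hnear tx ⟨htx.1, (hsub htx).2.le⟩
      have d2 := hnear ty ⟨hty.1, (hsub hty).2.le⟩
      have := dist_triangle (γ tx) (γ b) (γ ty)
      rw [dist_comm (γ b)] at this
      linarith
  obtain ⟨t1, ht1, N1, hN1⟩ := hup
  obtain ⟨t2, ht2, N2, hN2⟩ := hlow
  have hcomp : IsCompact (S ∩ Icc N2 N1) := (isCompact_Icc.inter_left hS)
  have hcl : IsClosed (E '' (S ∩ Icc N2 N1)) :=
    (hcomp.image_of_continuousOn (hE.mono inter_subset_left)).isClosed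
  have hmem : ∀ t ∈ Ico (max t1 t2) b, γ t ∈ E '' (S ∩ Icc N2 N1) := by
    intro t ht'
    have h1 : t1 ≤ t := (le_max_left _ _).trans ht'.1
    have h2 : t2 ≤ t := (le_max_right _ _).trans ht'.1
    have hta : t ∈ Ico a b := ⟨ht1.1.trans h1, ht'.2⟩
    exact ⟨u t, ⟨(hu t hta).1, hN2 t ⟨h2, ht'.2⟩, hN1 t ⟨h1, ht'.2⟩⟩, (hu t hta).2⟩
  have hlt : max t1 t2 < b := max_lt ht1.2 ht2.2
  have hmx : a ≤ max t1 t2 := ht1.1.trans (le_max_left _ _)
  have : γ b ∈ closure (E '' (S ∩ Icc N2 N1)) := by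
    have hc : ContinuousWithinAt γ (Ico (max t1 t2) b) b :=
      (hγ b (right_mem_Icc.2 hab.le)).mono (fun t ht' => ⟨hmx.trans ht'.1, ht'.2.le⟩)
    have hcl2 : b ∈ closure (Ico (max t1 t2) b) := by
      rw [closure_Ico hlt.ne]; exact right_mem_Icc.2 hlt.le
    exact hc.mem_closure hcl2 hmem
  rw [hcl.closure_eq] at this
  exact image_mono inter_subset_left this

/-- `C` is invariant along paths in `K`. -/
def Inv (K C : Set Z) : Prop :=
  ∀ (γ : ℝ → Z) (a b : ℝ), a ≤ b → ContinuousOn γ (Icc a b) → (∀ t ∈ Icc a b, γ t ∈ K) →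
    γ a ∈ C → γ b ∈ C

theorem Inv.rev {K C : Set Z} (h : Inv K C) {γ : ℝ → Z} {a b : ℝ} (hab : a ≤ b)
    (hγ : ContinuousOn γ (Icc a b)) (hK : ∀ t ∈ Icc a b, γ t ∈ K) (hb : γ b ∈ C) : γ a ∈ C := by
  have hm : MapsTo (fun t : ℝ => a + b - t) (Icc a b) (Icc a b) := by
    intro t ht; exact ⟨by linarith [ht.2], by linarith [ht.1]⟩
  have := h (fun t => γ (a + b - t)) a b hab
    (hγ.comp (by fun_prop) hm) (fun t ht => hK _ (hm ht)) (by simpa using hb)
  simpa using this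

/-- Along a path in `K`, membership in `C` does not change. -/
theorem Inv.iff {K C : Set Z} (h : Inv K C) {γ : ℝ → Z} {a b : ℝ} (hab : a ≤ b)
    (hγ : ContinuousOn γ (Icc a b)) (hK : ∀ t ∈ Icc a b, γ t ∈ K) {s t : ℝ} (hs : s ∈ Icc a b)
    (ht : t ∈ Icc a b) : γ s ∈ C ↔ γ t ∈ C := by
  wlog hst : s ≤ t generalizing s t
  · exact (this ht hs (le_of_not_ge hst)).symm
  have hsub : Icc s t ⊆ Icc a b := Icc_subset_Icc hs.1 ht.2
  exact ⟨fun h1 => h γ s t hst (hγ.mono hsub) (fun r hr => hK r (hsub hr)) h1,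
    fun h1 => h.rev hst (hγ.mono hsub) (fun r hr => hK r (hsub hr)) h1⟩

theorem inv_of_open {K C U : Set Z} (hU : IsOpen U) (hC : C = K ∩ U)
    (pc : ∀ (γ : ℝ → Z) (a b : ℝ), a < b → ContinuousOn γ (Icc a b) → (∀ t ∈ Icc a b, γ t ∈ K) →
      (∀ t ∈ Ico a b, γ t ∈ C) → γ b ∈ C) : Inv K C := by
  intro γ a b hab hγ hK ha
  have hmain : Icc a b ⊆ {t | ∀ r ∈ Icc a t, γ r ∈ C} := by
    apply IsClosed.Icc_subset_of_forall_mem_nhdsWithin
    · apply isClosed_of_closure_subset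
      intro t ht
      have htI : t ∈ Icc a b := by
        have := closure_mono (inter_subset_right (s := {t | ∀ r ∈ Icc a t, γ r ∈ C}) (t := Icc a b)) ht
        rwa [isClosed_Icc.closure_eq] at this
      have hlt : ∀ r ∈ Ico a t, γ r ∈ C := by
        intro r hr
        obtain ⟨t', ht', ht'2⟩ := mem_closure_iff_nhds.1 ht (Ioi r) (Ioi_mem_nhds hr.2)
        exact ht'2.1 r ⟨hr.1, ht'.le⟩
      refine ⟨?_, htI⟩
      intro r hr
      rcases hr.2.lt_or_eq with hrt | hrt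
      · exact hlt r ⟨hr.1, hrt⟩
      · subst hrt
        rcases hr.1.lt_or_eq with har | har
        · exact pc γ a r har (hγ.mono (Icc_subset_Icc le_rfl htI.2))
            (fun s hs => hK s ⟨hs.1, hs.2.trans htI.2⟩) hlt
        · rwa [← har]
    · intro r hr
      have : r = a := le_antisymm hr.2 hr.1
      rwa [this]
    · rintro x ⟨hx1, hx2⟩
      have hxI : x ∈ Icc a b := ⟨hx2.1, hx2.2.le⟩
      have hxC : γ x ∈ C := hx1 x ⟨hx2.1, le_rfl⟩
      have hxU : γ x ∈ U := (hC ▸ hxC : γ x ∈ K ∩ U).2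
      have ev : ∀ᶠ r in 𝓝[Icc a b] x, γ r ∈ U := (hγ x hxI).eventually (hU.mem_nhds hxU)
      rw [eventually_nhdsWithin_iff, Metric.eventually_nhds_iff] at ev
      obtain ⟨δ, hδ, h1⟩ := ev
      have hlt : x < min b (x + δ) := lt_min hx2.2 (by linarith)
      filter_upwards [Ioo_mem_nhdsGT hlt] with s hs r hr
      rcases le_or_gt r x with hrx | hrx
      · exact hx1 r ⟨hr.1, hrx⟩
      · have hrb : r ∈ Icc a b := ⟨hr.1, hr.2.trans (hs.2.le.trans (min_le_left _ _))⟩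
        rw [hC]
        refine ⟨hK r hrb, h1 ?_ hrb⟩
        rw [Real.dist_eq, abs_lt]
        have := hs.2.trans_le (min_le_right _ _)
        constructor <;> linarith [hr.2]
  exact hmain (right_mem_Icc.2 hab) b ⟨hab, le_rfl⟩

theorem twoCore {M S1 S2 C1 C2 : Set Z} (hM : M ⊆ S1 ∪ S2) (hdis : Disjoint S1 S2)
    (hC1 : IsClosed C1) (hC2 : IsClosed C2) (hC : Disjoint C1 C2)
    (hcl1 : IsClosed (S1 ∪ C2)) (hcl2 : IsClosed (S2 ∪ C1))
    (pc1 : ∀ (γ : ℝ → Z) (a b : ℝ), a < b → ContinuousOn γ (Icc a b) →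
      (∀ t ∈ Ico a b, γ t ∈ S1) → γ b ∈ S1)
    (pc2 : ∀ (γ : ℝ → Z) (a b : ℝ), a < b → ContinuousOn γ (Icc a b) →
      (∀ t ∈ Ico a b, γ t ∈ S2) → γ b ∈ S2) : Inv M S1 := by
  -- local statement
  have loc : ∀ (M S1 S2 C1 C2 : Set Z), M ⊆ S1 ∪ S2 → Disjoint S1 S2 → IsClosed C2 →
      Disjoint C1 C2 → IsClosed (S1 ∪ C2) → IsClosed (S2 ∪ C1) →
      (∀ (γ : ℝ → Z) (a b : ℝ), a < b → ContinuousOn γ (Icc a b) →
        (∀ t ∈ Ico a b, γ t ∈ S2) → γ b ∈ S2) →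
      ∀ (γ : ℝ → Z) (a b : ℝ), ContinuousOn γ (Icc a b) → (∀ t ∈ Icc a b, γ t ∈ M) →
      ∀ t0 ∈ Icc a b, γ t0 ∈ S1 → ∀ᶠ t in 𝓝[Icc a b] t0, γ t ∈ S1 := by
    intro M S1 S2 C1 C2 hM hdis hC2 hC hcl1 hcl2 pc2 γ a b hγ hK t0 ht0 h0
    by_cases h0C : γ t0 ∈ C1
    · have hn : γ t0 ∉ C2 := fun h => (Set.disjoint_left.1 hC) h0C h
      have ev : ∀ᶠ r in 𝓝[Icc a b] t0, γ r ∈ C2ᶜ :=
        (hγ t0 ht0).eventually (hC2.isOpen_compl.mem_nhds hn)
      rw [eventually_nhdsWithin_iff, Metric.eventually_nhds_iff] at ev ⊢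
      obtain ⟨δ, hδ, h1⟩ := ev
      refine ⟨δ, hδ, ?_⟩
      intro t1 hd1 ht1
      by_contra hcon
      have h1S2 : γ t1 ∈ S2 := (hM (hK t1 ht1)).resolve_left hcon
      have hinv : Inv (M ∩ C2ᶜ) (S2 ∩ (M ∩ C2ᶜ)) := by
        apply inv_of_open (U := (S1 ∪ C2)ᶜ) hcl1.isOpen_compl
        · ext z
          simp only [mem_inter_iff, mem_compl_iff, mem_union, not_or]
          constructor
          · rintro ⟨a1, a2, a3⟩
            exact ⟨⟨a2, a3⟩, fun h => (Set.disjoint_left.1 hdis) h a1, a3⟩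
          · rintro ⟨⟨a2, a3⟩, a4, _⟩
            exact ⟨(hM a2).resolve_left a4, a2, a3⟩
        · intro γ' a' b' hab' hγ' hK' hin
          exact ⟨pc2 γ' a' b' hab' hγ' (fun t ht => (hin t ht).1), hK' b' (right_mem_Icc.2 hab'.le)⟩
      rcases le_total t0 t1 with hle | hle
      · have hsub : Icc t0 t1 ⊆ Icc a b := Icc_subset_Icc ht0.1 ht1.2
        have hK' : ∀ t ∈ Icc t0 t1, γ t ∈ M ∩ C2ᶜ := by
          intro t ht
          refine ⟨hK t (hsub ht), h1 ?_ (hsub ht)⟩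
          rw [Real.dist_eq] at hd1 ⊢
          rw [abs_lt] at hd1 ⊢
          constructor <;> linarith [ht.1, ht.2]
        have := hinv.rev hle (hγ.mono hsub) hK' ⟨h1S2, hK' t1 ⟨hle, le_rfl⟩⟩
        exact (Set.disjoint_left.1 hdis) h0 this.1
      · have hsub : Icc t1 t0 ⊆ Icc a b := Icc_subset_Icc ht1.1 ht0.2
        have hK' : ∀ t ∈ Icc t1 t0, γ t ∈ M ∩ C2ᶜ := by
          intro t ht
          refine ⟨hK t (hsub ht), h1 ?_ (hsub ht)⟩
          rw [Real.dist_eq] at hd1 ⊢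
          rw [abs_lt] at hd1 ⊢
          constructor <;> linarith [ht.1, ht.2]
        have := hinv γ t1 t0 hle (hγ.mono hsub) hK' ⟨h1S2, hK' t1 ⟨le_rfl, hle⟩⟩
        exact (Set.disjoint_left.1 hdis) h0 this.1
    · have hn : γ t0 ∈ (S2 ∪ C1)ᶜ := by
        simp only [mem_compl_iff, mem_union, not_or]
        exact ⟨fun h => (Set.disjoint_left.1 hdis) h0 h, h0C⟩
      have ev : ∀ᶠ r in 𝓝[Icc a b] t0, γ r ∈ (S2 ∪ C1)ᶜ :=
        (hγ t0 ht0).eventually (hcl2.isOpen_compl.mem_nhds hn)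
      filter_upwards [ev, self_mem_nhdsWithin] with r hr hrI
      simp only [mem_compl_iff, mem_union, not_or] at hr
      exact (hM (hK r hrI)).resolve_right hr.1
  intro γ a b hab hγ hK ha
  have l1 := loc M S1 S2 C1 C2 hM hdis hC2 hC hcl1 hcl2 pc2 γ a b hγ hK
  have l2 := loc M S2 S1 C2 C1 (by rwa [union_comm]) hdis.symm hC1 hC.symm hcl2 hcl1 pc1 γ a b hγ hK
  have hmain : Icc a b ⊆ {t | γ t ∈ S1} := by
    apply IsClosed.Icc_subset_of_forall_mem_nhdsWithin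
    · apply isClosed_of_closure_subset
      intro t ht
      have htI : t ∈ Icc a b := by
        have := closure_mono (inter_subset_right (s := {t | γ t ∈ S1}) (t := Icc a b)) ht
        rwa [isClosed_Icc.closure_eq] at this
      refine ⟨?_, htI⟩
      by_contra hcon
      have h2 : γ t ∈ S2 := (hM (hK t htI)).resolve_left hcon
      have ev := l2 t htI h2
      rw [eventually_nhdsWithin_iff] at ev
      obtain ⟨t', ht', ht'2⟩ := mem_closure_iff_nhds.1 ht _ ev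
      exact (Set.disjoint_left.1 hdis) ht'2.1 (ht' ht'2.2)
    · exact ha
    · rintro x ⟨hx1, hx2⟩
      have hxI : x ∈ Icc a b := ⟨hx2.1, hx2.2.le⟩
      have ev := l1 x hxI hx1
      rw [eventually_nhdsWithin_iff, Metric.eventually_nhds_iff] at ev
      obtain ⟨δ, hδ, h1⟩ := ev
      have hlt : x < min b (x + δ) := lt_min hx2.2 (by linarith)
      filter_upwards [Ioo_mem_nhdsGT hlt] with s hs
      refine h1 ?_ ⟨hx2.1.trans hs.1.le, (hs.2.trans_le (min_le_left _ _)).le⟩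
      rw [Real.dist_eq, abs_lt]
      have := hs.2.trans_le (min_le_right _ _)
      constructor <;> linarith [hs.1]
  exact hmain (right_mem_Icc.2 hab)

end Pool.Agent.H741.Bing
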