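import Pool.Agent.H741.Bing.Lanes
import Pool.Agent.H741.Bing.Top

/-!
The pieces of the continuum, inside `ℂ × ℝ` (unit circle times height).
-/

set_option autoImplicit false

open Set Filter Topology

namespace Pool.Agent.H741.Bing

abbrev Zs := ℂ × ℝ

noncomputable def pt (x y : ℝ) : Zs := (Complex.exp (Real.pi * x * Complex.I), y)

theorem pt_eq_iff {x y x' y' : ℝ} : pt x y = pt x' y' ↔ y = y' ∧ ∃ n : ℤ, x = x' + 2 * n := by
  unfold pt
  rw [Prod.mk.injEq, Complex.exp_eq_exp_iff_exists_int]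
  constructor
  · rintro ⟨⟨n, hn⟩, hy⟩
    refine ⟨hy, n, ?_⟩
    have h1 : (Real.pi : ℂ) ≠ 0 := by exact_mod_cast Real.pi_ne_zero
    have h2 : (x : ℂ) = x' + 2 * n := by
      have h3 : ((Real.pi : ℂ) * Complex.I) * x = ((Real.pi : ℂ) * Complex.I) * (x' + 2 * n) := by
        linear_combination hn
      exact mul_left_cancel₀ (mul_ne_zero h1 Complex.I_ne_zero) h3
    exact_mod_cast h2
  · rintro ⟨hy, n, hn⟩
    refine ⟨⟨n, ?_⟩, hy⟩
    rw [hn]; push_cast; ring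

theorem pt_add_two (x y : ℝ) (n : ℤ) : pt (x + 2 * n) y = pt x y := pt_eq_iff.2 ⟨rfl, n, rfl⟩

theorem pt_add_two_nat (x y : ℝ) (n : ℕ) : pt (x + 2 * n) y = pt x y := by
  have := pt_add_two x y n
  simpa using this

theorem pt_inj_of_lt {x y x' y' : ℝ} (h : pt x y = pt x' y') (hx : |x - x'| < 2) :
    x = x' ∧ y = y' := by
  obtain ⟨hy, n, hn⟩ := pt_eq_iff.1 h
  rw [hn, add_sub_cancel_left, abs_mul] at hx
  have h1 : |(n : ℝ)| < 1 := by
    have : |(2:ℝ)| = 2 := abs_of_pos (by norm_num)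
    rw [this] at hx; linarith
  have h2 : n = 0 := by
    rw [← Int.cast_abs] at h1
    have : |n| < 1 := by exact_mod_cast h1
    exact Int.abs_lt_one_iff.1 this
  subst h2
  simp at hn
  exact ⟨hn, hy⟩

@[fun_prop]
theorem continuous_pt : Continuous (fun p : ℝ × ℝ => pt p.1 p.2) := by
  unfold pt
  fun_prop

theorem Continuous.pt' {X : Type*} [TopologicalSpace X] {f g : X → ℝ} (hf : Continuous f)
    (hg : Continuous g) : Continuous (fun t => pt (f t) (g t)) :=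
  continuous_pt.comp (hf.prodMk hg)

theorem ContinuousOn.pt' {X : Type*} [TopologicalSpace X] {S : Set X} {f g : X → ℝ}
    (hf : ContinuousOn f S) (hg : ContinuousOn g S) : ContinuousOn (fun t => pt (f t) (g t)) S :=
  continuous_pt.comp_continuousOn (hf.prodMk hg)

theorem norm_pt_fst (x y : ℝ) : ‖(pt x y).1‖ = 1 := by
  unfold pt
  have : (Real.pi : ℂ) * x * Complex.I = ((Real.pi * x : ℝ) : ℂ) * Complex.I := by push_cast; ring
  simp only [this]
  exact Complex.norm_exp_ofReal_mul_I _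

theorem dist_pt_fst (x y x' y' : ℝ) : dist (pt x y).1 (pt x' y').1 ≤ 4 * |x - x'| := by
  unfold pt
  simp only
  rw [Complex.dist_eq]
  have h1 : Complex.exp (Real.pi * x * Complex.I) - Complex.exp (Real.pi * x' * Complex.I)
      = Complex.exp (Real.pi * x' * Complex.I) *
        (Complex.exp (Complex.I * ((Real.pi * (x - x') : ℝ) : ℂ)) - 1) := by
    rw [mul_sub, ← Complex.exp_add, mul_one]
    congr 2
    push_cast; ring
  rw [h1, norm_mul]
  have h2 : ‖Complex.exp (Real.pi * x' * Complex.I)‖ = 1 := norm_pt_fst x' 0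
  rw [h2, one_mul]
  refine (Real.norm_exp_I_mul_ofReal_sub_one_le).trans ?_
  rw [Real.norm_eq_abs, abs_mul, abs_of_pos Real.pi_pos]
  have := Real.pi_lt_four
  nlinarith [abs_nonneg (x - x')]

theorem dist_pt_le (x y x' y' : ℝ) : dist (pt x y) (pt x' y') ≤ 4 * |x - x'| + |y - y'| := by
  rw [Prod.dist_eq]
  apply max_le
  · have := dist_pt_fst x y x' y'
    linarith [abs_nonneg (y - y')]
  · have : dist (pt x y).2 (pt x' y').2 = |y - y'| := Real.dist_eq _ _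
    rw [this]
    linarith [abs_nonneg (x - x')]

theorem abs_sub_le_dist_pt (x y x' y' : ℝ) : |y - y'| ≤ dist (pt x y) (pt x' y') := by
  rw [Prod.dist_eq]
  exact le_max_of_le_right (le_of_eq (Real.dist_eq _ _).symm)

theorem pt_fst_eq (x y y' : ℝ) : (pt x y).1 = (pt x y').1 := rfl

theorem pt_snd (x y : ℝ) : (pt x y).2 = y := rfl

theorem pt_fst_eq_iff {x y x' y' : ℝ} : (pt x y).1 = (pt x' y').1 ↔ ∃ n : ℤ, x = x' + 2 * n := by
  constructor
  · intro h
    have h1 : pt x 0 = pt x' 0 := Prod.ext h rfl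
    exact (pt_eq_iff.1 h1).2
  · intro h
    have h1 : pt x y = pt x' y := pt_eq_iff.2 ⟨rfl, h⟩
    have h2 : (pt x y).1 = (pt x' y).1 := congrArg Prod.fst h1
    exact h2

theorem pt_zero_fst (y : ℝ) : (pt 0 y).1 = 1 := by
  simp [pt]

theorem pt_one_fst (y : ℝ) : (pt 1 y).1 = -1 := by
  simp [pt, Complex.exp_pi_mul_I]

attribute [irreducible] pt

theorem one_le_dist_pt (n : ℕ) (y y' : ℝ) : 1 ≤ dist (pt (2 * n) y) (pt (2 * n + 1) y') := by
  have e1 : pt (2 * n) y = pt 0 y := by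
    rw [← pt_add_two_nat 0 y n]; congr 1; ring
  have e2 : pt (2 * n + 1) y' = pt 1 y' := by
    rw [← pt_add_two_nat 1 y' n]; congr 1; ring
  rw [e1, e2, Prod.dist_eq]
  apply le_max_of_le_left
  rw [pt_zero_fst, pt_one_fst, Complex.dist_eq]
  norm_num

theorem Tendsto.pt' {X : Type*} {F : Filter X} {f g : X → ℝ} {a b : ℝ} (hf : Tendsto f F (𝓝 a))
    (hg : Tendsto g F (𝓝 b)) : Tendsto (fun t => pt (f t) (g t)) F (𝓝 (pt a b)) := by
  have h : Tendsto (fun p : ℝ × ℝ => pt p.1 p.2) (𝓝 (a, b)) (𝓝 (pt a b)) :=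
    continuous_pt.tendsto (a, b)
  exact h.comp (hf.prodMk_nhds hg)


/-- integer and fractional parts of angles -/
theorem lane_split {m m' : ℕ} {n : ℤ} {s s' : ℝ} (h0 : 0 ≤ s) (h1 : s < 1) (h0' : 0 ≤ s')
    (h1' : s' < 1) (h : (m : ℝ) + s = m' + s' + 2 * n) : s = s' ∧ (m : ℤ) = m' + 2 * n := by
  have h2 : ((m - m' - 2 * n : ℤ) : ℝ) = s' - s := by push_cast; linarith
  have h3 : |((m - m' - 2 * n : ℤ) : ℝ)| < 1 := by
    rw [h2, abs_lt]; constructor <;> linarith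
  have h4 : (m - m' - 2 * n : ℤ) = 0 := by
    rw [← Int.cast_abs] at h3
    exact Int.abs_lt_one_iff.1 (by exact_mod_cast h3)
  rw [h4] at h2
  simp at h2
  exact ⟨by linarith, by linarith⟩

/-! ### The limit set `MM` -/

def LL (s y : ℝ) : Prop := (0 ≤ s ∧ s < 1 ∧ y = W (xi s)) ∨ (s = 1 ∧ 0 ≤ y ∧ y ≤ 1)

theorem LL.s0 {s y : ℝ} (h : LL s y) : 0 ≤ s := by
  rcases h with h | h
  · exact h.1
  · rw [h.1]; norm_num

theorem LL.s1 {s y : ℝ} (h : LL s y) : s ≤ 1 := by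
  rcases h with h | h
  · exact h.2.1.le
  · rw [h.1]

theorem LL.y0 {s y : ℝ} (h : LL s y) : 0 ≤ y := by
  rcases h with h | h
  · rw [h.2.2]; exact W_nonneg _
  · exact h.2.1

theorem LL.y1 {s y : ℝ} (h : LL s y) : y ≤ 1 := by
  rcases h with h | h
  · rw [h.2.2]; exact W_le_one _
  · exact h.2.2

theorem isCompact_LL : IsCompact {p : ℝ × ℝ | LL p.1 p.2} := by
  have e : {p : ℝ × ℝ | LL p.1 p.2} = (fun u => (Lam u, W u)) '' (Ici 0) ∪ {1} ×ˢ Icc 0 1 := by
    ext ⟨s, y⟩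
    simp only [mem_ofPred_eq, mem_union, mem_image, mem_Ici, Prod.mk.injEq, mem_prod,
      mem_singleton_iff, mem_Icc]
    constructor
    · rintro (h | h)
      · left
        exact ⟨xi s, xi_nonneg h.1 h.2.1, Lam_xi h.2.1, h.2.2.symm⟩
      · right; exact h
    · rintro (⟨u, hu, h1, h2⟩ | h)
      · left
        refine ⟨by rw [← h1]; exact Lam_nonneg hu, by rw [← h1]; exact Lam_lt_one hu, ?_⟩
        rw [← h1, xi_Lam hu, h2]
      · right; exact h
  have hcl : IsClosed {p : ℝ × ℝ | LL p.1 p.2} := by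
    rw [e]
    apply isClosed_image_union isClosed_Ici
    · exact continuousOn_Lam.prodMk continuous_W.continuousOn
    · exact isClosed_singleton.prod isClosed_Icc
    · intro ε hε
      refine ⟨1 / ε, ?_⟩
      intro t ht htN
      have ht0 : (0:ℝ) ≤ t := ht
      rw [abs_of_nonneg ht0] at htN
      refine ⟨(1, W t), ⟨rfl, W_nonneg _, W_le_one _⟩, ?_⟩
      rw [Prod.dist_eq]
      simp only [dist_self]
      rw [Real.dist_eq, abs_sub_comm, abs_of_pos (by linarith [Lam_lt_one ht0]), one_sub_Lam ht0]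
      apply max_lt _ hε
      rw [div_lt_iff₀ (by linarith)]
      rw [div_le_iff₀ hε] at htN
      nlinarith
  have hsub : {p : ℝ × ℝ | LL p.1 p.2} ⊆ Icc 0 1 ×ˢ Icc 0 1 := by
    rintro ⟨s, y⟩ h
    exact ⟨⟨LL.s0 h, LL.s1 h⟩, ⟨LL.y0 h, LL.y1 h⟩⟩
  exact (isCompact_Icc.prod isCompact_Icc).of_isClosed_subset hcl hsub

def MM : Set Zs := {z | ∃ (m : ℕ) (s y : ℝ), LL s y ∧ z = pt (m + s) y}

theorem two_decomp (m : ℕ) : ∃ (i : ℕ) (n : ℕ), i < 2 ∧ m = i + 2 * n :=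
  ⟨m % 2, m / 2, by omega, by omega⟩

theorem MM_eq : MM = ⋃ i ∈ ({0, 1} : Set ℕ), (fun p : ℝ × ℝ => pt (i + p.1) p.2) '' {p | LL p.1 p.2} := by
  ext z
  simp only [MM, mem_ofPred_eq, mem_iUnion, mem_image, Prod.exists, exists_prop]
  constructor
  · rintro ⟨m, s, y, h, rfl⟩
    obtain ⟨i, n, hi, rfl⟩ := two_decomp m
    refine ⟨i, ?_, s, y, h, ?_⟩
    · have : i = 0 ∨ i = 1 := by omega
      simpa using this
    · rw [← pt_add_two_nat _ _ n]
      congr 1; push_cast; ring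
  · rintro ⟨i, _, s, y, h, rfl⟩
    exact ⟨i, s, y, h, rfl⟩

theorem isCompact_MM : IsCompact MM := by
  rw [MM_eq]
  apply Set.Finite.isCompact_biUnion (by simp)
  intro i _
  apply isCompact_LL.image
  exact Continuous.pt' (by fun_prop) (by fun_prop)

/-! ### The rays `RR i` and the bars `CC i` -/

noncomputable def rr' (i : ℕ) (u : ℝ) : Zs := pt (i + Lam (max u 0)) (W (max u 0) + min u 0)

def RR (i : ℕ) : Set Zs := rr' i '' Ici (-1)

def CC (i : ℕ) : Set Zs := {z | ∃ y, 0 ≤ y ∧ y ≤ 1 ∧ z = pt i y}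

theorem continuous_rr' (i : ℕ) : Continuous (rr' i) := by
  unfold rr'
  apply Continuous.pt'
  · have : Continuous (fun u : ℝ => Lam (max u 0)) :=
      continuousOn_Lam.comp_continuous (by fun_prop) (fun u => by simp)
    fun_prop
  · fun_prop

theorem rr'_of_nonneg (i : ℕ) {u : ℝ} (hu : 0 ≤ u) : rr' i u = pt (i + Lam u) (W u) := by
  unfold rr'
  rw [max_eq_left hu, min_eq_right hu, add_zero]

theorem rr'_of_nonpos (i : ℕ) {u : ℝ} (hu : u ≤ 0) : rr' i u = pt i (1 + u) := by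
  unfold rr'
  rw [max_eq_right hu, min_eq_left hu, Lam_zero, add_zero, W_zero]

theorem RR_mem_iff {i : ℕ} {z : Zs} : z ∈ RR i ↔
    (∃ y, 0 ≤ y ∧ y ≤ 1 ∧ z = pt i y) ∨ ∃ s, 0 ≤ s ∧ s < 1 ∧ z = pt (i + s) (W (xi s)) := by
  constructor
  · rintro ⟨u, hu, rfl⟩
    have hu' : (-1:ℝ) ≤ u := hu
    rcases le_total u 0 with h | h
    · left
      exact ⟨1 + u, by linarith, by linarith, rr'_of_nonpos i h⟩
    · right
      refine ⟨Lam u, Lam_nonneg h, Lam_lt_one h, ?_⟩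
      rw [rr'_of_nonneg i h, xi_Lam h]
  · rintro (⟨y, h0, h1, rfl⟩ | ⟨s, h0, h1, rfl⟩)
    · refine ⟨y - 1, by simp only [mem_Ici]; linarith, ?_⟩
      rw [rr'_of_nonpos i (by linarith)]
      congr 1; ring
    · have := xi_nonneg h0 h1
      refine ⟨xi s, by simp only [mem_Ici]; linarith, ?_⟩
      rw [rr'_of_nonneg i this, Lam_xi h1]

theorem RR_add_two (i n : ℕ) : RR (i + 2 * n) = RR i := by
  unfold RR
  apply image_congr
  intro u _
  unfold rr'
  rw [← pt_add_two_nat (i + Lam (max u 0)) _ n]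
  congr 1; push_cast; ring

theorem CC_add_two (i n : ℕ) : CC (i + 2 * n) = CC i := by
  unfold CC
  ext z
  simp only [mem_ofPred_eq]
  have : ∀ y, pt ((i + 2 * n : ℕ) : ℝ) y = pt i y := by
    intro y
    rw [← pt_add_two_nat (i:ℝ) y n]
    push_cast; rfl
  simp only [this]

theorem CC_subset_RR (i : ℕ) : CC i ⊆ RR i := by
  intro z hz
  exact RR_mem_iff.2 (Or.inl hz)

theorem isCompact_CC (i : ℕ) : IsCompact (CC i) := by
  have : CC i = (fun y => pt i y) '' Icc 0 1 := by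
    ext z
    simp only [CC, mem_ofPred_eq, mem_image, mem_Icc]
    constructor
    · rintro ⟨y, h0, h1, rfl⟩; exact ⟨y, ⟨h0, h1⟩, rfl⟩
    · rintro ⟨y, ⟨h0, h1⟩, rfl⟩; exact ⟨y, h0, h1, rfl⟩
  rw [this]
  exact isCompact_Icc.image (Continuous.pt' (by fun_prop) (by fun_prop))

theorem RR_subset_MM (i : ℕ) : RR i ⊆ MM := by
  intro z hz
  rcases RR_mem_iff.1 hz with ⟨y, h0, h1, rfl⟩ | ⟨s, h0, h1, rfl⟩
  · refine ⟨i + 1, 1, y, Or.inr ⟨rfl, h0, h1⟩, ?_⟩
    rw [← pt_add_two_nat i y 1]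
    congr 1; push_cast; ring
  · exact ⟨i, s, _, Or.inl ⟨h0, h1, rfl⟩, rfl⟩

theorem MM_subset (z : Zs) (hz : z ∈ MM) : z ∈ RR 0 ∨ z ∈ RR 1 := by
  have key : ∀ m : ℕ, z ∈ RR m → z ∈ RR 0 ∨ z ∈ RR 1 := by
    intro m hm
    obtain ⟨i, n, hi, rfl⟩ := two_decomp m
    rw [RR_add_two] at hm
    have : i = 0 ∨ i = 1 := by omega
    rcases this with rfl | rfl
    · left; exact hm
    · right; exact hm
  obtain ⟨m, s, y, h, rfl⟩ := hz
  rcases h with ⟨h0, h1, rfl⟩ | ⟨rfl, h0, h1⟩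
  · exact key m (RR_mem_iff.2 (Or.inr ⟨s, h0, h1, rfl⟩))
  · apply key (m + 1)
    apply RR_mem_iff.2
    left
    exact ⟨y, h0, h1, by push_cast; rfl⟩

theorem MM_eq_union : MM = RR 0 ∪ RR 1 := by
  ext z
  constructor
  · exact fun h => MM_subset z h
  · rintro (h | h)
    · exact RR_subset_MM 0 h
    · exact RR_subset_MM 1 h

theorem MM_eq_union' (i : ℕ) : MM = RR i ∪ RR (i + 1) := by
  obtain ⟨j, n, hj, rfl⟩ := two_decomp i
  have h1 : RR (j + 2 * n + 1) = RR (j + 1) := by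
    rw [show j + 2 * n + 1 = (j + 1) + 2 * n by ring, RR_add_two]
  rw [RR_add_two, h1, MM_eq_union]
  have : j = 0 ∨ j = 1 := by omega
  rcases this with rfl | rfl
  · rfl
  · have : RR (1 + 1) = RR 0 := RR_add_two 0 1
    rw [this, union_comm]

theorem RR_disjoint (i : ℕ) : Disjoint (RR i) (RR (i + 1)) := by
  rw [Set.disjoint_left]
  intro z hz1 hz2
  have key : ∀ (i : ℕ) (z : Zs), z ∈ RR i → ∃ s y, 0 ≤ s ∧ s < 1 ∧ z = pt (i + s) y := by
    intro i z hz
    rcases RR_mem_iff.1 hz with ⟨y, h0, h1, rfl⟩ | ⟨s, h0, h1, rfl⟩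
    · exact ⟨0, y, le_rfl, zero_lt_one, by rw [add_zero]⟩
    · exact ⟨s, _, h0, h1, rfl⟩
  obtain ⟨s, y, h0, h1, rfl⟩ := key i z hz1
  obtain ⟨s', y', h0', h1', h⟩ := key (i + 1) _ hz2
  obtain ⟨_, n, hn⟩ := pt_eq_iff.1 h
  obtain ⟨_, h4⟩ := lane_split h0 h1 h0' h1' hn
  omega

theorem CC_disjoint (i : ℕ) : Disjoint (CC i) (CC (i + 1)) :=
  (RR_disjoint i).mono (CC_subset_RR i) (CC_subset_RR (i + 1))

theorem injOn_rr' (i : ℕ) : InjOn (rr' i) (Ici (-1)) := by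
  have key : ∀ u v : ℝ, -1 ≤ u → u ≤ v → rr' i u = rr' i v → u = v := by
    intro u v hu huv h
    rcases le_total v 0 with hv | hv
    · rw [rr'_of_nonpos i hv, rr'_of_nonpos i (huv.trans hv)] at h
      have := (pt_inj_of_lt h (by simp)).2
      linarith
    rcases le_total u 0 with hu0 | hu0
    · rw [rr'_of_nonpos i hu0, rr'_of_nonneg i hv] at h
      have l1 := Lam_lt_one hv
      have l0 := Lam_nonneg hv
      obtain ⟨e1, e2⟩ := pt_inj_of_lt h (by rw [abs_lt]; constructor <;> linarith)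
      have e3 : Lam v = 0 := by linarith
      have e4 : v = 0 := by
        have := xi_Lam hv
        rw [e3, xi_zero] at this; exact this.symm
      subst e4
      rw [W_zero] at e2
      linarith
    · rw [rr'_of_nonneg i hu0, rr'_of_nonneg i hv] at h
      have l1 := Lam_lt_one hv
      have l0 := Lam_nonneg hv
      have l1' := Lam_lt_one hu0
      have l0' := Lam_nonneg hu0
      obtain ⟨e1, e2⟩ := pt_inj_of_lt h (by rw [abs_lt]; constructor <;> linarith)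
      have e3 : Lam u = Lam v := by linarith
      rw [← xi_Lam hu0, ← xi_Lam hv, e3]
  intro u hu v hv h
  rcases le_total u v with h' | h'
  · exact key u v hu h' h
  · exact (key v u hv h' h.symm).symm

theorem tends_rr' (i : ℕ) : Tends (Ici (-1)) (rr' i) (CC (i + 1)) := by
  intro ε hε
  refine ⟨4 / ε + 1, ?_⟩
  intro t ht htN
  have h1 : (0:ℝ) < 4 / ε := by positivity
  have ht0 : (0:ℝ) ≤ t := by
    have : (-1:ℝ) ≤ t := ht
    by_contra hcon
    push Not at hcon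
    have : |t| ≤ 1 := by rw [abs_le]; constructor <;> linarith
    linarith
  rw [abs_of_nonneg ht0] at htN
  refine ⟨pt (i + 1 : ℕ) (W t), ⟨W t, W_nonneg _, W_le_one _, rfl⟩, ?_⟩
  rw [rr'_of_nonneg i ht0]
  refine (dist_pt_le _ _ _ _).trans_lt ?_
  rw [sub_self, abs_zero, add_zero]
  push_cast
  rw [show (i:ℝ) + Lam t - (i + 1) = -(1 - Lam t) by ring, abs_neg, one_sub_Lam ht0,
    abs_of_pos (by positivity)]
  rw [mul_one_div, div_lt_iff₀ (by linarith)]
  have : 4 / ε * ε = 4 := by field_simp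
  nlinarith

theorem RR_disj_CC (i : ℕ) : ∀ t ∈ Ici (-1 : ℝ), rr' i t ∉ CC (i + 1) := by
  intro t ht h
  exact Set.disjoint_left.1 (RR_disjoint i) ⟨t, ht, rfl⟩ (CC_subset_RR _ h)

theorem isClosed_RR_union (i : ℕ) : IsClosed (RR i ∪ CC (i + 1)) :=
  isClosed_image_union isClosed_Ici (continuous_rr' i).continuousOn (isCompact_CC _).isClosed
    (tends_rr' i)

theorem osc_rr' (i : ℕ) : ∃ c > 0, ∀ N : ℝ, ∃ x ∈ Ici (-1 : ℝ), ∃ y ∈ Ici (-1 : ℝ),
    N ≤ x ∧ N ≤ y ∧ c ≤ dist (rr' i x) (rr' i y) := by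
  refine ⟨1, one_pos, ?_⟩
  intro N
  obtain ⟨n, hn⟩ := exists_nat_ge N
  have h0 : (0:ℝ) ≤ n := Nat.cast_nonneg n
  refine ⟨n, by simp only [mem_Ici]; linarith, n + 1 / 2, by simp only [mem_Ici]; linarith, hn,
    by linarith, ?_⟩
  rw [rr'_of_nonneg i h0, rr'_of_nonneg i (by linarith)]
  refine le_trans ?_ (abs_sub_le_dist_pt _ _ _ _)
  rw [W_nat, W_half]; norm_num

end Pool.Agent.H741.Bing
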