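import Pool.Agent.H741.Bing.Space

/-!
The ray `PP` and the lines `TT 1`, `TT 2`.
-/

set_option autoImplicit false

open Set Filter Topology

namespace Pool.Agent.H741.Bing

/-! ### Inner parts -/

theorem inner_inj {c c' : ℕ} (hc : c < 3) (hc' : c' < 3) {t t' : ℝ} (ht : 0 ≤ t) (ht' : 0 ≤ t')
    (h : pt t (hh c t) = pt t' (hh c' t')) : c = c' ∧ t = t' := by
  obtain ⟨m, s, h0, h1, rfl⟩ := exists_lane ht
  obtain ⟨m', s', h0', h1', rfl⟩ := exists_lane ht'
  rw [hh_eq c m h0 h1.le, hh_eq c' m' h0' h1'.le] at h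
  obtain ⟨hy, n, hn⟩ := pt_eq_iff.1 h
  obtain ⟨rfl, hm⟩ := lane_split h0 h1 h0' h1' hn
  have hk : 3 * m + c = 3 * m' + c' := by
    rcases lt_trichotomy (3 * m + c) (3 * m' + c') with h2 | h2 | h2
    · exact absurd hy (HH_lt h2 h0 h1.le).ne'
    · exact h2
    · exact absurd hy (HH_lt h2 h0 h1.le).ne
  have h3 : m = m' ∧ c = c' := by omega
  rw [h3.1]
  exact ⟨h3.2, rfl⟩

theorem inner_not_mem_MM (c : ℕ) {t : ℝ} (ht : 0 ≤ t) : pt t (hh c t) ∉ MM := by
  obtain ⟨m, s, h0, h1, rfl⟩ := exists_lane ht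
  rw [hh_eq c m h0 h1.le]
  rintro ⟨m', s', y, hL, h⟩
  obtain ⟨hy, n, hn⟩ := pt_eq_iff.1 h
  rcases hL with ⟨h0', h1', rfl⟩ | ⟨rfl, hy0, hy1⟩
  · obtain ⟨rfl, hm⟩ := lane_split h0 h1 h0' h1' hn
    exact absurd hy (lt_HH _ h0 h1).ne'
  · have hn' : (m : ℝ) + s = ((m' + 1 : ℕ) : ℝ) + 0 + 2 * n := by push_cast; linarith
    obtain ⟨rfl, hm⟩ := lane_split h0 h1 le_rfl zero_lt_one hn'
    rw [HH_zero] at hy
    have := ee_pos (3 * m + c)
    linarith

theorem outer_ne_inner {c : ℕ} {a y t : ℝ} (ht : 0 ≤ t) (ha : a < 0)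
    (hy : (-1 ≤ a ∧ 6 / 5 < y) ∨ (-2 ≤ a ∧ 3 / 2 < y)) : pt a y ≠ pt t (hh c t) := by
  intro h
  obtain ⟨hy', n, hn⟩ := pt_eq_iff.1 h
  have hn1 : (n : ℝ) ≤ -1 := by
    have h0 : (n : ℝ) < 0 := by linarith
    have h1 : n < 0 := by exact_mod_cast h0
    have h2 : n ≤ -1 := by omega
    exact_mod_cast h2
  rcases hy with ⟨h1, h2⟩ | ⟨h1, h2⟩
  · have ht1 : ((1:ℕ):ℝ) ≤ t := by push_cast; linarith
    have h3 := hh_le c 1 ht1
    have h4 : ee (3 * 1 + c) ≤ ee 3 := ee_anti (by omega)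
    have h5 : ee 3 = 1 / 5 := by norm_num [ee]
    linarith
  · have h3 := hh_le c 0 (by simpa using ht)
    have h4 := ee_le (3 * 0 + c)
    linarith

theorem high_not_mem_MM {a y : ℝ} (hy : 1 < y) : pt a y ∉ MM := by
  rintro ⟨m', s', y', hL, h⟩
  obtain ⟨hy', _⟩ := pt_eq_iff.1 h
  have := hL.y1
  linarith

/-! ### Approaching the limit set -/

theorem near_joint {c m : ℕ} (hk : 4 ≤ 3 * m + c) {s : ℝ} (h0 : 0 ≤ s) (h1 : s ≤ 1) {k' : ℕ}
    (hk1 : k' ≤ 3 * m + c + 4) (hk2 : 3 * m + c ≤ k') :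
    ∃ s' y, LL s' y ∧
      dist (pt (m + s) (HH (3 * m + c) s)) (pt (m + s') y) ≤ 5 / ((m : ℝ) + 1) ∧
      dist (pt (m + 1 + ph (3 * m + c) k' s) (HH k' (ph (3 * m + c) k' s)))
        (pt (m + 1 + gg s') ((2 * y - 1) ^ 2)) ≤ 5 / ((m : ℝ) + 1) := by
  set k := 3 * m + c with hkdef
  have hmk : (m : ℝ) ≤ k := by
    have : m ≤ k := by omega
    exact_mod_cast this
  have hm0 : (0:ℝ) ≤ m := Nat.cast_nonneg m
  have b1 : 1 / ((k : ℝ) + 1) ≤ 1 / ((m : ℝ) + 1) :=
    one_div_le_one_div_of_le (by linarith) (by linarith)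
  have b2 : ee k ≤ 1 / ((m : ℝ) + 1) := by
    unfold ee; exact one_div_le_one_div_of_le (by linarith) (by linarith)
  have b3 : ee k' ≤ 1 / ((m : ℝ) + 1) := (ee_anti hk2).trans b2
  have o1 := oo_le k h0 h1
  have o0 := oo_pos k h0 h1
  have hp := ph_mem k k' h0 h1
  have o1' := oo_le k' hp.1 hp.2
  have o0' := oo_pos k' hp.1 hp.2
  have e5 : 5 / ((m : ℝ) + 1) = 4 * (1 / ((m : ℝ) + 1)) + 1 / ((m : ℝ) + 1) := by ring
  have pos : 0 < 1 / ((m : ℝ) + 1) := by positivity
  have hW : W (xik k' (ph k k' s)) = (2 * W (xik k s) - 1) ^ 2 := W_xik_ph k k' h0 h1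
  rcases le_total s (aL k) with h | h
  · have hs1 : s < 1 := h.trans_lt (aL_lt_one k)
    refine ⟨s, W (xi s), Or.inl ⟨h0, hs1, rfl⟩, ?_, ?_⟩
    · refine (dist_pt_le _ _ _ _).trans ?_
      rw [sub_self, abs_zero, mul_zero, zero_add]
      unfold HH
      rw [xik_of_le h, add_sub_cancel_left, abs_of_pos o0]
      linarith
    · refine (dist_pt_le _ _ _ _).trans ?_
      have := ph_near hk hk1 hk2 h0 h1
      rw [show (m : ℝ) + 1 + ph k k' s - (m + 1 + gg s) = ph k k' s - gg s by ring]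
      unfold HH
      rw [hW, xik_of_le h, add_sub_cancel_left, abs_of_pos o0']
      linarith
  · refine ⟨1, W (xik k s), Or.inr ⟨rfl, W_nonneg _, W_le_one _⟩, ?_, ?_⟩
    · refine (dist_pt_le _ _ _ _).trans ?_
      rw [show (m : ℝ) + s - (m + 1) = -(1 - s) by ring, abs_neg, abs_of_nonneg (by linarith)]
      unfold HH
      rw [add_sub_cancel_left, abs_of_pos o0]
      have := one_sub_aL k
      linarith
    · refine (dist_pt_le _ _ _ _).trans ?_
      rw [gg_one, show (m : ℝ) + 1 + ph k k' s - (m + 1 + 1) = -(1 - ph k k' s) by ring, abs_neg,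
        abs_of_nonneg (by linarith [hp.2])]
      unfold HH
      rw [hW, add_sub_cancel_left, abs_of_pos o0']
      have q1 := ph_ge hk hk1 h h1
      have q2 := one_sub_aL k'
      have q3 : 1 / ((k' : ℝ) + 1) ≤ 1 / ((m : ℝ) + 1) := by
        apply one_div_le_one_div_of_le (by linarith)
        have : (k : ℝ) ≤ k' := by exact_mod_cast hk2
        linarith
      linarith

theorem near_MM (c : ℕ) {ε : ℝ} (hε : 0 < ε) : ∃ N : ℝ, ∀ t, N ≤ t → 0 ≤ t →
    ∃ q ∈ MM, dist (pt t (hh c t)) q < ε := by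
  obtain ⟨n, hn⟩ := exists_nat_gt (5 / ε)
  refine ⟨n + 4, ?_⟩
  intro t ht ht0
  obtain ⟨m, s, h0, h1, rfl⟩ := exists_lane ht0
  have hm : (n : ℝ) + 3 < m := by linarith
  have hm' : n + 3 < m := by exact_mod_cast hm
  obtain ⟨s', y, hL, hd, _⟩ := near_joint (c := c) (m := m) (by omega) h0 h1.le
    (k' := 3 * m + c) (by omega) le_rfl
  refine ⟨_, ⟨m, s', y, hL, rfl⟩, ?_⟩
  rw [hh_eq c m h0 h1.le]
  refine hd.trans_lt ?_
  rw [div_lt_iff₀ hε] at hn
  rw [div_lt_iff₀ (by linarith [(Nat.cast_nonneg m : (0:ℝ) ≤ m)])]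
  nlinarith

/-! ### Heights extended -/

noncomputable def hm (c : ℕ) (t : ℝ) : ℝ := hh c (max t 0)

@[fun_prop]
theorem continuous_hm (c : ℕ) : Continuous (hm c) := by
  unfold hm
  exact (continuousOn_hh c).comp_continuous (by fun_prop) (fun t => by simp)

theorem hm_of_nonneg {c : ℕ} {t : ℝ} (ht : 0 ≤ t) : hm c t = hh c t := by
  unfold hm; rw [max_eq_left ht]

/-! ### The ray `PP` -/

noncomputable def xP (t : ℝ) : ℝ := max t (min (-1) (-4 - t))

noncomputable def yP (t : ℝ) : ℝ :=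
  if t ≤ 0 then min (min (t + 9) (max 6 (8 + t))) (3 / 2 - 12 * t) else hm 0 t

noncomputable def PP (t : ℝ) : Zs := pt (xP t) (yP t)

theorem continuous_yP : Continuous yP := by
  unfold yP
  apply Continuous.if_le
  · fun_prop
  · fun_prop
  · fun_prop
  · fun_prop
  · intro t ht
    subst ht
    rw [hm_of_nonneg le_rfl, hh_zero]
    norm_num [ee]

theorem continuous_PP : Continuous PP := by
  unfold PP xP
  apply Continuous.pt'
  · fun_prop
  · exact continuous_yP

theorem PP_of_nonneg {t : ℝ} (ht : 0 ≤ t) : PP t = pt t (hh 0 t) := by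
  unfold PP
  have h1 : xP t = t := by
    unfold xP
    rw [max_eq_left]
    exact (min_le_left _ _).trans (by linarith)
  rw [h1]
  congr 1
  rcases ht.lt_or_eq with h | h
  · unfold yP
    rw [if_neg (not_le.2 h), hm_of_nonneg ht]
  · subst h
    unfold yP
    rw [if_pos le_rfl, hh_zero]
    norm_num [ee]

theorem PP_c1 {t : ℝ} (h2 : t ≤ -3) : PP t = pt (-1) (t + 9) := by
  unfold PP xP yP
  rw [min_eq_left (by linarith), max_eq_right (by linarith), if_pos (by linarith),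
    min_eq_left (a := t + 9), min_eq_left (by linarith)]
  exact le_max_of_le_left (by linarith)

theorem PP_c2 {t : ℝ} (h1 : -3 ≤ t) (h2 : t ≤ -2) : PP t = pt (-4 - t) 6 := by
  unfold PP xP yP
  rw [min_eq_right (by linarith), max_eq_right (by linarith), if_pos (by linarith),
    max_eq_left (by linarith), min_eq_right (a := t + 9) (by linarith), min_eq_left (by linarith)]

theorem PP_c3 {t : ℝ} (h1 : -2 ≤ t) (h2 : t ≤ 0) : PP t = pt t (min (8 + t) (3 / 2 - 12 * t)) := by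
  unfold PP xP yP
  rw [max_eq_left, if_pos h2, max_eq_right (by linarith), min_eq_right (a := t + 9) (by linarith)]
  exact (min_le_right _ _).trans (by linarith)

/-- unrolled position of `PP t` for negative `t` -/
theorem PP_neg {t : ℝ} (h : -7 ≤ t) (h0 : t < 0) : ∃ a y, PP t = pt a y ∧ -2 ≤ a ∧ a < 0 ∧
    3 / 2 < y ∧ (-1 < a → a = t ∧ y = min (8 + t) (3 / 2 - 12 * t)) := by
  rcases le_total t (-3) with h1 | h1
  · exact ⟨_, _, PP_c1 h1, by norm_num, by norm_num, by linarith, fun h => absurd h (by norm_num)⟩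
  rcases le_total t (-2) with h2 | h2
  · exact ⟨_, _, PP_c2 h1 h2, by linarith, by linarith, by norm_num,
      fun h => absurd h (by linarith)⟩
  · refine ⟨_, _, PP_c3 h2 h0.le, h2, h0, ?_, fun _ => ⟨rfl, rfl⟩⟩
    rw [lt_min_iff]
    constructor <;> linarith

theorem PP_not_mem_MM {t : ℝ} (h : -7 ≤ t) : PP t ∉ MM := by
  rcases le_or_gt 0 t with h0 | h0
  · rw [PP_of_nonneg h0]; exact inner_not_mem_MM 0 h0
  · obtain ⟨a, y, e, _, _, hy, _⟩ := PP_neg h h0
    rw [e]; exact high_not_mem_MM (by linarith)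

theorem PP_neg_ne_inner {c : ℕ} {t t' : ℝ} (h : -7 ≤ t) (h0 : t < 0) (h' : 0 ≤ t') :
    PP t ≠ pt t' (hh c t') := by
  obtain ⟨a, y, e, ha1, ha2, hy, _⟩ := PP_neg h h0
  rw [e]; exact outer_ne_inner h' ha2 (Or.inr ⟨ha1, hy⟩)

theorem injOn_PP : InjOn PP (Ici (-7)) := by
  have key : ∀ t t' : ℝ, -7 ≤ t → t ≤ t' → PP t = PP t' → t = t' := by
    intro t t' ht htt h
    rcases le_or_gt 0 t with h0 | h0
    · rw [PP_of_nonneg h0, PP_of_nonneg (h0.trans htt)] at h
      exact (inner_inj (by norm_num) (by norm_num) h0 (h0.trans htt) h).2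
    rcases le_or_gt 0 t' with h0' | h0'
    · rw [PP_of_nonneg h0'] at h
      exact absurd h (PP_neg_ne_inner ht h0 h0')
    have inj : ∀ {a y a' y' : ℝ}, pt a y = pt a' y' → -2 ≤ a → a < 0 → -2 ≤ a' → a' < 0 →
        a = a' ∧ y = y' := by
      intro a y a' y' h h1 h2 h3 h4
      exact pt_inj_of_lt h (by rw [abs_lt]; constructor <;> linarith)
    rcases le_total t (-3) with a1 | a1
    · rw [PP_c1 a1] at h
      rcases le_total t' (-3) with b1 | b1
      · rw [PP_c1 b1] at h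
        have := (inj h (by norm_num) (by norm_num) (by norm_num) (by norm_num)).2
        linarith
      rcases le_total t' (-2) with b2 | b2
      · rw [PP_c2 b1 b2] at h
        obtain ⟨e1, e2⟩ := inj h (by norm_num) (by norm_num) (by linarith) (by linarith)
        linarith
      · rw [PP_c3 b2 h0'.le] at h
        obtain ⟨e1, e2⟩ := inj h (by norm_num) (by norm_num) (by linarith) (by linarith)
        rw [← e1] at e2
        norm_num at e2
        linarith
    · rcases le_total t (-2) with a2 | a2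
      · rw [PP_c2 a1 a2] at h
        rcases le_total t' (-2) with b2 | b2
        · rw [PP_c2 (a1.trans htt) b2] at h
          obtain ⟨e1, e2⟩ := inj h (by linarith) (by linarith) (by linarith) (by linarith)
          linarith
        · rw [PP_c3 b2 h0'.le] at h
          obtain ⟨e1, e2⟩ := inj h (by linarith) (by linarith) (by linarith) (by linarith)
          rw [min_eq_left (by linarith)] at e2
          linarith
      · rw [PP_c3 a2 h0.le, PP_c3 (a2.trans htt) h0'.le] at h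
        exact (inj h a2 h0 (a2.trans htt) h0').1
  intro t ht t' ht' h
  rcases le_total t t' with h' | h'
  · exact key t t' ht h' h
  · exact (key t' t ht' h' h.symm).symm

theorem tends_PP : Tends (Ici (-7)) PP MM := by
  intro ε hε
  obtain ⟨N, hN⟩ := near_MM 0 hε
  refine ⟨max N 8, ?_⟩
  intro t ht htN
  have ht7 : (-7:ℝ) ≤ t := ht
  have h8 : (8:ℝ) ≤ |t| := (le_max_right _ _).trans htN
  have ht0 : 0 ≤ t := by
    by_contra hcon
    push Not at hcon
    rw [abs_of_neg hcon] at h8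
    linarith
  rw [abs_of_nonneg ht0] at htN
  rw [PP_of_nonneg ht0]
  exact hN t ((le_max_left _ _).trans htN) ht0

/-! ### The lines `TT c` -/

noncomputable def aT (t : ℝ) : ℝ := max t 0 - 1 + 1 / (1 - min t 0)

theorem aT_of_nonneg {t : ℝ} (ht : 0 ≤ t) : aT t = t := by
  unfold aT; rw [max_eq_left ht, min_eq_right ht]; norm_num

theorem aT_of_nonpos {t : ℝ} (ht : t ≤ 0) : aT t = -1 + 1 / (1 - t) := by
  unfold aT; rw [max_eq_right ht, min_eq_left ht]; ring

theorem continuous_aT : Continuous aT := by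
  unfold aT
  apply Continuous.add (by fun_prop)
  apply Continuous.div continuous_const (by fun_prop)
  intro t
  have : min t 0 ≤ 0 := min_le_right _ _
  linarith

theorem aT_gt (t : ℝ) : -1 < aT t := by
  rcases le_total 0 t with h | h
  · rw [aT_of_nonneg h]; linarith
  · rw [aT_of_nonpos h]
    have : 0 < 1 / (1 - t) := by apply one_div_pos.2; linarith
    linarith

theorem aT_neg {t : ℝ} (h : t < 0) : aT t < 0 := by
  rw [aT_of_nonpos h.le]
  have : 1 / (1 - t) < 1 := by rw [div_lt_one (by linarith)]; linarith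
  linarith

theorem aT_strictMono : StrictMono aT := by
  intro s t hst
  rcases le_total 0 s with h | h
  · rw [aT_of_nonneg h, aT_of_nonneg (h.trans hst.le)]; exact hst
  rcases le_total 0 t with h' | h'
  · rcases h.lt_or_eq with h | h
    · rw [aT_of_nonneg h']; exact (aT_neg h).trans_le h'
    · subst h; rw [aT_of_nonneg le_rfl, aT_of_nonneg h']; exact hst
  · rw [aT_of_nonpos h, aT_of_nonpos h']
    have : 1 / (1 - s) < 1 / (1 - t) := one_div_lt_one_div_of_lt (by linarith) (by linarith)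
    linarith

theorem aT_m1 : aT (-1) = -1 / 2 := by rw [aT_of_nonpos (by norm_num)]; norm_num

noncomputable def kk (c : ℕ) : ℝ := if c = 1 then 28 / 3 else 3 / 2

noncomputable def jj (c : ℕ) (t : ℝ) : ℝ := if c = 1 then 5 + W t else 3 - W t

noncomputable def yT (c : ℕ) (t : ℝ) : ℝ :=
  if t ≤ -1 then jj c t else if t ≤ 0 then (1 + ee c) - kk c * aT t else hm c t

noncomputable def TT (c : ℕ) (t : ℝ) : Zs := pt (aT t) (yT c t)

theorem W_m1 : W (-1) = 1 := by
  have := W_nat 1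
  rw [W_neg]; simpa using this

theorem continuous_jj (c : ℕ) : Continuous (jj c) := by
  unfold jj
  split_ifs <;> fun_prop

theorem continuous_yT {c : ℕ} (hc : c = 1 ∨ c = 2) : Continuous (yT c) := by
  have h1 := continuous_aT
  have h2 := continuous_jj c
  unfold yT
  apply Continuous.if_le h2
  · apply Continuous.if_le
    · fun_prop
    · fun_prop
    · fun_prop
    · fun_prop
    · intro t ht
      subst ht
      rw [aT_of_nonneg le_rfl, hm_of_nonneg le_rfl, hh_zero]; ring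
  · fun_prop
  · fun_prop
  · intro t ht
    subst ht
    rw [if_pos (by norm_num), aT_m1]
    unfold jj
    rw [W_m1]
    rcases hc with rfl | rfl <;> norm_num [ee, kk]

theorem continuous_TT {c : ℕ} (hc : c = 1 ∨ c = 2) : Continuous (TT c) :=
  Continuous.pt' continuous_aT (continuous_yT hc)

theorem TT_of_nonneg (c : ℕ) {t : ℝ} (ht : 0 ≤ t) : TT c t = pt t (hh c t) := by
  unfold TT
  rw [aT_of_nonneg ht]
  congr 1
  rcases ht.lt_or_eq with h | h
  · unfold yT
    rw [if_neg (by linarith), if_neg (by linarith), hm_of_nonneg ht]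
  · subst h
    unfold yT
    rw [if_neg (by norm_num), if_pos le_rfl, hh_zero, aT_of_nonneg le_rfl]
    ring

theorem TT_of_le (c : ℕ) {t : ℝ} (ht : t ≤ -1) : TT c t = pt (-1 + 1 / (1 - t)) (jj c t) := by
  unfold TT yT
  rw [aT_of_nonpos (by linarith), if_pos ht]

theorem TT_of_mid (c : ℕ) {t : ℝ} (h1 : -1 < t) (ht : t ≤ 0) :
    TT c t = pt (aT t) ((1 + ee c) - kk c * aT t) := by
  unfold TT yT
  rw [if_neg (not_le.2 h1), if_pos ht]

theorem jj_one_mem (t : ℝ) : 5 ≤ jj 1 t ∧ jj 1 t ≤ 6 := by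
  unfold jj
  rw [if_pos rfl]
  have := W_nonneg t
  have := W_le_one t
  constructor <;> linarith

theorem jj_two_mem (t : ℝ) : 2 ≤ jj 2 t ∧ jj 2 t ≤ 3 := by
  unfold jj
  rw [if_neg (by norm_num)]
  have := W_nonneg t
  have := W_le_one t
  constructor <;> linarith

theorem yT_neg {c : ℕ} (hc : c = 1 ∨ c = 2) {t : ℝ} (ht : t < 0) : 5 / 4 < yT c t := by
  have ha := aT_neg ht
  unfold yT
  by_cases h : t ≤ -1
  · rw [if_pos h]
    rcases hc with rfl | rfl
    · linarith [(jj_one_mem t).1]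
    · linarith [(jj_two_mem t).1]
  · rw [if_neg h, if_pos ht.le]
    rcases hc with rfl | rfl <;> norm_num [ee, kk] <;> linarith

theorem yT_lt {t : ℝ} (ht : t < 0) : yT 2 t < yT 1 t := by
  have ha := aT_neg ht
  unfold yT
  by_cases h : t ≤ -1
  · rw [if_pos h, if_pos h]
    linarith [(jj_one_mem t).1, (jj_two_mem t).2]
  · rw [if_neg h, if_pos ht.le, if_neg h, if_pos ht.le]
    norm_num [ee, kk]
    linarith

theorem yT_lt_P {c : ℕ} (hc : c = 1 ∨ c = 2) {t : ℝ} (ht : t < 0) :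
    yT c t < min (8 + aT t) (3 / 2 - 12 * aT t) := by
  have ha := aT_neg ht
  have ha' := aT_gt t
  unfold yT
  by_cases h : t ≤ -1
  · rw [if_pos h]
    have h2 : aT t ≤ -1 / 2 := by rw [← aT_m1]; exact aT_strictMono.monotone h
    have h3 : jj c t ≤ 6 := by
      rcases hc with rfl | rfl
      · exact (jj_one_mem t).2
      · linarith [(jj_two_mem t).2]
    rw [lt_min_iff]
    constructor <;> linarith
  · rw [if_neg h, if_pos ht.le]
    push Not at h
    have h2 : -1 / 2 < aT t := by rw [← aT_m1]; exact aT_strictMono h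
    rw [lt_min_iff]
    rcases hc with rfl | rfl <;> norm_num [ee, kk] <;> constructor <;> linarith

theorem TT_not_mem_MM {c : ℕ} (hc : c = 1 ∨ c = 2) (t : ℝ) : TT c t ∉ MM := by
  rcases le_or_gt 0 t with h0 | h0
  · rw [TT_of_nonneg c h0]; exact inner_not_mem_MM c h0
  · unfold TT
    exact high_not_mem_MM (by linarith [yT_neg hc h0])

theorem TT_neg_ne_inner {c c' : ℕ} (hc : c = 1 ∨ c = 2) {t t' : ℝ} (h0 : t < 0) (h' : 0 ≤ t') :
    TT c t ≠ pt t' (hh c' t') := by
  unfold TT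
  exact outer_ne_inner h' (aT_neg h0) (Or.inl ⟨(aT_gt t).le, by linarith [yT_neg hc h0]⟩)

theorem TT_inj {c c' : ℕ} (hc : c = 1 ∨ c = 2) (hc' : c' = 1 ∨ c' = 2) {t t' : ℝ}
    (h : TT c t = TT c' t') : c = c' ∧ t = t' := by
  rcases le_or_gt 0 t with h0 | h0
  · rcases le_or_gt 0 t' with h0' | h0'
    · rw [TT_of_nonneg c h0, TT_of_nonneg c' h0'] at h
      exact inner_inj (by omega) (by omega) h0 h0' h
    · rw [TT_of_nonneg c h0] at h
      exact absurd h.symm (TT_neg_ne_inner hc' h0' h0)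
  · rcases le_or_gt 0 t' with h0' | h0'
    · rw [TT_of_nonneg c' h0'] at h
      exact absurd h (TT_neg_ne_inner hc h0 h0')
    · unfold TT at h
      have a1 := aT_gt t
      have a2 := aT_neg h0
      have a3 := aT_gt t'
      have a4 := aT_neg h0'
      obtain ⟨e1, e2⟩ := pt_inj_of_lt h (by rw [abs_lt]; constructor <;> linarith)
      have e3 := aT_strictMono.injective e1
      subst e3
      have := yT_lt h0
      rcases hc with rfl | rfl <;> rcases hc' with rfl | rfl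
      · exact ⟨rfl, rfl⟩
      · exact absurd e2 this.ne'
      · exact absurd e2 this.ne
      · exact ⟨rfl, rfl⟩

theorem PP_ne_TT {c : ℕ} (hc : c = 1 ∨ c = 2) {t t' : ℝ} (ht : -7 ≤ t) : PP t ≠ TT c t' := by
  intro h
  rcases le_or_gt 0 t with h0 | h0
  · rcases le_or_gt 0 t' with h0' | h0'
    · rw [PP_of_nonneg h0, TT_of_nonneg c h0'] at h
      have := (inner_inj (by norm_num) (by omega) h0 h0' h).1
      omega
    · rw [PP_of_nonneg h0] at h
      exact absurd h.symm (TT_neg_ne_inner hc h0' h0)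
  · rcases le_or_gt 0 t' with h0' | h0'
    · rw [TT_of_nonneg c h0'] at h
      exact absurd h (PP_neg_ne_inner ht h0 h0')
    · obtain ⟨a, y, e, ha1, ha2, hy, hay⟩ := PP_neg ht h0
      rw [e] at h
      unfold TT at h
      have a3 := aT_gt t'
      have a4 := aT_neg h0'
      obtain ⟨e1, e2⟩ := pt_inj_of_lt h (by rw [abs_lt]; constructor <;> linarith)
      obtain ⟨e3, e4⟩ := hay (by rw [e1]; exact a3)
      have := yT_lt_P hc h0'
      rw [← e1, ← e2, e4, e3] at this
      exact lt_irrefl _ this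

/-! ### The bars `JJ c` -/

noncomputable def lo (c : ℕ) : ℝ := if c = 1 then 5 else 2

def JJ (c : ℕ) : Set Zs := {z | ∃ y, lo c ≤ y ∧ y ≤ lo c + 1 ∧ z = pt (-1) y}

theorem isCompact_JJ (c : ℕ) : IsCompact (JJ c) := by
  have : JJ c = (fun y => pt (-1) y) '' Icc (lo c) (lo c + 1) := by
    ext z
    simp only [JJ, mem_ofPred_eq, mem_image, mem_Icc]
    constructor
    · rintro ⟨y, h0, h1, rfl⟩; exact ⟨y, ⟨h0, h1⟩, rfl⟩
    · rintro ⟨y, ⟨h0, h1⟩, rfl⟩; exact ⟨y, h0, h1, rfl⟩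
  rw [this]
  exact isCompact_Icc.image (Continuous.pt' (by fun_prop) (by fun_prop))

theorem jj_mem {c : ℕ} (hc : c = 1 ∨ c = 2) (t : ℝ) : lo c ≤ jj c t ∧ jj c t ≤ lo c + 1 := by
  rcases hc with rfl | rfl
  · have := jj_one_mem t
    norm_num [lo]; exact this
  · have := jj_two_mem t
    norm_num [lo]; exact this

theorem lo_ge (c : ℕ) : 2 ≤ lo c := by unfold lo; split_ifs <;> norm_num
theorem lo_le (c : ℕ) : lo c ≤ 5 := by unfold lo; split_ifs <;> norm_num

theorem JJ_subset {c : ℕ} : JJ c ⊆ PP '' Icc (-7) (-3) := by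
  rintro z ⟨y, h0, h1, rfl⟩
  have := lo_ge c
  have := lo_le c
  refine ⟨y - 9, ⟨by linarith, by linarith⟩, ?_⟩
  rw [PP_c1 (by linarith)]
  congr 1; ring

theorem JJ_disj_MM (c : ℕ) : Disjoint (JJ c) MM := by
  rw [Set.disjoint_left]
  rintro z ⟨y, h0, h1, rfl⟩
  have := lo_ge c
  exact high_not_mem_MM (by linarith)

theorem TT_not_mem_JJ {c c' : ℕ} (hc : c = 1 ∨ c = 2) (t : ℝ) : TT c t ∉ JJ c' := by
  intro h
  obtain ⟨t', ht', e⟩ := JJ_subset h
  exact PP_ne_TT hc ht'.1 e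

theorem tends_TT {c : ℕ} (hc : c = 1 ∨ c = 2) : Tends univ (TT c) (MM ∪ JJ c) := by
  intro ε hε
  obtain ⟨N, hN⟩ := near_MM c hε
  refine ⟨max (max N 1) (4 / ε), ?_⟩
  intro t _ ht
  have h1 : N ≤ |t| := (le_max_left _ _).trans ((le_max_left _ _).trans ht)
  have h2 : 1 ≤ |t| := (le_max_right _ _).trans ((le_max_left _ _).trans ht)
  have h3 : 4 / ε ≤ |t| := (le_max_right _ _).trans ht
  rcases le_or_gt 0 t with h0 | h0
  · rw [abs_of_nonneg h0] at h1
    rw [TT_of_nonneg c h0]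
    obtain ⟨q, hq, hq2⟩ := hN t h1 h0
    exact ⟨q, Or.inl hq, hq2⟩
  · rw [abs_of_neg h0] at h2 h3
    rw [TT_of_le c (by linarith)]
    obtain ⟨j1, j2⟩ := jj_mem hc t
    refine ⟨pt (-1) (jj c t), Or.inr ⟨_, j1, j2, rfl⟩, ?_⟩
    refine (dist_pt_le _ _ _ _).trans_lt ?_
    have hpos : 0 < 1 / (1 - t) := by apply one_div_pos.2; linarith
    rw [sub_self, abs_zero, add_zero, show -1 + 1 / (1 - t) - -1 = 1 / (1 - t) by ring,
      abs_of_pos hpos, mul_one_div, div_lt_iff₀ (by linarith)]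
    rw [div_le_iff₀ hε] at h3
    nlinarith

end Pool.Agent.H741.Bing
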