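import Pool.Agent.H741.Bing.Paths

/-!
Self-maps of `KK`: transfer of cluster points, behaviour on `MM`.
-/

set_option autoImplicit false

open Set Filter Topology Metric

namespace Pool.Agent.H741.Bing

theorem transfer {g : Zs → Zs} (hg : ContinuousOn g KK) {F F' : Filter ℝ} {E E' : ℝ → Zs}
    {π : ℝ → ℝ} {q : Zs} (hq : q ∈ KK) (hcl : MapClusterPt q F E)
    (hE : ∀ᶠ t in F, E t ∈ KK ∧ g (E t) = E' (π t)) (hπ : Tendsto π F F') :
    MapClusterPt (g q) F' E' := by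
  rw [mapClusterPt_iff_frequently] at hcl ⊢
  intro V hV
  have h1 : g ⁻¹' V ∈ 𝓝[KK] q := hg q hq hV
  rw [mem_nhdsWithin_iff_exists_mem_nhds_inter] at h1
  obtain ⟨U, hU, hsub⟩ := h1
  have h2 := (hcl U hU).and_eventually hE
  have h3 : ∃ᶠ t in F, E' (π t) ∈ V :=
    h2.mono (fun t ht => by rw [← ht.2.2]; exact hsub ⟨ht.1, ht.2.1⟩)
  exact hπ.frequently h3

theorem mem_of_cluster {g : Zs → Zs} (hg : ContinuousOn g KK) {F : Filter ℝ} {E : ℝ → Zs}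
    {q : Zs} (hq : q ∈ KK) (hcl : MapClusterPt q F E) {C : Set Zs} (hC : IsClosed C)
    (hE : ∀ᶠ t in F, E t ∈ KK ∧ g (E t) ∈ C) : g q ∈ C := by
  by_contra hcon
  rw [mapClusterPt_iff_frequently] at hcl
  have h1 : g ⁻¹' Cᶜ ∈ 𝓝[KK] q := hg q hq (hC.isOpen_compl.mem_nhds hcon)
  rw [mem_nhdsWithin_iff_exists_mem_nhds_inter] at h1
  obtain ⟨U, hU, hsub⟩ := h1
  obtain ⟨t, ht1, ht2, ht3⟩ := ((hcl U hU).and_eventually hE).exists
  exact hsub ⟨ht1, ht2⟩ ht3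

theorem lt_of_no_fix {S : Set ℝ} (hS : IsPreconnected S) {π : ℝ → ℝ} (hπ : ContinuousOn π S)
    (hne : ∀ t ∈ S, π t ≠ t) {t0 : ℝ} (ht0 : t0 ∈ S) (h0 : t0 < π t0) : ∀ t ∈ S, t < π t := by
  intro t ht
  by_contra hcon
  push Not at hcon
  have hc : ContinuousOn (fun t => π t - t) S := hπ.sub continuousOn_id
  have := hS.intermediate_value ht ht0 hc
  obtain ⟨s, hs, hs2⟩ := this (show (0:ℝ) ∈ Icc (π t - t) (π t0 - t0) from
    ⟨by linarith, by linarith⟩)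
  exact hne s hs (by simp only at hs2; linarith)

theorem tendsto_of_lt {a : ℝ} {π : ℝ → ℝ} (h : ∀ t, a ≤ t → t < π t) :
    Tendsto π atTop atTop := by
  apply tendsto_atTop_mono' atTop _ tendsto_id
  filter_upwards [eventually_ge_atTop a] with t ht
  exact (h t ht).le

theorem rr'_mem_KK (i : ℕ) {t : ℝ} (ht : -1 ≤ t) : rr' i t ∈ KK := RR_sub i ⟨t, ht, rfl⟩

theorem swap_of {g : Zs → Zs} (hg : ContinuousOn g KK) (hm : MapsTo g MM MM)
    (hfix : ∀ z ∈ MM, g z ≠ z) (i : ℕ) : ∀ z ∈ RR i, g z ∈ RR (i + 1) := by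
  have hcont : ContinuousOn (fun t => g (rr' i t)) (Ici (-1)) :=
    hg.comp (continuous_rr' i).continuousOn (fun t ht => rr'_mem_KK i ht)
  have hMM : ∀ t ∈ Ici (-1 : ℝ), g (rr' i t) ∈ MM :=
    fun t ht => hm (RR_subset_MM i ⟨t, ht, rfl⟩)
  have key : ∀ j, g (rr' i (-1)) ∈ RR j → ∀ t ∈ Ici (-1 : ℝ), g (rr' i t) ∈ RR j := by
    intro j h0 t ht
    have ht' : (-1:ℝ) ≤ t := ht
    have hsub : Icc (-1 : ℝ) t ⊆ Ici (-1) := fun s hs => hs.1
    exact inv_MM_RR j (fun t => g (rr' i t)) (-1) t ht' (hcont.mono hsub)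
      (fun s hs => hMM s (hsub hs)) h0
  have h0 : g (rr' i (-1)) ∈ RR i ∪ RR (i + 1) := by
    rw [← MM_eq_union' i]; exact hMM _ (by simp)
  rcases h0 with h0 | h0
  · exfalso
    have hall := key i h0
    have hch : ∀ t ∈ Ici (-1 : ℝ), ∃ u ∈ Ici (-1 : ℝ), rr' i u = g (rr' i t) := fun t ht => hall t ht
    choose! π hπ1 hπ2 using hch
    have hπc : ContinuousOn π (Ici (-1)) :=
      lift_continuousOn isClosed_Ici (continuous_rr' i).continuousOn (injOn_rr' i)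
        (isCompact_CC (i + 1)).isClosed (RR_disj_CC i) (tends_rr' i) hcont
        (fun t ht => ⟨hπ1 t ht, hπ2 t ht⟩)
    have hne : ∀ t ∈ Ici (-1 : ℝ), π t ≠ t := by
      intro t ht h
      apply hfix (rr' i t) (RR_subset_MM i ⟨t, ht, rfl⟩)
      rw [← hπ2 t ht, h]
    have hm1 : (-1:ℝ) ∈ Ici (-1 : ℝ) := by simp
    have hlt := lt_of_no_fix (convex_Ici (-1 : ℝ)).isPreconnected hπc hne hm1
      (lt_of_le_of_ne (hπ1 _ hm1) (hne _ hm1).symm)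
    have htop := tendsto_of_lt (a := -1) hlt
    have hC : ∀ q ∈ CC (i + 1), g q ∈ CC (i + 1) := by
      intro q hq
      apply (tendsTop_rr' i).mem (isCompact_CC _).isClosed
      apply transfer hg (CC_sub _ hq) (cluster_rr' i hq) _ htop
      filter_upwards [eventually_ge_atTop (-1 : ℝ)] with t ht
      exact ⟨rr'_mem_KK i ht, (hπ2 t ht).symm⟩
    -- fixed point in the bar
    have hmem : ∀ y ∈ Icc (0:ℝ) 1, pt ((i + 1 : ℕ) : ℝ) y ∈ CC (i + 1) :=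
      fun y hy => ⟨y, hy.1, hy.2, rfl⟩
    have hphi : ContinuousOn (fun y : ℝ => (g (pt ((i + 1 : ℕ) : ℝ) y)).2) (Icc 0 1) := by
      apply continuous_snd.comp_continuousOn
      apply hg.comp (Continuous.pt' (by fun_prop) (by fun_prop)).continuousOn
      intro y hy
      exact CC_sub _ (hmem y hy)
    have hmaps : MapsTo (fun y : ℝ => (g (pt ((i + 1 : ℕ) : ℝ) y)).2) (Icc 0 1) (Icc 0 1) := by
      intro y hy
      obtain ⟨y', h1, h2, h3⟩ := hC _ (hmem y hy)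
      show (g (pt ((i + 1 : ℕ) : ℝ) y)).2 ∈ Icc (0:ℝ) 1
      rw [h3, pt_snd]
      exact ⟨h1, h2⟩
    obtain ⟨y, hy, hfy⟩ := exists_mem_Icc_isFixedPt_of_mapsTo hphi zero_le_one hmaps
    obtain ⟨y', h1, h2, h3⟩ := hC _ (hmem y hy)
    have h4 : (g (pt ((i + 1 : ℕ) : ℝ) y)).2 = y := hfy
    rw [h3, pt_snd] at h4
    apply hfix _ (RR_subset_MM _ (CC_subset_RR _ (hmem y hy)))
    rw [h3, h4]
  · rintro z ⟨t, ht, rfl⟩
    exact key (i + 1) h0 t ht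

theorem not_sub {g : Zs → Zs} (hg : ContinuousOn g KK)
    (hsw : ∀ i, ∀ z ∈ RR i, g z ∈ RR (i + 1)) (i : ℕ) : ∃ u, 0 ≤ u ∧ g (rr' i u) ∉ CC (i + 1) := by
  by_contra hcon
  push Not at hcon
  have hq : pt ((i + 1 : ℕ) : ℝ) 0 ∈ CC (i + 1) := ⟨0, le_rfl, zero_le_one, rfl⟩
  have h1 : g (pt ((i + 1 : ℕ) : ℝ) 0) ∈ CC (i + 1) := by
    apply mem_of_cluster hg (CC_sub _ hq) (cluster_rr' i hq) (isCompact_CC _).isClosed
    filter_upwards [eventually_ge_atTop (0 : ℝ)] with t ht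
    exact ⟨rr'_mem_KK i (by linarith), hcon t ht⟩
  have h2 := hsw (i + 1) _ (CC_subset_RR _ hq)
  exact Set.disjoint_left.1 (RR_disjoint (i + 1)) (CC_subset_RR _ h1) h2

theorem not_maps {g : Zs → Zs} (hg : ContinuousOn g KK)
    (hsw : ∀ i, ∀ z ∈ RR i, g z ∈ RR (i + 1)) (i : ℕ) :
    ¬ ∀ z ∈ MM, g z ∈ RR i ∪ CC (i + 1) := by
  intro h
  obtain ⟨u, hu, hu2⟩ := not_sub hg hsw i
  have hmem : rr' i u ∈ RR i := ⟨u, show (-1:ℝ) ≤ u by linarith, rfl⟩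
  rcases h _ (RR_subset_MM i hmem) with h1 | h1
  · exact Set.disjoint_left.1 (RR_disjoint i) h1 (hsw i _ hmem)
  · exact hu2 h1

end Pool.Agent.H741.Bing
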